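import Pool.Agent.Lib.MP_0af767_co.Ext

/-!
# MP_0af767_co: rows of an AONT that can be extended by one column: zeros, `d = 0` and `d = 1`
-/

set_option autoImplicit false

namespace Pool.MP_0af767_co

open Finset Matrix

variable {F : Type*} [Field F] {ι : Type*}

/-- the rows in `K` of `M` can be extended by the column `v` such that all `2 × 2` minors of the
`K`-rows stay non-zero (those inside `M` are non-zero anyway when `M` is `TwoReg`) -/
def Extends (M : Matrix ι ι F) (K : Finset ι) (v : ι → F) : Prop :=
  ∀ a ∈ K, ∀ b ∈ K, a ≠ b → ∀ j, M a j * v b ≠ M b j * v a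

variable [Fintype F] [Fintype ι] [DecidableEq ι]

/-- every row of an AONT contains a zero (`2 < q`): otherwise the vector of the inverses of the row
is orthogonal to all rows -/
theorem exists_zero_row {M : Matrix ι ι F} (hM : IsAONT M)
    (hι : Fintype.card ι = Fintype.card F) (hq : 2 < Fintype.card F) (i : ι) :
    ∃ j, M i j = 0 := by
  classical
  by_contra hno
  push Not at hno
  apply hM.1
  rw [← Matrix.exists_mulVec_eq_zero_iff]
  refine ⟨fun j => (M i j)⁻¹, ?_, ?_⟩
  · intro h
    have h1 := congrFun h i
    simp only [Pi.zero_apply, inv_eq_zero] at h1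
    exact hno i h1
  · funext k
    rw [Pi.zero_apply, Matrix.mulVec, dotProduct]
    by_cases hk : k = i
    · subst hk
      rw [sum_congr rfl fun j _ => mul_inv_cancel₀ (hno j), sum_const, card_univ, hι,
        nsmul_eq_mul, mul_one]
      exact FiniteField.cast_card_eq_zero F
    · have hinj : Function.Injective (fun j => M k j * (M i j)⁻¹) := by
        intro j j' hjj
        by_contra hne
        apply hM.2 k i hk j j' hne
        have h1 : M k j * (M i j)⁻¹ = M k j' * (M i j')⁻¹ := hjj
        rw [← div_eq_mul_inv, ← div_eq_mul_inv, div_eq_div_iff (hno j) (hno j')] at h1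
        rw [h1]
        ring
      have hbij : Function.Bijective (fun j => M k j * (M i j)⁻¹) := by
        rw [Fintype.bijective_iff_injective_and_card]
        exact ⟨hinj, hι⟩
      rw [hbij.sum_comp (fun x : F => x)]
      have h3 := FiniteField.sum_pow_lt_card_sub_one F 1 (by omega)
      simpa using h3

omit [Fintype F] in
/-- at most one zero in a row -/
theorem zero_unique_row {M : Matrix ι ι F} (hM : TwoReg M) (h1 : 1 < Fintype.card ι) {i j j' : ι}
    (h : M i j = 0) (h' : M i j' = 0) : j = j' := by
  by_contra hne
  obtain ⟨k, hk⟩ := Fintype.exists_ne_of_one_lt_card h1 i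
  apply hM i k (Ne.symm hk) j j' hne
  rw [h, h']
  ring

omit [Fintype F] in
/-- at most one zero in a column -/
theorem zero_unique_col {M : Matrix ι ι F} (hM : TwoReg M) (h1 : 1 < Fintype.card ι) {i i' j : ι}
    (h : M i j = 0) (h' : M i' j = 0) : i = i' :=
  zero_unique_row (M := Mᵀ) hM.transpose h1 (i := j) h h'

/-- every column contains a zero -/
theorem exists_zero_col {M : Matrix ι ι F} (hM : IsAONT M)
    (hι : Fintype.card ι = Fintype.card F) (hq : 2 < Fintype.card F) (j : ι) :
    ∃ i, M i j = 0 := by
  have h := exists_zero_row (M := Mᵀ) ⟨by rw [det_transpose]; exact hM.1, hM.2.transpose⟩ hι hq j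
  exact h

/-- `d = 0` (ExtensionBarrier) -/
theorem not_extends_univ (hF : ¬ (Fintype.card F).Prime) {M : Matrix ι ι F} (hM : IsAONT M)
    (hι : Fintype.card ι = Fintype.card F) (v : ι → F) : ¬ Extends M univ v := by
  classical
  intro hE
  obtain ⟨-, -, -, -, hq, -⟩ := card_facts hF
  have hX : TwoReg (Matrix.of fun (a : ι) (o : Option ι) => o.elim (v a) (M a)) := by
    intro a b hab o o' hoo
    rcases o with _ | j <;> rcases o' with _ | j'
    · exact absurd rfl hoo
    · intro h0
      simp only [of_apply, Option.elim_none, Option.elim_some] at h0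
      refine hE a (mem_univ a) b (mem_univ b) hab j' ?_
      linear_combination -h0
    · intro h0
      simp only [of_apply, Option.elim_none, Option.elim_some] at h0
      refine hE a (mem_univ a) b (mem_univ b) hab j ?_
      linear_combination h0
    · intro h0
      simp only [of_apply, Option.elim_some] at h0
      exact hM.2 a b hab j j' (fun h => hoo (by rw [h])) h0
  have h1 := rank_le hX (by rw [Fintype.card_option, hι]) (by omega) hF
  have h2 := rank_submatrix_le (Matrix.of fun (a : ι) (o : Option ι) => o.elim (v a) (M a)) id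
    (fun j : ι => some j)
  have h3 : (Matrix.of fun (a : ι) (o : Option ι) => o.elim (v a) (M a)).submatrix id
      (fun j : ι => some j) = M := by
    ext a j
    simp
  rw [h3] at h2
  have h4 : M.rank = Fintype.card ι := rank_of_det_ne_zero hM.1
  omega

/-- `d = 1`: all rows but `x` can be extended by `v`, and the zero of the row `x` can be replaced by
`c ≠ 0`; impossible (ExtensionBarrier: the new `q × (q + 1)` matrix has the entry `0` in row `x` and
the new column) -/
theorem not_special (hF : ¬ (Fintype.card F).Prime) {M : Matrix ι ι F} (hM : IsAONT M)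
    (hι : Fintype.card ι = Fintype.card F) (x : ι) (v : ι → F)
    (hE : Extends M (univ.erase x) v) (i : ι) (hi : M x i = 0) (c : F) (hc : c ≠ 0)
    (h : ∀ a, a ≠ x → ∀ j, j ≠ i → M a i * M x j ≠ M a j * c) : False := by
  classical
  obtain ⟨-, -, -, -, hq, -⟩ := card_facts hF
  have hv : ∀ b, b ≠ x → v b ≠ 0 := by
    intro b hb hv0
    obtain ⟨j, hj⟩ := exists_zero_row hM hι (by omega) b
    obtain ⟨a, ha⟩ : ∃ a, a ∉ ({b, x} : Finset ι) := by
      by_contra hno
      push Not at hno
      have h1 : (univ : Finset ι) ⊆ {b, x} := fun a _ => hno a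
      have h2 := card_le_card h1
      have h3 := card_le_two (a := b) (b := x)
      rw [card_univ] at h2
      omega
    rw [mem_insert, mem_singleton, not_or] at ha
    refine hE a (mem_erase.2 ⟨ha.2, mem_univ a⟩) b (mem_erase.2 ⟨hb, mem_univ b⟩) ha.1 j ?_
    rw [hj, hv0]
    ring
  obtain ⟨X, hXdef⟩ : ∃ X : Matrix ι (Option ι) F, X = Matrix.of fun (a : ι) (o : Option ι) =>
      o.elim (if a = x then 0 else v a) (fun j => if a = x ∧ j = i then c else M a j) := ⟨_, rfl⟩
  have hXn : ∀ a, X a none = if a = x then 0 else v a := by
    intro a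
    rw [hXdef]
    rfl
  have hXs : ∀ a j, X a (some j) = if a = x ∧ j = i then c else M a j := by
    intro a j
    rw [hXdef]
    rfl
  have hXx : ∀ j, X x (some j) ≠ 0 := by
    intro j
    rw [hXs]
    by_cases hj : j = i
    · rw [if_pos ⟨rfl, hj⟩]
      exact hc
    · rw [if_neg (fun h => hj h.2)]
      intro h0
      exact hj (zero_unique_row hM.2 (by omega) h0 hi)
  have key1 : ∀ a b, a ≠ b → ∀ j, X a none * X b (some j) - X a (some j) * X b none ≠ 0 := by
    intro a b hab j h0
    by_cases ha : a = x
    · subst ha
      rw [hXn a, if_pos rfl, hXn b, if_neg (Ne.symm hab)] at h0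
      have h1 : X a (some j) * v b = 0 := by linear_combination -h0
      exact (mul_ne_zero (hXx j) (hv b (Ne.symm hab))) h1
    · by_cases hb : b = x
      · subst hb
        rw [hXn a, if_neg ha, hXn b, if_pos rfl] at h0
        have h1 : v a * X b (some j) = 0 := by linear_combination h0
        exact (mul_ne_zero (hv a ha) (hXx j)) h1
      · rw [hXn, if_neg ha, hXn, if_neg hb, hXs, if_neg (fun h => hb h.1), hXs,
          if_neg (fun h => ha h.1)] at h0
        refine hE a (mem_erase.2 ⟨ha, mem_univ a⟩) b (mem_erase.2 ⟨hb, mem_univ b⟩) hab j ?_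
        linear_combination -h0
  have key2 : ∀ b, x ≠ b → ∀ j j', j ≠ j' →
      X x (some j) * X b (some j') - X x (some j') * X b (some j) ≠ 0 := by
    intro b hb j j' hjj h0
    rw [hXs b j, if_neg (fun h => hb h.1.symm), hXs b j', if_neg (fun h => hb h.1.symm)] at h0
    by_cases hj : j = i
    · subst hj
      have hj' : j' ≠ j := Ne.symm hjj
      rw [hXs, if_pos ⟨rfl, rfl⟩, hXs, if_neg (fun h => hj' h.2)] at h0
      refine h b (Ne.symm hb) j' hj' ?_
      linear_combination -h0
    · by_cases hj' : j' = i
      · subst hj'
        rw [hXs, if_neg (fun h => hj h.2), hXs, if_pos ⟨rfl, rfl⟩] at h0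
        refine h b (Ne.symm hb) j hj ?_
        linear_combination h0
      · rw [hXs, if_neg (fun h => hj h.2), hXs, if_neg (fun h => hj' h.2)] at h0
        exact hM.2 x b hb j j' hjj h0
  have hX : TwoReg X := by
    intro a b hab o o' hoo
    rcases o with _ | j <;> rcases o' with _ | j'
    · exact absurd rfl hoo
    · exact key1 a b hab j'
    · intro h0
      apply key1 a b hab j
      linear_combination -h0
    · have hjj : j ≠ j' := fun h => hoo (by rw [h])
      by_cases ha : a = x
      · subst ha
        exact key2 b hab j j' hjj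
      · by_cases hb : b = x
        · subst hb
          intro h0
          apply key2 a (Ne.symm hab) j j' hjj
          linear_combination -h0
        · have e1 : ∀ j, X a (some j) = M a j := fun j => by rw [hXs, if_neg (fun h => ha h.1)]
          have e2 : ∀ j, X b (some j) = M b j := fun j => by rw [hXs, if_neg (fun h => hb h.1)]
          rw [e1, e1, e2, e2]
          exact hM.2 a b hab j j' hjj
  have h1 := rank_le hX (by rw [Fintype.card_option, hι]) (by omega) hF
  have h2 := rank_submatrix_le X id (fun j : ι => some j)
  have h3 := rank_sub_ge M (X.submatrix id (fun j : ι => some j))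
  have h4 : M.rank = Fintype.card ι := rank_of_det_ne_zero hM.1
  have h5 : M - X.submatrix id (fun j : ι => some j) =
      vecMulVec (Pi.single x (1 : F)) (Pi.single i (M x i - c)) := by
    ext k l
    rw [vecMulVec_apply, Matrix.sub_apply, submatrix_apply, id, hXs]
    by_cases hk : k = x
    · subst hk
      by_cases hl : l = i
      · subst hl
        simp
      · rw [if_neg (fun h => hl h.2)]
        simp [hl]
    · rw [if_neg (fun h => hk h.1)]
      simp [hk]
  rw [h5] at h3
  have h6 := rank_vecMulVec_le (Pi.single x (1 : F)) (Pi.single i (M x i - c))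
  omega

end Pool.MP_0af767_co
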