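import Pool.Agent.Lib.MP_0af767_co.CohNet

/-!
# MP_0af767_co: at most `q - d` rows of an AONT extend by one column, `2 d³ + d² + 2 d ≥ q`
-/

set_option autoImplicit false

namespace Pool.MP_0af767_co

open Finset Matrix Net

variable {F : Type*} [Field F] {ι : Type*}
variable [Fintype F] [DecidableEq F] [Fintype ι] [DecidableEq ι]

/-- `d ≥ 2`, no line is completed in the new column: impossible -/
theorem no_two {M : Matrix ι ι F} (hM : IsAONT M) (hι : Fintype.card ι = Fintype.card F)
    {v : ι → F} {K : Finset ι} (hE : Extends M K v) (hK : 2 ≤ K.card) {d : ℕ}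
    (hd : K.card + d = Fintype.card F) (hd2 : 2 ≤ d) (hq : d ^ 2 < Fintype.card F)
    {a₀ j₀ : ι} (ha₀ : a₀ ∈ K) (hj₀ : M a₀ j₀ = 0) (R : Finset (Pt ι F))
    (hyR : some (some j₀, 1) ∈ R) (hRc : R.card = Fintype.card F)
    (hR : ∀ u ∈ R, ∀ w ∈ R, u ≠ w → Far (lab M v K) u w)
    (hinf : ∀ g : Fˣ, Far (lab M v K) (some (none, g)) (some (some j₀, 1)) →
      some (none, g) ∈ R) : False := by
  classical
  have h2F : 2 < Fintype.card F := by
    have : 2 ^ 2 ≤ d ^ 2 := Nat.pow_le_pow_left hd2 2
    omega
  have h1ι : 1 < Fintype.card ι := by omega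
  have hv : ∀ a ∈ K, v a ≠ 0 := fun a ha => new_ne hM hι h2F hE hK ha
  have hN := isNet hM.2 hι hE hK
  have hKc : Fintype.card K = K.card := Fintype.card_coe K
  -- the units `g` with `(none, g)` far from the base point
  set B : Finset F := (K.erase a₀).image fun a => M a j₀ / v a with hB
  set S : Finset Fˣ := univ.filter fun g : Fˣ => (g : F) ∉ B with hS
  have hBc : B.card + 1 ≤ K.card := by
    have h1 : B.card ≤ (K.erase a₀).card := card_image_le
    rw [card_erase_of_mem ha₀] at h1
    have : 0 < K.card := by omega
    omega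
  have hSc : 2 ≤ S.card := by
    have h1 : (univ.filter fun g : Fˣ => (g : F) ∈ B).card ≤ B.card := by
      rw [← card_image_of_injective _ Units.val_injective]
      refine card_le_card ?_
      intro x hx
      rw [mem_image] at hx
      obtain ⟨g, hg, rfl⟩ := hx
      exact (mem_filter.1 hg).2
    have h2 := card_filter_add_card_filter_not (s := (univ : Finset Fˣ))
      (p := fun g : Fˣ => (g : F) ∈ B)
    rw [card_univ, Fintype.card_units] at h2
    have h3 : (univ.filter fun g : Fˣ => ¬ (g : F) ∈ B).card = S.card := rfl
    omega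
  have hSR : ∀ g ∈ S, some (none, g) ∈ R := by
    intro g hg
    apply hinf
    intro a h
    rw [lab_some, lab_some] at h
    simp only [ent, Units.val_one, mul_one] at h
    by_cases ha : (a : ι) = a₀
    · rw [ha, hj₀] at h
      exact mul_ne_zero (hv a₀ ha₀) g.ne_zero h
    · rw [hS, mem_filter] at hg
      apply hg.2
      rw [hB, mem_image]
      refine ⟨a, mem_erase.2 ⟨ha, a.2⟩, ?_⟩
      rw [div_eq_iff (hv a a.2), ← h]
      ring
  obtain ⟨g, hg, g', hg', hgg⟩ := one_lt_card.1 (by omega : 1 < S.card)
  set u : Pt ι F := some (none, g) with hu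
  set u' : Pt ι F := some (none, g') with hu'
  have huu : u ≠ u' := by
    intro h
    rw [hu, hu', Option.some.injEq, Prod.mk.injEq] at h
    exact hgg h.2
  have huR : u ∈ R := hSR g hg
  have huR' : u' ∈ R := hSR g' hg'
  have hfar : Far (lab M v K) u u' := hR u huR u' huR' huu
  -- the clique of the new column
  set C : Finset (Pt ι F) := insert none (univ.image fun h : Fˣ => (some (none, h) : Pt ι F)) with hC
  have hCc : C.card = Fintype.card F := by
    rw [hC, card_insert_of_notMem (by simp), card_image_of_injective, card_univ,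
      Fintype.card_units]
    · omega
    · intro h h' e
      rw [Option.some.injEq, Prod.mk.injEq] at e
      exact e.2
  have huC : u ∈ C := by
    rw [hC, mem_insert, mem_image]
    exact Or.inr ⟨g, mem_univ _, rfl⟩
  have huC' : u' ∈ C := by
    rw [hC, mem_insert, mem_image]
    exact Or.inr ⟨g', mem_univ _, rfl⟩
  have hCf : ∀ w ∈ C, ∀ h : Fˣ, w ≠ some (none, h) → Far (lab M v K) w (some (none, h)) := by
    intro w hw h hne a e
    rw [hC, mem_insert, mem_image] at hw
    rcases hw with rfl | ⟨k, _, rfl⟩
    · rw [lab_none, lab_some] at e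
      exact mul_ne_zero (hv a a.2) h.ne_zero e.symm
    · rw [lab_some, lab_some] at e
      apply hne
      have := mul_left_cancel₀ (hv a a.2) e
      rw [Units.ext this]
  -- `R` has a point in the zero column of every row of `K`
  have hpt : ∀ a : K, ∃ z ∈ R, lab M v K z a = 0 ∧ z ∉ C := by
    intro a
    have h1 : (R.image fun z => lab M v K z a).card = R.card := by
      refine card_image_of_injOn ?_
      intro z hz w hw e
      by_contra hne
      exact hR z hz w hw hne a e
    rw [hRc] at h1
    have h2 : (R.image fun z => lab M v K z a) = univ := eq_univ_of_card _ h1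
    have h3 : (0 : F) ∈ R.image fun z => lab M v K z a := by
      rw [h2]
      exact mem_univ _
    rw [mem_image] at h3
    obtain ⟨z, hz, hz0⟩ := h3
    refine ⟨z, hz, hz0, ?_⟩
    intro hzC
    rw [hC, mem_insert, mem_image] at hzC
    rcases hzC with rfl | ⟨k, _, rfl⟩
    · have h4 := hR _ hz _ hyR (by simp) ⟨a₀, ha₀⟩
      rw [lab_none, lab_some] at h4
      simp [ent, hj₀] at h4
    · rw [lab_some] at hz0
      exact mul_ne_zero (hv a a.2) k.ne_zero hz0
  choose z hzR hz0 hzC using hpt
  have hzinj : Function.Injective z := by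
    intro a b hab
    by_contra hne
    have hne' : (a : ι) ≠ b := fun e => hne (Subtype.ext e)
    have h1 := hz0 a
    have h2 := hz0 b
    rw [← hab] at h2
    have h3 := hzC a
    generalize z a = w at h1 h2 h3
    rcases w with _ | ⟨j, k⟩
    · exact h3 (mem_insert_self _ _)
    · rw [lab_some] at h1 h2
      exact ent_zero hM.2 hE a.2 b.2 hne' ((mul_eq_zero.1 h1).resolve_right k.ne_zero)
        ((mul_eq_zero.1 h2).resolve_right k.ne_zero)
  have hbig : Fintype.card F + K.card ≤ (R ∪ C).card := by
    have h1 : C ∪ univ.image z ⊆ R ∪ C := by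
      intro w hw
      rw [mem_union, mem_image] at hw
      rw [mem_union]
      rcases hw with hw | ⟨a, _, rfl⟩
      · exact Or.inr hw
      · exact Or.inl (hzR a)
    have h2 : (C ∪ univ.image z).card = Fintype.card F + K.card := by
      rw [card_union_of_disjoint, hCc, card_image_of_injective _ hzinj, card_univ, hKc]
      rw [disjoint_left]
      intro w hw hw'
      rw [mem_image] at hw'
      obtain ⟨a, _, rfl⟩ := hw'
      exact hzC a hw
    rw [← h2]
    exact card_le_card h1
  have hcom := com_far hN (by rw [hKc]; exact hd) hfar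
  have hsub : ((R ∪ C).erase u).erase u' ⊆
      univ.filter fun w => Far (lab M v K) w u ∧ Far (lab M v K) w u' := by
    intro w hw
    rw [mem_erase, mem_erase, mem_union] at hw
    rw [mem_filter]
    refine ⟨mem_univ _, ?_, ?_⟩
    · rcases hw.2.2 with h | h
      · exact hR w h u huR hw.2.1
      · exact hCf w h g hw.2.1
    · rcases hw.2.2 with h | h
      · exact hR w h u' huR' hw.1
      · exact hCf w h g' hw.1
  have h9 := card_le_card hsub
  rw [card_erase_of_mem (mem_erase.2 ⟨huu.symm, mem_union_left _ huR'⟩),
    card_erase_of_mem (mem_union_left _ huR)] at h9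
  omega

theorem main (hF : ¬ (Fintype.card F).Prime) {M : Matrix ι ι F} (hM : IsAONT M)
    (hι : Fintype.card ι = Fintype.card F) (d : ℕ) :
    ∀ (K : Finset ι) (v : ι → F), K.card + d = Fintype.card F →
      2 * d ^ 3 + d ^ 2 + 2 * d < Fintype.card F → ¬ Extends M K v := by
  classical
  induction d with
  | zero =>
    intro K v hK _ hE
    have h1 : K = univ := by
      rw [← card_eq_iff_eq_univ, hι]
      omega
    subst h1
    exact not_extends_univ hF hM hι v hE
  | succ d ih =>
    intro K v hK hq hE
    have hd3 : (d + 1) ≤ (d + 1) ^ 3 := Nat.le_self_pow (by norm_num) _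
    have hd2 : (d + 1) ≤ (d + 1) ^ 2 := Nat.le_self_pow (by norm_num) _
    have h2F : 2 < Fintype.card F := by omega
    have h1ι : 1 < Fintype.card ι := by omega
    have hK2 : 2 ≤ K.card := by omega
    have hN := isNet hM.2 hι hE hK2
    obtain ⟨a₀, ha₀⟩ : K.Nonempty := card_pos.1 (by omega)
    obtain ⟨j₀, hj₀⟩ := exists_zero_row hM hι h2F a₀
    have hne : ∀ x, x ∉ K → M x j₀ ≠ 0 := by
      intro x hx h
      exact hx (zero_unique_col hM.2 h1ι h hj₀ ▸ ha₀)
    have hKc : Fintype.card K + (d + 1) = Fintype.card F := by
      rw [Fintype.card_coe]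
      exact hK
    have hX : Fintype.card {x : ι // x ∉ K} = d + 1 := by
      rw [Fintype.card_subtype_compl, hι, Fintype.card_coe]
      omega
    obtain ⟨hcomp, R, hyR, hRc, hRf, hRe⟩ := complete hN hKc hq (some (some j₀, 1))
      hX (fun x => lin M x.1 j₀) (fun x => base_mem x.1 j₀)
      (fun x => by
        obtain ⟨z, hz⟩ := exists_zero_row hM hι h2F x.1
        exact card_lin hM.2 h1ι hι (hne x.1 x.2) hz)
      (fun x u hu w hw huw => lin_far hM.2 x.2 (hne x.1 x.2) hu hw huw)
      (fun x x' hxx u hu hu' =>
        lin_meet hM.2 (fun e => hxx (Subtype.ext e)) (hne x.1 x.2) hu hu')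
    -- no line is completed in the new column
    have hinf : ∀ x, x ∉ K → ∀ g : Fˣ,
        ¬ ∀ u ∈ lin M x j₀, Far (lab M v K) u (some (none, g)) := by
      intro x hx g hw
      refine ih (insert x K) _ ?_ ?_ (extends_insert hM.2 h1ι hE hx (hne x hx) hw)
      · rw [card_insert_of_notMem hx]
        omega
      · have h3 : d ^ 3 ≤ (d + 1) ^ 3 := Nat.pow_le_pow_left (by omega) 3
        have h2 : d ^ 2 ≤ (d + 1) ^ 2 := Nat.pow_le_pow_left (by omega) 2
        omega
    rcases Nat.eq_zero_or_pos d with rfl | hdpos
    · -- `d = 1`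
      obtain ⟨x, hx⟩ : ∃ x, x ∉ K := by
        by_contra hall
        push Not at hall
        have h1 : K = univ := eq_univ_iff_forall.2 hall
        rw [h1, card_univ, hι] at hK
        omega
      obtain ⟨w, hwL, hwf⟩ := hcomp ⟨x, hx⟩
      have hy := hwf _ (base_mem x j₀)
      have hKx : ∀ a, a ≠ x → a ∈ K := by
        intro a ha
        by_contra haK
        have h1 : ({a, x} : Finset ι) ⊆ Kᶜ := by
          intro b hb
          rw [mem_insert, mem_singleton] at hb
          rw [mem_compl]
          rcases hb with rfl | rfl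
          · exact haK
          · exact hx
        have h2 := card_le_card h1
        rw [card_pair ha, card_compl, hι] at h2
        omega
      have hKe : K = univ.erase x := by
        ext a
        rw [mem_erase]
        constructor
        · intro ha
          exact ⟨fun e => hx (e ▸ ha), mem_univ _⟩
        · intro ha
          exact hKx a ha.1
      rcases w with _ | ⟨i, g⟩
      · have h4 := hy ⟨a₀, ha₀⟩
        rw [lab_none, lab_some] at h4
        simp [ent, hj₀] at h4
      rcases i with _ | i
      · exact hinf x hx g hwf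
      -- the point of the line in a column `j`
      have hpt : ∀ a ∈ K, ∀ j, M x j ≠ 0 → M a j * (M x j₀ / M x j) ≠ M a i * g := by
        intro a ha j hj h
        have h2 : some (some j, Units.mk0 (M x j₀ / M x j) (div_ne_zero (hne x hx) hj)) ∈
            lin M x j₀ := by
          rw [mem_lin]
          refine ⟨j, _, rfl, ?_⟩
          rw [Units.val_mk0]
          field_simp
        apply hwf _ h2 ⟨a, ha⟩
        rw [lab_some, lab_some, Units.val_mk0]
        simp only [ent]
        exact h
      have hi : M x i = 0 := by
        obtain ⟨a, ha⟩ := exists_zero_col hM hι h2F i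
        by_cases hax : a = x
        · rw [← hax]
          exact ha
        · exfalso
          have h5 : M x i ≠ 0 := fun h => hax (zero_unique_col hM.2 h1ι ha h)
          apply hpt a (hKx a hax) i h5
          rw [ha]
          ring
      refine not_special hF hM hι x v (hKe ▸ hE) i hi (M x j₀ / g)
        (div_ne_zero (hne x hx) g.ne_zero) ?_
      intro a hax j hji h
      have h5 : M x j ≠ 0 := fun h => hji (zero_unique_row hM.2 h1ι h hi)
      apply hpt a (hKx a hax) j h5
      have h6 := g.ne_zero
      field_simp at h ⊢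
      linear_combination -h
    · refine no_two hM hι hE hK2 hK (by omega) ?_ ha₀ hj₀ R hyR hRc hRf ?_
      · omega
      · intro g hg
        rcases hRe _ hg with h | ⟨x, h | h⟩
        · exact h
        · exfalso
          rw [mem_lin] at h
          obtain ⟨j, g', h', _⟩ := h
          rw [Option.some.injEq, Prod.mk.injEq] at h'
          exact absurd h'.1 (by simp)
        · exact absurd h (hinf x.1 x.2 g)

end Pool.MP_0af767_co
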