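import Pool.Agent.Lib.MP_0af767_co.Ext

/-!
# MP_0af767_co: matrices with zero diagonal, diagonally equivalent to their transpose

`N` is a `q × q` matrix over the field `F` with `q` elements, with zero diagonal, all `2 × 2` minors
non-zero, `N j i = c N i j`, `c = ±1`, and all products of the non-zero entries of a row equal.
For two rows `i ≠ k` the ratios `N i j / N k j`, `j ≠ i, k`, are all elements of `F` except
`0` and `-c`. If `c = -1` then `N N' = -J` for the matrix `N'` of the inverses, so `N` is singular. If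
`c = 1 ≠ -1` double counting shows that all rows contain the same elements, and every element occurs
`0` or `2` times, exactly one of `g`, `-g`. The signs `e_k = ±1` (`γ^k` occurs or not, `γ` a
generator) satisfy `e_{k+n} = -e_k`, `n = (q-1)/2`, and have vanishing autocorrelations. For
`n ≥ 3` the autocorrelation at `1` and the number of sign changes give `n ≡ 2 mod 4`, the three term
identity gives `4 ∣ n`.
-/

set_option autoImplicit false

namespace Pool.MP_0af767_co

open Finset Matrix

/-! ### Signs -/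

/-- periodic sums -/
theorem sum_half {n : ℕ} (f : ℕ → ℤ) (hf : ∀ k, f (k + n) = f k) :
    ∑ k ∈ range (2 * n), f k = 2 * ∑ k ∈ range n, f k := by
  have h1 : 2 * n = n + n := by ring
  rw [h1, sum_range_add, two_mul]
  congr 1
  refine sum_congr rfl fun k _ => ?_
  rw [add_comm, hf]

theorem prod_signs {e : ℕ → ℤ} (he : ∀ k, e k = 1 ∨ e k = -1) (n : ℕ) :
    ∏ k ∈ range n, (e k * e (k + 1)) = e 0 * e n := by
  induction n with
  | zero =>
    rcases he 0 with h | h <;> simp [h]
  | succ n ih =>
    rw [prod_range_succ, ih]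
    rcases he n with h | h <;> simp [h]

/-- a sum and a product of signs -/
theorem sum_prod_signs {s : ℕ → ℤ} (hs : ∀ k, s k = 1 ∨ s k = -1) (n : ℕ) :
    ∃ c : ℕ, ∑ k ∈ range n, s k = n - 2 * c ∧ ∏ k ∈ range n, s k = (-1) ^ c := by
  induction n with
  | zero => exact ⟨0, by simp, by simp⟩
  | succ n ih =>
    obtain ⟨c, h1, h2⟩ := ih
    rcases hs n with h | h
    · refine ⟨c, ?_, ?_⟩
      · rw [sum_range_succ, h1, h]
        push_cast
        ring
      · rw [prod_range_succ, h2, h, mul_one]
    · refine ⟨c + 1, ?_, ?_⟩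
      · rw [sum_range_succ, h1, h]
        push_cast
        ring
      · rw [prod_range_succ, h2, h, pow_succ]

/-- no negaperiodic perfect sequence of half period `n ≥ 3` (only two autocorrelations are used) -/
theorem no_signs {n : ℕ} {e : ℕ → ℤ} (he : ∀ k, e k = 1 ∨ e k = -1)
    (hn : ∀ k, e (k + n) = -e k) (h1 : ∑ k ∈ range (2 * n), e k * e (k + 1) = 0)
    (h2 : ∑ k ∈ range (2 * n), e k * e (k + 2) = 0) : False := by
  have e1 : ∑ k ∈ range n, e k * e (k + 1) = 0 := by
    have h3 := sum_half (n := n) (fun k => e k * e (k + 1)) (fun k => by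
      have h4 := hn k
      have h5 := hn (k + 1)
      have h6 : k + n + 1 = k + 1 + n := by ring
      rw [h4, h6, h5]
      ring)
    rw [h1] at h3
    linarith
  have e2 : ∑ k ∈ range n, e k * e (k + 2) = 0 := by
    have h3 := sum_half (n := n) (fun k => e k * e (k + 2)) (fun k => by
      have h4 := hn k
      have h5 := hn (k + 2)
      have h6 : k + n + 2 = k + 2 + n := by ring
      rw [h4, h6, h5]
      ring)
    rw [h2] at h3
    linarith
  -- the shifted sum of neighbours
  have e3 : ∑ k ∈ range n, e (k + 1) * e (k + 2) = 0 := by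
    have h3 : ∑ k ∈ range n, e (k + 1) * e (k + 2) =
        ∑ k ∈ range n, e k * e (k + 1) + e n * e (n + 1) - e 0 * e 1 := by
      have h4 := sum_range_succ (fun k => e k * e (k + 1)) n
      have h5 := sum_range_succ' (fun k => e k * e (k + 1)) n
      have h6 : ∑ k ∈ range n, e (k + 1) * e (k + 1 + 1) =
        ∑ k ∈ range n, e (k + 1) * e (k + 2) := rfl
      rw [h6] at h5
      simp only [zero_add] at h5
      linarith
    have h4 : e n = -e 0 := by simpa using hn 0
    have h5 : e (n + 1) = -e 1 := by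
      have := hn 1
      rwa [add_comm] at this
    rw [h3, e1, h4, h5]
    ring
  -- 4 divides n
  have d4 : (4 : ℤ) ∣ n := by
    have h3 : ∑ k ∈ range n, (e k + e (k + 1)) * (e k + e (k + 2)) = n := by
      have h4 : ∀ k ∈ range n, (e k + e (k + 1)) * (e k + e (k + 2)) =
          1 + e k * e (k + 1) + e k * e (k + 2) + e (k + 1) * e (k + 2) := by
        intro k _
        have h5 : e k * e k = 1 := by
          rcases he k with h | h <;> rw [h] <;> norm_num
        linear_combination h5
      rw [sum_congr rfl h4, sum_add_distrib, sum_add_distrib, sum_add_distrib, e1, e2, e3]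
      simp
    rw [← h3]
    refine dvd_sum fun k _ => ?_
    rcases he k with h | h <;> rcases he (k + 1) with h' | h' <;>
      rcases he (k + 2) with h'' | h'' <;> rw [h, h', h''] <;> norm_num
  obtain ⟨c, h3, h4⟩ := sum_prod_signs (s := fun k => e k * e (k + 1)) (fun k => by
    rcases he k with h | h <;> rcases he (k + 1) with h' | h' <;> simp [h, h']) n
  rw [e1] at h3
  rw [prod_signs he] at h4
  have h5 : e n = -e 0 := by simpa using hn 0
  have h6 : e 0 * e n = -1 := by
    rw [h5]
    rcases he 0 with h | h <;> rw [h] <;> norm_num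
  rw [h6] at h4
  have h7 : Odd c := by
    by_contra hc
    rw [Nat.not_odd_iff_even] at hc
    rw [hc.neg_one_pow] at h4
    norm_num at h4
  obtain ⟨r, hr⟩ := h7
  omega

/-! ### The matrices -/

variable {F : Type*} [Field F] [Fintype F] [DecidableEq F]
variable {ι : Type*} [Fintype ι] [DecidableEq ι]

/-- the normalised matrices -/
structure Hol (N : Matrix ι ι F) (c : F) : Prop where
  zero : ∀ i, N i i = 0
  two : TwoReg N
  sym : ∀ i j, N j i = c * N i j
  sq : c * c = 1
  prod : ∀ i k, ∏ j ∈ univ.erase i, N i j = ∏ j ∈ univ.erase k, N k j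
  card : Fintype.card ι = Fintype.card F
  three : 2 < Fintype.card F

theorem off_ne {N : Matrix ι ι F} (h0 : ∀ i, N i i = 0) (h2 : TwoReg N) {i j : ι} (h : i ≠ j) :
    N i j ≠ 0 := by
  intro h1
  have h3 := h2 i j h j i h.symm
  rw [h1, h0 i, h0 j] at h3
  simp at h3

theorem Hol.nz {N : Matrix ι ι F} {c : F} (h : Hol N c) {i j : ι} (hij : i ≠ j) : N i j ≠ 0 :=
  off_ne h.zero h.two hij

theorem Hol.ne_iff {N : Matrix ι ι F} {c : F} (h : Hol N c) {i j : ι} : N i j ≠ 0 ↔ i ≠ j :=
  ⟨fun h1 h2 => h1 (h2 ▸ h.zero i), h.nz⟩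

/-- the non-zero ratios of two rows -/
theorem Hol.inj {N : Matrix ι ι F} {c : F} (h : Hol N c) {i k j j' : ι} (hik : i ≠ k)
    (hj : N k j ≠ 0) (hj' : N k j' ≠ 0) (he : N i j / N k j = N i j' / N k j') : j = j' := by
  by_contra hne
  rw [div_eq_div_iff hj hj'] at he
  exact h.two i k hik j j' hne (sub_eq_zero.2 he)

/-- Wilson's theorem for `F` -/
theorem prod_nonzero : ∏ x ∈ univ.erase (0 : F), x = -1 := by
  have h4 := FiniteField.prod_univ_units_id_eq_neg_one (K := F)
  have h5 : ((∏ x : Fˣ, x : Fˣ) : F) = -1 := by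
    rw [h4]
    simp
  rw [← h5, Units.coe_prod]
  symm
  refine prod_bij (fun (u : Fˣ) _ => (u : F)) ?_ ?_ ?_ ?_
  · intro u _
    exact mem_erase.2 ⟨u.ne_zero, mem_univ _⟩
  · intro u _ v _ huv
    exact Units.ext huv
  · intro x hx
    exact ⟨Units.mk0 x (mem_erase.1 hx).1, mem_univ _, rfl⟩
  · intro u _
    rfl

theorem Hol.image {N : Matrix ι ι F} {c : F} (h : Hol N c) {i k : ι} (hik : i ≠ k) :
    ((univ.erase i).erase k).image (fun j => N i j / N k j) = (univ.erase (0 : F)).erase (-c) := by
  set S := (univ.erase i).erase k with hS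
  have hSm : ∀ j ∈ S, j ≠ i ∧ j ≠ k := by
    intro j hj
    rw [hS, mem_erase, mem_erase] at hj
    exact ⟨hj.2.1, hj.1⟩
  have hinj : Set.InjOn (fun j => N i j / N k j) (S : Set ι) := by
    intro j hj j' hj' he
    exact h.inj hik (h.nz (hSm j hj).2.symm) (h.nz (hSm j' hj').2.symm) he
  have hsub : S.image (fun j => N i j / N k j) ⊆ univ.erase (0 : F) := by
    intro x hx
    rw [mem_image] at hx
    obtain ⟨j, hj, rfl⟩ := hx
    rw [mem_erase]
    exact ⟨div_ne_zero (h.nz (hSm j hj).1.symm) (h.nz (hSm j hj).2.symm), mem_univ _⟩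
  have hk1 : k ∈ univ.erase i := mem_erase.2 ⟨hik.symm, mem_univ _⟩
  have hScard : S.card = Fintype.card F - 2 := by
    rw [hS, card_erase_of_mem hk1, card_erase_of_mem (mem_univ _), card_univ, h.card]
    omega
  have hcard2 : (univ.erase (0 : F)).card = Fintype.card F - 1 := by
    rw [card_erase_of_mem (mem_univ _), card_univ]
  have h3 := h.three
  have hsd : ((univ.erase (0 : F)) \ S.image (fun j => N i j / N k j)).card = 1 := by
    rw [card_sdiff_of_subset hsub, hcard2, card_image_of_injOn hinj, hScard]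
    omega
  obtain ⟨d, hd⟩ := card_eq_one.1 hsd
  have hdm : d ∈ (univ.erase (0 : F)) \ S.image (fun j => N i j / N k j) := by
    rw [hd]
    exact mem_singleton_self _
  rw [mem_sdiff] at hdm
  have hins : univ.erase (0 : F) = insert d (S.image (fun j => N i j / N k j)) := by
    rw [← sdiff_union_of_subset hsub, hd]
    rfl
  -- products
  have hprodT : ∏ x ∈ univ.erase (0 : F), x = -1 := prod_nonzero
  have hprodS : ∏ j ∈ S, (N i j / N k j) = c := by
    rw [prod_div_distrib]
    have e1 : N i k * ∏ j ∈ S, N i j = ∏ j ∈ univ.erase i, N i j :=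
      mul_prod_erase (univ.erase i) (fun j => N i j) hk1
    have hi1 : i ∈ univ.erase k := mem_erase.2 ⟨hik, mem_univ _⟩
    have hS2 : S = (univ.erase k).erase i := by
      rw [hS, erase_right_comm]
    have e2 : N k i * ∏ j ∈ S, N k j = ∏ j ∈ univ.erase k, N k j := by
      rw [hS2]
      exact mul_prod_erase (univ.erase k) (fun j => N k j) hi1
    rw [h.prod i k, ← e2, h.sym i k] at e1
    have hne : ∏ j ∈ S, N k j ≠ 0 :=
      prod_ne_zero_iff.2 fun j hj => h.nz (hSm j hj).2.symm
    rw [div_eq_iff hne]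
    have h6 := h.nz hik
    have h7 : N i k * ∏ j ∈ S, N i j = N i k * (c * ∏ j ∈ S, N k j) := by
      rw [e1]
      ring
    exact mul_left_cancel₀ h6 h7
  have hdc : d = -c := by
    rw [hins, prod_insert hdm.2, prod_image hinj, hprodS] at hprodT
    have hc := h.sq
    linear_combination c * hprodT - d * hc
  rw [hins, hdc, erase_insert (hdc ▸ hdm.2)]

/-! ### The case `c = -1` -/

theorem sum_nonzero (h3 : 2 < Fintype.card F) : ∑ x ∈ univ.erase (0 : F), x = 0 := by
  have h1 : ∑ x : F, x = 0 := by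
    have h2 := FiniteField.sum_pow_lt_card_sub_one F 1 (by omega)
    simpa using h2
  have h4 := add_sum_erase univ (fun x : F => x) (mem_univ 0)
  simp only [zero_add] at h4
  rw [h4, h1]

theorem Hol.row {N : Matrix ι ι F} {c : F} (h : Hol N c) {i k : ι} (hik : i ≠ k) :
    ∑ j, N i j * (N k j)⁻¹ = c := by
  have hc0 : -c ≠ 0 := by
    intro h0
    have h1 := h.sq
    rw [neg_eq_zero] at h0
    rw [h0] at h1
    simp at h1
  have hk1 : k ∈ univ.erase i := mem_erase.2 ⟨hik.symm, mem_univ _⟩
  rw [← add_sum_erase univ _ (mem_univ i), h.zero i, zero_mul, zero_add,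
    ← add_sum_erase (univ.erase i) _ hk1, h.zero k, _root_.inv_zero, mul_zero, zero_add]
  have h1 : ∑ j ∈ (univ.erase i).erase k, N i j * (N k j)⁻¹ =
      ∑ x ∈ ((univ.erase i).erase k).image (fun j => N i j / N k j), x := by
    rw [sum_image]
    · refine sum_congr rfl fun j _ => ?_
      rw [div_eq_mul_inv]
    · intro j hj j' hj' he
      have hj1 := mem_erase.1 hj
      have hj2 := mem_erase.1 hj'
      exact h.inj hik (h.nz hj1.1.symm) (h.nz hj2.1.symm) he
  rw [h1, h.image hik]
  have h2 := add_sum_erase (univ.erase (0 : F)) (fun x : F => x)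
    (mem_erase.2 ⟨hc0, mem_univ _⟩ : -c ∈ univ.erase (0 : F))
  rw [sum_nonzero h.three] at h2
  linear_combination h2

theorem Hol.row_self {N : Matrix ι ι F} {c : F} (h : Hol N c) (i : ι) :
    ∑ j, N i j * (N i j)⁻¹ = -1 := by
  rw [← add_sum_erase univ _ (mem_univ i), h.zero i, zero_mul, zero_add]
  have h1 : ∀ j ∈ univ.erase i, N i j * (N i j)⁻¹ = 1 := by
    intro j hj
    exact mul_inv_cancel₀ (h.nz (mem_erase.1 hj).1.symm)
  rw [sum_congr rfl h1, sum_const, card_erase_of_mem (mem_univ _), card_univ, h.card,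
    nsmul_eq_mul, mul_one, Nat.cast_sub (by have := h.three; omega), FiniteField.cast_card_eq_zero]
  simp

theorem Hol.neg {N : Matrix ι ι F} (h : Hol N (-1)) : N.det = 0 := by
  by_contra hdet
  have h3 : 2 < Fintype.card ι := by
    rw [h.card]
    exact h.three
  obtain ⟨k, l, hkl⟩ := Fintype.exists_pair_of_one_lt_card (lt_trans one_lt_two h3)
  have hv : ∀ m, N *ᵥ (fun j => (N m j)⁻¹) = fun _ => -1 := by
    intro m
    funext i
    by_cases him : i = m
    · rw [him]
      exact h.row_self m
    · exact h.row him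
  have h4 : N *ᵥ ((fun j => (N k j)⁻¹) - fun j => (N l j)⁻¹) = 0 := by
    rw [mulVec_sub, hv k, hv l, sub_self]
  have h5 := eq_zero_of_mulVec_eq_zero hdet h4
  have h6 := congrFun h5 k
  simp only [Pi.sub_apply, Pi.zero_apply, h.zero k, _root_.inv_zero, zero_sub, neg_eq_zero,
    inv_eq_zero] at h6
  exact h.nz hkl.symm h6

/-! ### The case `c = 1`, odd characteristic -/

/-- the number of `j` with `N i j = x N k j ≠ 0` (for `x ≠ 0`) -/
def cnt (N : Matrix ι ι F) (i k : ι) (x : F) : ℕ :=
  (univ.filter fun j => N k j ≠ 0 ∧ N i j = x * N k j).card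

/-- the number of `j` with `N i j = x` -/
def occ (N : Matrix ι ι F) (i : ι) (x : F) : ℕ :=
  (univ.filter fun j => N i j = x).card

theorem Hol.cnt_self {N : Matrix ι ι F} {c : F} (h : Hol N c) (i : ι) (x : F) :
    cnt N i i x = if x = 1 then Fintype.card F - 1 else 0 := by
  unfold cnt
  split_ifs with hx
  · subst hx
    have h1 : (univ.filter fun j => N i j ≠ 0 ∧ N i j = 1 * N i j) = univ.erase i := by
      ext j
      simp only [mem_filter, mem_univ, true_and, mem_erase, and_true, one_mul]
      rw [h.ne_iff]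
      exact ne_comm
    rw [h1, card_erase_of_mem (mem_univ _), card_univ, h.card]
  · rw [card_eq_zero, filter_eq_empty_iff]
    rintro j _ ⟨h1, h2⟩
    exact hx (mul_right_cancel₀ h1 (by rw [← h2, one_mul])).symm

theorem Hol.cnt_ne {N : Matrix ι ι F} {c : F} (h : Hol N c) {i k : ι} (hik : i ≠ k) {x : F}
    (hx : x ≠ 0) : cnt N i k x = if x = -c then 0 else 1 := by
  have him := h.image hik
  unfold cnt
  split_ifs with hc
  · rw [card_eq_zero, filter_eq_empty_iff]
    rintro j _ ⟨h1, h2⟩
    have hjk : k ≠ j := h.ne_iff.1 h1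
    have hij : i ≠ j := h.ne_iff.1 (by rw [h2]; exact mul_ne_zero hx h1)
    have h3 : x ∈ (univ.erase (0 : F)).erase (-c) := by
      rw [← him, mem_image]
      refine ⟨j, ?_, ?_⟩
      · exact mem_erase.2 ⟨hjk.symm, mem_erase.2 ⟨hij.symm, mem_univ _⟩⟩
      · rw [h2, mul_div_cancel_right₀ _ h1]
    exact (mem_erase.1 h3).1 hc
  · have h3 : x ∈ (univ.erase (0 : F)).erase (-c) :=
      mem_erase.2 ⟨hc, mem_erase.2 ⟨hx, mem_univ _⟩⟩
    rw [← him, mem_image] at h3
    obtain ⟨j, hj, hjx⟩ := h3
    have hj1 := mem_erase.1 hj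
    have hj2 := mem_erase.1 hj1.2
    have hkj : N k j ≠ 0 := h.nz hj1.1.symm
    rw [card_eq_one]
    refine ⟨j, ?_⟩
    ext l
    simp only [mem_filter, mem_univ, true_and, mem_singleton]
    constructor
    · rintro ⟨h4, h5⟩
      refine h.inj hik h4 hkj ?_
      rw [hjx, h5, mul_div_cancel_right₀ _ h4]
    · rintro rfl
      refine ⟨hkj, ?_⟩
      rw [← hjx, div_mul_cancel₀ _ hkj]

/-- all rows have the same entries -/
theorem Hol.occ_eq {N : Matrix ι ι F} (h : Hol N 1) (i k : ι) {g : F} (hg : g ≠ 0) :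
    occ N i (-g) = occ N k (-g) := by
  by_cases hik : i = k
  · rw [hik]
  have hsym : ∀ a b, N b a = N a b := fun a b => by rw [h.sym a b, one_mul]
  -- both sums over one index
  have h1 : ∀ l, (univ.filter fun j => N l k ≠ 0 ∧ N l j ≠ 0 ∧ N i j * N l k = g * N l j).card =
      if l = k then 0 else cnt N i l (g / N l k) := by
    intro l
    split_ifs with hl
    · rw [card_eq_zero, filter_eq_empty_iff]
      rintro j _ ⟨h2, -, -⟩
      exact h2 (hl ▸ h.zero k)
    · have h3 : N l k ≠ 0 := h.nz hl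
      unfold cnt
      congr 1
      ext j
      simp only [mem_filter, mem_univ, true_and]
      constructor
      · rintro ⟨-, h4, h5⟩
        refine ⟨h4, ?_⟩
        field_simp
        exact h5
      · rintro ⟨h4, h5⟩
        refine ⟨h3, h4, ?_⟩
        rw [h5]
        field_simp
  have h2 : ∀ j, (univ.filter fun l => N l k ≠ 0 ∧ N l j ≠ 0 ∧ N i j * N l k = g * N l j).card =
      if j = i then 0 else cnt N j k (N i j / g) := by
    intro j
    split_ifs with hj
    · rw [card_eq_zero, filter_eq_empty_iff]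
      rintro l _ ⟨-, h4, h5⟩
      rw [hj, h.zero i, zero_mul] at h5
      rw [hj] at h4
      exact mul_ne_zero hg h4 h5.symm
    · have h3 : N i j ≠ 0 := h.nz (Ne.symm hj)
      unfold cnt
      congr 1
      ext l
      simp only [mem_filter, mem_univ, true_and]
      rw [hsym k l, hsym j l]
      constructor
      · rintro ⟨h4, -, h6⟩
        refine ⟨h4, ?_⟩
        field_simp
        linear_combination -h6
      · rintro ⟨h4, h5⟩
        refine ⟨h4, ?_, ?_⟩
        · rw [h5]
          exact mul_ne_zero (div_ne_zero h3 hg) h4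
        · rw [h5]
          field_simp
  have hT : ∑ l, (univ.filter fun j => N l k ≠ 0 ∧ N l j ≠ 0 ∧
      N i j * N l k = g * N l j).card = ∑ j, (univ.filter fun l => N l k ≠ 0 ∧ N l j ≠ 0 ∧
      N i j * N l k = g * N l j).card := by
    simp only [card_filter]
    exact sum_comm
  have hk' : occ N k (-g) = ∑ l, if N k l = -g then 1 else 0 := by
    unfold occ
    rw [card_filter]
  have hi' : occ N i (-g) = ∑ l, if N i l = -g then 1 else 0 := by
    unfold occ
    rw [card_filter]
  have hmain : ∑ l, ((if l = k then 0 else cnt N i l (g / N l k)) +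
      if N k l = -g then 1 else 0) = ∑ j, ((if j = i then 0 else cnt N j k (N i j / g)) +
      if N i j = -g then 1 else 0) := by
    rw [← Equiv.sum_comp (Equiv.swap i k)]
    refine sum_congr rfl fun j _ => ?_
    have hki : k ≠ i := fun e => hik e.symm
    have hng : (0 : F) ≠ -g := fun e => hg (neg_eq_zero.1 e.symm)
    by_cases hji : j = i
    · subst hji
      rw [Equiv.swap_apply_left]
      simp [h.zero, hng]
    · by_cases hjk : j = k
      · subst hjk
        have hne : N i j ≠ 0 := h.nz hik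
        rw [Equiv.swap_apply_right, if_neg hik, if_neg hji, h.cnt_self, h.cnt_self, hsym i j]
        congr 1
        have h5 : g / N i j = 1 ↔ N i j / g = 1 := by
          rw [div_eq_one_iff_eq hne, div_eq_one_iff_eq hg]
          exact eq_comm
        simp only [h5]
      · have hne : N i j ≠ 0 := h.nz (Ne.symm hji)
        have hne2 : N j k ≠ 0 := h.nz hjk
        rw [Equiv.swap_apply_of_ne_of_ne hji hjk, if_neg hjk, if_neg hji,
          h.cnt_ne (Ne.symm hji) (div_ne_zero hg hne2), h.cnt_ne hjk (div_ne_zero hne hg)]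
        have h5 : g / N j k = -1 ↔ N k j = -g := by
          rw [div_eq_iff hne2, hsym j k]
          constructor
          · intro h6
            rw [h6]
            ring
          · intro h6
            rw [h6]
            ring
        have h6 : N i j / g = -1 ↔ N i j = -g := by
          rw [div_eq_iff hg]
          constructor
          · intro h6
            rw [h6]
            ring
          · intro h6
            rw [h6]
            ring
        simp only [h5, h6]
        split_ifs <;> rfl
  rw [sum_add_distrib, sum_add_distrib, ← hk', ← hi', sum_congr rfl (fun l _ => (h1 l).symm),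
    sum_congr rfl (fun l _ => (h2 l).symm), hT] at hmain
  omega

theorem Hol.occ_eq' {N : Matrix ι ι F} (h : Hol N 1) (i k : ι) {g : F} (hg : g ≠ 0) :
    occ N i g = occ N k g := by
  have h1 := h.occ_eq i k (neg_ne_zero.2 hg)
  rwa [neg_neg] at h1

theorem Hol.corr {N : Matrix ι ι F} (h : Hol N 1) (i : ι) {t : F} (ht : t ≠ 0) :
    ∑ x ∈ univ.erase (0 : F), occ N i x * occ N i (t * x) =
      (if t = 1 then Fintype.card F - 1 else 0) +
        (Fintype.card F - 1) * (if t = -1 then 0 else 1) := by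
  have hsym : ∀ a b, N b a = N a b := fun a b => by rw [h.sym a b, one_mul]
  -- group the `j` by the value `N i j`
  have h1 : ∑ x ∈ univ.erase (0 : F), occ N i x * occ N i (t * x) =
      ∑ j ∈ univ.erase i, occ N i (t * N i j) := by
    have hmap : ∀ j ∈ univ.erase i, N i j ∈ univ.erase (0 : F) := by
      intro j hj
      exact mem_erase.2 ⟨h.nz (mem_erase.1 hj).1.symm, mem_univ _⟩
    rw [← sum_fiberwise_of_maps_to hmap]
    refine sum_congr rfl fun x hx => ?_
    have hx0 : x ≠ 0 := (mem_erase.1 hx).1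
    have h2 : (univ.erase i).filter (fun j => N i j = x) = univ.filter fun j => N i j = x := by
      ext j
      simp only [mem_filter, mem_erase, mem_univ, and_true, true_and, and_iff_right_iff_imp]
      rintro h3 rfl
      exact hx0 (h3 ▸ h.zero j)
    rw [h2]
    have h3 : ∀ j ∈ univ.filter (fun j => N i j = x), occ N i (t * N i j) = occ N i (t * x) := by
      intro j hj
      rw [(mem_filter.1 hj).2]
    rw [sum_congr rfl h3, sum_const, smul_eq_mul]
    rfl
  have h2 : ∑ j ∈ univ.erase i, occ N i (t * N i j) = ∑ k, cnt N k i t := by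
    have h3 : ∀ j ∈ univ.erase i, occ N i (t * N i j) =
        ∑ k, if N i j ≠ 0 ∧ N k j = t * N i j then 1 else 0 := by
      intro j hj
      have hn : N i j ≠ 0 := h.nz (mem_erase.1 hj).1.symm
      rw [h.occ_eq' i j (mul_ne_zero ht hn)]
      unfold occ
      rw [card_filter]
      refine sum_congr rfl fun k _ => ?_
      rw [hsym k j]
      simp [hn]
    rw [sum_congr rfl h3, sum_comm]
    refine sum_congr rfl fun k _ => ?_
    unfold cnt
    rw [card_filter, ← add_sum_erase univ _ (mem_univ i)]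
    simp [h.zero i]
  rw [h1, h2, ← add_sum_erase univ _ (mem_univ i), h.cnt_self]
  congr 1
  have h3 : ∀ k ∈ univ.erase i, cnt N k i t = if t = -1 then 0 else 1 := by
    intro k hk
    exact h.cnt_ne (mem_erase.1 hk).1 ht
  rw [sum_congr rfl h3, sum_const, card_erase_of_mem (mem_univ _), card_univ, h.card, smul_eq_mul]

theorem Hol.total {N : Matrix ι ι F} {c : F} (h : Hol N c) (i : ι) :
    ∑ x ∈ univ.erase (0 : F), occ N i x = Fintype.card F - 1 := by
  have hmap : ∀ j ∈ univ.erase i, N i j ∈ univ.erase (0 : F) := by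
    intro j hj
    exact mem_erase.2 ⟨h.nz (mem_erase.1 hj).1.symm, mem_univ _⟩
  have h1 := card_eq_sum_card_fiberwise hmap
  rw [card_erase_of_mem (mem_univ _), card_univ, h.card] at h1
  rw [h1]
  refine sum_congr rfl fun x hx => ?_
  have hx0 : x ≠ 0 := (mem_erase.1 hx).1
  unfold occ
  congr 1
  ext j
  simp only [mem_filter, mem_erase, mem_univ, and_true, true_and, iff_and_self]
  rintro h3 rfl
  exact hx0 (h3 ▸ h.zero j)

/-- the sign of `x` -/
def sgn (N : Matrix ι ι F) (i : ι) (x : F) : ℤ := (occ N i x : ℤ) - 1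

theorem sum_scale {f : F → ℤ} {t : F} (ht : t ≠ 0) :
    ∑ x ∈ univ.erase (0 : F), f (t * x) = ∑ x ∈ univ.erase (0 : F), f x := by
  refine sum_bij (fun x _ => t * x) ?_ ?_ ?_ ?_
  · intro x hx
    exact mem_erase.2 ⟨mul_ne_zero ht (mem_erase.1 hx).1, mem_univ _⟩
  · intro x _ y _ hxy
    exact mul_left_cancel₀ ht hxy
  · intro x hx
    exact ⟨t⁻¹ * x, mem_erase.2 ⟨mul_ne_zero (inv_ne_zero ht) (mem_erase.1 hx).1, mem_univ _⟩,
      mul_inv_cancel_left₀ ht x⟩
  · intro x _
    rfl

theorem Hol.corr' {N : Matrix ι ι F} (h : Hol N 1) (i : ι) {t : F} (ht : t ≠ 0) :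
    ∑ x ∈ univ.erase (0 : F), (occ N i x : ℤ) * (occ N i (t * x) : ℤ) =
      (if t = 1 then (Fintype.card F : ℤ) - 1 else 0) +
        ((Fintype.card F : ℤ) - 1) * (if t = -1 then 0 else 1) := by
  have h1 := congrArg (fun n : ℕ => (n : ℤ)) (h.corr i ht)
  have h3 := h.three
  have h4 : ((Fintype.card F - 1 : ℕ) : ℤ) = (Fintype.card F : ℤ) - 1 := by
    rw [Nat.cast_sub (by omega)]
    simp
  push_cast at h1
  rw [h1]
  split_ifs <;> simp [h4]

theorem Hol.total' {N : Matrix ι ι F} {c : F} (h : Hol N c) (i : ι) :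
    ∑ x ∈ univ.erase (0 : F), (occ N i x : ℤ) = (Fintype.card F : ℤ) - 1 := by
  have h1 := congrArg (fun n : ℕ => (n : ℤ)) (h.total i)
  have h3 := h.three
  have h4 : ((Fintype.card F - 1 : ℕ) : ℤ) = (Fintype.card F : ℤ) - 1 := by
    rw [Nat.cast_sub (by omega)]
    simp
  push_cast at h1
  rw [h1, h4]

theorem card_nz : ((univ.erase (0 : F)).card : ℤ) = (Fintype.card F : ℤ) - 1 := by
  rw [card_erase_of_mem (mem_univ _), card_univ, Nat.cast_sub Fintype.card_pos]
  simp

theorem Hol.signs {N : Matrix ι ι F} (h : Hol N 1) (h2 : (1 : F) ≠ -1) (i : ι) {x : F}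
    (hx : x ≠ 0) : (sgn N i x = 1 ∨ sgn N i x = -1) ∧ sgn N i (-x) = -sgn N i x := by
  have c1 := h.corr' i (t := 1) one_ne_zero
  have c2 := h.corr' i (t := -1) (neg_ne_zero.2 one_ne_zero)
  rw [if_pos rfl, if_neg h2] at c1
  rw [if_neg h2.symm, if_pos rfl] at c2
  have ht := h.total' i
  have ht2 : ∑ x ∈ univ.erase (0 : F), (occ N i (-1 * x) : ℤ) = (Fintype.card F : ℤ) - 1 := by
    rw [sum_scale (f := fun x => (occ N i x : ℤ)) (neg_ne_zero.2 one_ne_zero), ht]
  have hs2 : ∑ x ∈ univ.erase (0 : F), (occ N i (-1 * x) : ℤ) * (occ N i (-1 * x) : ℤ) =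
      ∑ x ∈ univ.erase (0 : F), (occ N i x : ℤ) * (occ N i x : ℤ) :=
    sum_scale (f := fun x => (occ N i x : ℤ) * (occ N i x : ℤ)) (neg_ne_zero.2 one_ne_zero)
  simp only [one_mul] at c1
  -- the product
  have p1 : (occ N i x : ℤ) * (occ N i (-x) : ℤ) = 0 := by
    have h3 : ∑ x ∈ univ.erase (0 : F), (occ N i x : ℤ) * (occ N i (-1 * x) : ℤ) = 0 := by
      rw [c2]
      ring
    rw [sum_eq_zero_iff_of_nonneg (fun x _ => by positivity)] at h3
    have h4 := h3 x (mem_erase.2 ⟨hx, mem_univ _⟩)
    rwa [neg_one_mul] at h4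
  have p2 : ((occ N i x : ℤ) + (occ N i (-x) : ℤ) - 2) ^ 2 = 0 := by
    have h3 : ∑ x ∈ univ.erase (0 : F), ((occ N i x : ℤ) + (occ N i (-1 * x) : ℤ) - 2) ^ 2 =
        0 := by
      have h4 : ∀ x ∈ univ.erase (0 : F), ((occ N i x : ℤ) + (occ N i (-1 * x) : ℤ) - 2) ^ 2 =
          (occ N i x : ℤ) * (occ N i x : ℤ) + (occ N i (-1 * x) : ℤ) * (occ N i (-1 * x) : ℤ) +
          2 * ((occ N i x : ℤ) * (occ N i (-1 * x) : ℤ)) - 4 * (occ N i x : ℤ) -
          4 * (occ N i (-1 * x) : ℤ) + 4 := by
        intro x _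
        ring
      rw [sum_congr rfl h4, sum_add_distrib, sum_sub_distrib, sum_sub_distrib, sum_add_distrib,
        sum_add_distrib, ← mul_sum, ← mul_sum, ← mul_sum, hs2, c1, c2, ht, ht2, sum_const,
        nsmul_eq_mul, card_nz]
      ring
    rw [sum_eq_zero_iff_of_nonneg (fun x _ => by positivity)] at h3
    have h4 := h3 x (mem_erase.2 ⟨hx, mem_univ _⟩)
    rwa [neg_one_mul] at h4
  have p3 : (occ N i x : ℤ) + (occ N i (-x) : ℤ) - 2 = 0 := by
    exact pow_eq_zero_iff (two_ne_zero) |>.1 p2
  unfold sgn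
  rcases mul_eq_zero.1 p1 with h5 | h5
  · constructor
    · right
      rw [h5]
      norm_num
    · linarith
  · constructor
    · left
      linarith
    · linarith

theorem Hol.sgn_corr {N : Matrix ι ι F} (h : Hol N 1) (i : ι) {t : F} (ht : t ≠ 0) (h1 : t ≠ 1)
    (h2 : t ≠ -1) : ∑ x ∈ univ.erase (0 : F), sgn N i x * sgn N i (t * x) = 0 := by
  have c1 := h.corr' i ht
  rw [if_neg h1, if_neg h2] at c1
  have hs := h.total' i
  have hs2 : ∑ x ∈ univ.erase (0 : F), (occ N i (t * x) : ℤ) = (Fintype.card F : ℤ) - 1 := by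
    rw [sum_scale (f := fun x => (occ N i x : ℤ)) ht, hs]
  have h4 : ∀ x ∈ univ.erase (0 : F), sgn N i x * sgn N i (t * x) =
      (occ N i x : ℤ) * (occ N i (t * x) : ℤ) - (occ N i x : ℤ) - (occ N i (t * x) : ℤ) + 1 := by
    intro x _
    unfold sgn
    ring
  rw [sum_congr rfl h4, sum_add_distrib, sum_sub_distrib, sum_sub_distrib, c1, hs, hs2, sum_const,
    nsmul_eq_mul, card_nz]
  ring

theorem eq_or_neg_of_sq {x : F} (h : x ^ 2 = 1) : x = 1 ∨ x = -1 := by
  have h5 : (x - 1) * (x + 1) = 0 := by linear_combination h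
  rcases mul_eq_zero.1 h5 with h6 | h6
  · exact Or.inl (sub_eq_zero.1 h6)
  · exact Or.inr (eq_neg_of_add_eq_zero_left h6)

theorem sum_gen {γ : Fˣ} (hγ : ∀ x, x ∈ Subgroup.zpowers γ) (f : F → ℤ) :
    ∑ x ∈ univ.erase (0 : F), f x = ∑ k ∈ range (Fintype.card F - 1), f ((γ : F) ^ k) := by
  have ho : orderOf γ = Fintype.card F - 1 := by
    rw [orderOf_eq_card_of_forall_mem_zpowers hγ, Nat.card_eq_fintype_card, Fintype.card_units]
  have h1 := IsCyclic.image_range_orderOf hγ
  rw [ho] at h1
  symm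
  refine sum_bij (fun k _ => (γ : F) ^ k) ?_ ?_ ?_ ?_
  · intro k _
    exact mem_erase.2 ⟨pow_ne_zero _ γ.ne_zero, mem_univ _⟩
  · intro k hk l hl hkl
    have h2 : γ ^ k = γ ^ l := Units.ext (by push_cast; exact hkl)
    refine pow_injOn_Iio_orderOf (x := γ) ?_ ?_ h2
    · rw [ho]
      exact mem_range.1 hk
    · rw [ho]
      exact mem_range.1 hl
  · intro x hx
    have h2 : Units.mk0 x (mem_erase.1 hx).1 ∈ image (fun i => γ ^ i)
        (range (Fintype.card F - 1)) := by
      rw [h1]
      exact mem_univ _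
    rw [mem_image] at h2
    obtain ⟨k, hk, hkx⟩ := h2
    refine ⟨k, hk, ?_⟩
    have h3 := congrArg (fun u : Fˣ => (u : F)) hkx
    push_cast at h3
    simpa using h3
  · intro k _
    rfl

theorem Hol.pos {N : Matrix ι ι F} (h : Hol N 1) (h2 : (1 : F) ≠ -1) (i : ι) :
    Fintype.card F = 3 ∨ Fintype.card F = 5 := by
  obtain ⟨γ, hγ⟩ := IsCyclic.exists_generator (α := Fˣ)
  have ho : orderOf γ = Fintype.card F - 1 := by
    rw [orderOf_eq_card_of_forall_mem_zpowers hγ, Nat.card_eq_fintype_card, Fintype.card_units]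
  have hodd : 2 ∣ Fintype.card F - 1 := by
    have h3 : orderOf (-1 : Fˣ) = 2 := by
      refine orderOf_eq_prime (by simp) ?_
      intro h4
      have h5 := congrArg (fun u : Fˣ => (u : F)) h4
      simp only [Units.val_neg, Units.val_one] at h5
      exact h2 h5.symm
    rw [← h3, ← Fintype.card_units]
    exact orderOf_dvd_card
  obtain ⟨n, hn⟩ := hodd
  have h3 := h.three
  by_contra hcon
  have hn3 : 3 ≤ n := by omega
  have hpow : ∀ m : ℕ, 0 < m → m < 2 * n → (γ : F) ^ m ≠ 1 := by
    intro m hm hm2 he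
    have h4 : γ ^ m = 1 := Units.ext (by push_cast; exact he)
    have h5 := orderOf_dvd_of_pow_eq_one h4
    rw [ho, hn] at h5
    exact absurd (Nat.le_of_dvd hm h5) (by omega)
  have hgn : (γ : F) ^ n = -1 := by
    have h4 : (γ : F) ^ (2 * n) = 1 := by
      have h5 := pow_orderOf_eq_one γ
      rw [ho, hn] at h5
      have h6 := congrArg (fun u : Fˣ => (u : F)) h5
      push_cast at h6
      exact h6
    have h5 : ((γ : F) ^ n) ^ 2 = 1 := by
      rw [← pow_mul, mul_comm n 2, h4]
    rcases eq_or_neg_of_sq h5 with h6 | h6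
    · exact absurd h6 (hpow n (by omega) (by omega))
    · exact h6
  have hm1 : ∀ m : ℕ, 0 < m → m < n → (γ : F) ^ m ≠ -1 := by
    intro m hm hmn he
    refine hpow (2 * m) (by omega) (by omega) ?_
    rw [mul_comm, pow_mul, he]
    ring
  have hg0 : ∀ m : ℕ, (γ : F) ^ m ≠ 0 := fun m => pow_ne_zero _ γ.ne_zero
  refine no_signs (n := n) (e := fun k => sgn N i ((γ : F) ^ k)) ?_ ?_ ?_ ?_
  · intro k
    exact (h.signs h2 i (hg0 k)).1
  · intro k
    have h4 : (γ : F) ^ (k + n) = -(γ : F) ^ k := by
      rw [pow_add, hgn]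
      ring
    simp only [h4]
    exact (h.signs h2 i (hg0 k)).2
  · have h4 := h.sgn_corr i (t := (γ : F) ^ 1) (hg0 1) (hpow 1 (by omega) (by omega))
      (hm1 1 (by omega) (by omega))
    rw [sum_gen hγ (fun x => sgn N i x * sgn N i ((γ : F) ^ 1 * x)), hn] at h4
    rw [← h4]
    refine sum_congr rfl fun k _ => ?_
    have h5 : (γ : F) ^ (k + 1) = (γ : F) ^ 1 * (γ : F) ^ k := by ring
    simp only [h5]
  · have h4 := h.sgn_corr i (t := (γ : F) ^ 2) (hg0 2) (hpow 2 (by omega) (by omega))
      (hm1 2 (by omega) (by omega))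
    rw [sum_gen hγ (fun x => sgn N i x * sgn N i ((γ : F) ^ 2 * x)), hn] at h4
    rw [← h4]
    refine sum_congr rfl fun k _ => ?_
    have h5 : (γ : F) ^ (k + 2) = (γ : F) ^ 2 * (γ : F) ^ k := by ring
    simp only [h5]

/-! ### Reduction -/

/-- a matrix with zero diagonal, all `2 × 2` minors non-zero, diagonally equivalent to its
transpose -/
theorem reduce {M : Matrix ι ι F} (h0 : ∀ i, M i i = 0) (h2 : TwoReg M)
    (hc : Fintype.card ι = Fintype.card F) (h3 : 2 < Fintype.card F) {a b : ι → F}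
    (hab : ∀ i j, M j i = a i * M i j * b j) (hdet : M.det ≠ 0) :
    ∃ N : Matrix ι ι F, ∃ c : F, Hol N c ∧ N.det ≠ 0 := by
  have hι : 2 < Fintype.card ι := by rw [hc]; exact h3
  have hnz : ∀ {i j}, i ≠ j → M i j ≠ 0 := fun hij => off_ne h0 h2 hij
  have hex : ∀ i j : ι, ∃ k, k ≠ i ∧ k ≠ j := by
    intro i j
    have h4 : (({i, j} : Finset ι)ᶜ).Nonempty := by
      rw [← card_pos, card_compl]
      have := card_le_two (a := i) (b := j)
      omega
    obtain ⟨k, hk⟩ := h4
    rw [mem_compl, mem_insert, mem_singleton, not_or] at hk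
    exact ⟨k, hk.1, hk.2⟩
  have ha : ∀ i, a i ≠ 0 := by
    intro i h4
    obtain ⟨k, hk, -⟩ := hex i i
    have h5 := hab i k
    rw [h4, zero_mul, zero_mul] at h5
    exact hnz hk h5
  have hpair : ∀ {i j}, i ≠ j → (a i * b i) * (a j * b j) = 1 := by
    intro i j hij
    have h4 := hab i j
    have h5 := hab j i
    rw [h4] at h5
    have h6 := hnz hij
    have h7 : M i j * ((a i * b i) * (a j * b j)) = M i j * 1 := by
      rw [mul_one]
      conv_rhs => rw [h5]
      ring
    exact mul_left_cancel₀ h6 h7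
  have hall : ∀ i j, a i * b i = a j * b j := by
    intro i j
    obtain ⟨k, hki, hkj⟩ := hex i j
    have h4 := hpair hki
    have h5 := hpair hkj
    have h6 : a k * b k ≠ 0 := by
      intro h7
      rw [h7, zero_mul] at h4
      exact zero_ne_one h4
    exact mul_left_cancel₀ h6 (h4.trans h5.symm)
  obtain ⟨o, p, hop⟩ := Fintype.exists_pair_of_one_lt_card (lt_trans one_lt_two hι)
  set c := a o * b o with hcdef
  have hcc : c * c = 1 := by
    have h4 := hpair hop
    rwa [hall p o] at h4
  set R : ι → F := fun i => ∏ j ∈ univ.erase i, M i j with hR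
  have hR0 : ∀ i, R i ≠ 0 := fun i => prod_ne_zero_iff.2 fun j hj => hnz (mem_erase.1 hj).1.symm
  set s : ι → F := fun i => a i * R i with hs
  have hs0 : ∀ i, s i ≠ 0 := fun i => mul_ne_zero (ha i) (hR0 i)
  set N : Matrix ι ι F := Matrix.of fun i j => s i * M i j * (s j / a j) with hN
  have hNij : ∀ i j, N i j = s i * M i j * (s j / a j) := fun i j => rfl
  have hNmul : N = diagonal s * M * diagonal (fun j => s j / a j) := by
    ext i j
    rw [mul_diagonal, diagonal_mul, hNij]
  refine ⟨N, c, ⟨?_, ?_, ?_, hcc, ?_, hc, h3⟩, ?_⟩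
  · intro i
    rw [hNij, h0 i]
    ring
  · intro i i' hi j j' hj h4
    refine h2 i i' hi j j' hj ?_
    simp only [hNij] at h4
    have h5 : (s i * s i' * (s j / a j) * (s j' / a j')) *
        (M i j * M i' j' - M i j' * M i' j) = 0 := by
      rw [← h4]
      ring
    rcases mul_eq_zero.1 h5 with h6 | h6
    · exact absurd h6 (mul_ne_zero (mul_ne_zero (mul_ne_zero (hs0 i) (hs0 i'))
        (div_ne_zero (hs0 j) (ha j))) (div_ne_zero (hs0 j') (ha j')))
    · exact h6
  · intro i j
    have h4 : a j * b j = c := (hall j o)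
    have h5 := ha i
    have h6 := ha j
    rw [hNij, hNij, hab i j, ← h4]
    field_simp
  · have hpi : ∀ i, ∏ j ∈ univ.erase i, N i j = ∏ j, (s j / a j) := by
      intro i
      have e1 : ∏ j ∈ univ.erase i, N i j =
          (∏ _j ∈ univ.erase i, s i) * R i * ∏ j ∈ univ.erase i, (s j / a j) := by
        rw [hR, ← prod_mul_distrib, ← prod_mul_distrib]
        refine prod_congr rfl fun j _ => ?_
        rw [hNij]
      have e2 : ∏ _j ∈ univ.erase i, s i = 1 := by
        rw [prod_const, card_erase_of_mem (mem_univ _), card_univ, hc]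
        exact FiniteField.pow_card_sub_one_eq_one _ (hs0 i)
      have e3 : s i / a i = R i := by
        rw [hs]
        exact mul_div_cancel_left₀ _ (ha i)
      rw [e1, e2, one_mul, ← e3]
      exact mul_prod_erase univ (fun j => s j / a j) (mem_univ i)
    intro i k
    rw [hpi i, hpi k]
  · rw [hNmul, det_mul, det_mul, det_diagonal, det_diagonal]
    refine mul_ne_zero (mul_ne_zero ?_ hdet) ?_
    · exact prod_ne_zero_iff.2 fun i _ => hs0 i
    · exact prod_ne_zero_iff.2 fun i _ => div_ne_zero (hs0 i) (ha i)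

/-- the main theorem -/
theorem hollow {M : Matrix ι ι F} (h0 : ∀ i, M i i = 0) (h2 : TwoReg M)
    (hc : Fintype.card ι = Fintype.card F) {a b : ι → F}
    (hab : ∀ i j, M j i = a i * M i j * b j) (hdet : M.det ≠ 0) :
    Fintype.card F = 2 ∨ Fintype.card F = 3 ∨ Fintype.card F = 5 := by
  have h1 : 1 < Fintype.card F := Fintype.one_lt_card
  by_cases h3 : 2 < Fintype.card F
  · right
    obtain ⟨N, c, hN, hNd⟩ := reduce h0 h2 hc h3 hab hdet
    have hi : Nonempty ι := by
      rw [← Fintype.card_pos_iff, hc]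
      omega
    obtain ⟨i⟩ := hi
    have hcc : c = 1 ∨ c = -1 := by
      have h4 := hN.sq
      have h5 : (c - 1) * (c + 1) = 0 := by linear_combination h4
      rcases mul_eq_zero.1 h5 with h6 | h6
      · left
        exact sub_eq_zero.1 h6
      · right
        exact eq_neg_of_add_eq_zero_left h6
    by_cases hm : c = -1
    · subst hm
      exact absurd hN.neg hNd
    · have hc1 : c = 1 := hcc.resolve_right hm
      subst hc1
      exact hN.pos hm i
  · left
    omega

end Pool.MP_0af767_co
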