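import Pool.Agent.Lib.MP_0af767_co.Coh
import Pool.Agent.Lib.MP_0af767_co.Hollow

/-!
# MP_0af767_co: rows that extend by a column give columns that extend by a row

`M` has zero diagonal. By Wilson's theorem the missing ratio of the columns `j ≠ k` is
`- C_k m_kj / (C_j m_jk)`, and for `j, k ∈ K` the extended rows give
`R_j v_j m_kj = - R_k v_k m_jk`, so the missing ratio is `w_j / w_k`, `w_j = (C_j R_j v_j)⁻¹`.
-/

set_option autoImplicit false

namespace Pool.MP_0af767_co

open Finset Matrix

variable {F : Type*} [Field F] {ι : Type*} [Fintype F] [DecidableEq F] [Fintype ι] [DecidableEq ι]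

omit [Fintype ι] [DecidableEq ι] in
/-- `q - 2` different non-zero elements miss exactly one non-zero element -/
theorem prod_missing {S : Finset ι} (hS : S.card + 2 = Fintype.card F) {f : ι → F}
    (hf : Set.InjOn f (S : Set ι)) (h0 : ∀ i ∈ S, f i ≠ 0) :
    ∃ m, m ∉ S.image f ∧ m * ∏ i ∈ S, f i = -1 ∧ ∀ t, t ≠ 0 → t ∉ S.image f → t = m := by
  have hsub : S.image f ⊆ univ.erase (0 : F) := by
    intro x hx
    rw [mem_image] at hx
    obtain ⟨i, hi, rfl⟩ := hx
    exact mem_erase.2 ⟨h0 i hi, mem_univ _⟩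
  have hc : (univ.erase (0 : F)).card = Fintype.card F - 1 := by
    rw [card_erase_of_mem (mem_univ _), card_univ]
  have hsd : ((univ.erase (0 : F)) \ S.image f).card = 1 := by
    rw [card_sdiff_of_subset hsub, hc, card_image_of_injOn hf]
    omega
  obtain ⟨m, hm⟩ := card_eq_one.1 hsd
  have hmm : m ∈ (univ.erase (0 : F)) \ S.image f := by
    rw [hm]
    exact mem_singleton_self _
  rw [mem_sdiff] at hmm
  have hins : univ.erase (0 : F) = insert m (S.image f) := by
    rw [← sdiff_union_of_subset hsub, hm]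
    rfl
  refine ⟨m, hmm.2, ?_, ?_⟩
  · have h1 := prod_nonzero (F := F)
    rw [hins, prod_insert hmm.2, prod_image hf] at h1
    exact h1
  · intro t ht htS
    have h1 : t ∈ insert m (S.image f) := by
      rw [← hins]
      exact mem_erase.2 ⟨ht, mem_univ _⟩
    rw [mem_insert] at h1
    exact h1.resolve_right htS

omit [Fintype F] [DecidableEq F] in
theorem inv_cross {p r X Y : F} (hX : X ≠ 0) (hY : Y ≠ 0) (h : p * X⁻¹ = r * Y⁻¹) :
    p * Y = r * X := by
  rw [← div_eq_mul_inv, ← div_eq_mul_inv, div_eq_div_iff hX hY] at h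
  exact h

/-- the columns in `K` extend by a row, too (zero diagonal) -/
theorem colco {M : Matrix ι ι F} (hM : TwoReg M) (h0 : ∀ i, M i i = 0)
    (hι : Fintype.card ι = Fintype.card F) (hq : 2 < Fintype.card F) {K : Finset ι} {v : ι → F}
    (hE : Extends M K v) (hv : ∀ a ∈ K, v a ≠ 0) :
    ∃ w : ι → F, (∀ j ∈ K, w j ≠ 0) ∧
      ∀ j ∈ K, ∀ k ∈ K, j ≠ k → ∀ i, M i j * w k ≠ M i k * w j := by
  have hne : ∀ i j, i ≠ j → M i j ≠ 0 := fun i j h => off_ne h0 hM h
  set R : ι → F := fun a => ∏ j ∈ univ.erase a, M a j with hR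
  set C : ι → F := fun j => ∏ i ∈ univ.erase j, M i j with hC
  have hR0 : ∀ a, R a ≠ 0 := fun a => prod_ne_zero_iff.2 fun j hj =>
    hne a j (mem_erase.1 hj).1.symm
  have hC0 : ∀ a, C a ≠ 0 := fun a => prod_ne_zero_iff.2 fun j hj =>
    hne j a (mem_erase.1 hj).1
  have hSc : ∀ a b : ι, a ≠ b → ((univ.erase a).erase b).card + 2 = Fintype.card F := by
    intro a b hab
    rw [card_erase_of_mem (mem_erase.2 ⟨hab.symm, mem_univ _⟩), card_erase_of_mem (mem_univ _),
      card_univ, hι]
    omega
  -- rows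
  have step1 : ∀ a ∈ K, ∀ b ∈ K, a ≠ b → R a * v a * M b a = -(R b * v b * M a b) := by
    intro a ha b hb hab
    obtain ⟨m, -, hm, hm'⟩ := prod_missing (hSc a b hab) (f := fun j => M a j / M b j)
      (by
        intro j hj j' hj' e
        rw [mem_coe, mem_erase, mem_erase] at hj hj'
        by_contra hjj
        have h1 := hne b j hj.1.symm
        have h2 := hne b j' hj'.1.symm
        simp only at e
        rw [div_eq_div_iff h1 h2] at e
        exact hM a b hab j j' hjj (sub_eq_zero.2 e))
      (by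
        intro j hj
        rw [mem_erase, mem_erase] at hj
        exact div_ne_zero (hne a j hj.2.1.symm) (hne b j hj.1.symm))
    have hva := hv a ha
    have hvb := hv b hb
    have h1 : v a / v b = m := by
      apply hm' _ (div_ne_zero hva hvb)
      intro h
      rw [mem_image] at h
      obtain ⟨j, hj, e⟩ := h
      rw [mem_erase, mem_erase] at hj
      have h2 := hne b j hj.1.symm
      rw [div_eq_div_iff h2 hvb] at e
      apply hE a ha b hb hab j
      rw [e]
      ring
    rw [prod_div_distrib, ← h1] at hm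
    have e1 : M a b * ∏ j ∈ (univ.erase a).erase b, M a j = R a :=
      mul_prod_erase (univ.erase a) (fun j => M a j) (mem_erase.2 ⟨hab.symm, mem_univ _⟩)
    have e2 : M b a * ∏ j ∈ (univ.erase a).erase b, M b j = R b := by
      rw [erase_right_comm]
      exact mul_prod_erase (univ.erase b) (fun j => M b j) (mem_erase.2 ⟨hab, mem_univ _⟩)
    have h3 : ∏ j ∈ (univ.erase a).erase b, M b j ≠ 0 := by
      intro h
      rw [h, mul_zero] at e2
      exact hR0 b e2.symm
    rw [div_mul_div_comm, div_eq_iff (mul_ne_zero hvb h3)] at hm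
    rw [← e1, ← e2]
    linear_combination (M a b * M b a) * hm
  refine ⟨fun j => (C j * R j * v j)⁻¹, ?_, ?_⟩
  · intro j hj
    exact inv_ne_zero (mul_ne_zero (mul_ne_zero (hC0 j) (hR0 j)) (hv j hj))
  · intro j hj k hk hjk i e
    have hvj := hv j hj
    have hvk := hv k hk
    have hwj : (C j * R j * v j)⁻¹ ≠ 0 :=
      inv_ne_zero (mul_ne_zero (mul_ne_zero (hC0 j) (hR0 j)) hvj)
    have hwk : (C k * R k * v k)⁻¹ ≠ 0 :=
      inv_ne_zero (mul_ne_zero (mul_ne_zero (hC0 k) (hR0 k)) hvk)
    by_cases hij : i = j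
    · rw [hij, h0 j, zero_mul] at e
      exact mul_ne_zero (hne j k hjk) hwj e.symm
    by_cases hik : i = k
    · rw [hik, h0 k, zero_mul] at e
      exact mul_ne_zero (hne k j hjk.symm) hwk e
    obtain ⟨m, hmI, hm, -⟩ := prod_missing (hSc j k hjk) (f := fun i => M i j / M i k)
      (by
        intro a ha a' ha' e
        rw [mem_coe, mem_erase, mem_erase] at ha ha'
        by_contra haa
        have h1 := hne a k ha.1
        have h2 := hne a' k ha'.1
        simp only at e
        rw [div_eq_div_iff h1 h2] at e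
        apply hM a a' haa j k hjk
        rw [e]
        ring)
      (by
        intro a ha
        rw [mem_erase, mem_erase] at ha
        exact div_ne_zero (hne a j ha.2.1) (hne a k ha.1))
    apply hmI
    rw [mem_image]
    refine ⟨i, mem_erase.2 ⟨hik, mem_erase.2 ⟨hij, mem_univ _⟩⟩, ?_⟩
    have h3 := step1 j hj k hk hjk
    have e1 : M k j * ∏ i ∈ (univ.erase j).erase k, M i j = C j :=
      mul_prod_erase (univ.erase j) (fun i => M i j) (mem_erase.2 ⟨hjk.symm, mem_univ _⟩)
    have e2 : M j k * ∏ i ∈ (univ.erase j).erase k, M i k = C k := by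
      rw [erase_right_comm]
      exact mul_prod_erase (univ.erase k) (fun i => M i k) (mem_erase.2 ⟨hjk, mem_univ _⟩)
    rw [prod_div_distrib] at hm
    set A := ∏ i ∈ (univ.erase j).erase k, M i j with hA
    set B := ∏ i ∈ (univ.erase j).erase k, M i k with hB
    have hA0 : A ≠ 0 := by
      intro h
      rw [h, mul_zero] at e1
      exact hC0 j e1.symm
    have hB0 : B ≠ 0 := by
      intro h
      rw [h, mul_zero] at e2
      exact hC0 k e2.symm
    -- `m = w j / w k`
    have h4 : m * A = -B := by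
      rw [mul_div_assoc', div_eq_iff hB0] at hm
      rw [hm]
      ring
    have h5 : M i j / M i k = (C k * R k * v k) / (C j * R j * v j) := by
      rw [div_eq_div_iff (hne i k hik)
        (mul_ne_zero (mul_ne_zero (hC0 j) (hR0 j)) hvj)]
      have h6 : (C k * R k * v k) ≠ 0 := mul_ne_zero (mul_ne_zero (hC0 k) (hR0 k)) hvk
      have h7 : (C j * R j * v j) ≠ 0 := mul_ne_zero (mul_ne_zero (hC0 j) (hR0 j)) hvj
      have h8 : M i j * (C j * R j * v j) = M i k * (C k * R k * v k) :=
        inv_cross h6 h7 e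
      rw [h8]
      ring
    show M i j / M i k = m
    rw [h5, div_eq_iff (mul_ne_zero (mul_ne_zero (hC0 j) (hR0 j)) hvj)]
    apply mul_right_cancel₀ (mul_ne_zero hA0 (mul_ne_zero (hne k j hjk.symm) (hne j k hjk)))
    rw [← e1, ← e2]
    linear_combination (-(M k j * A * R j * v j * M k j * M j k)) * h4 +
      (M j k * M k j * A * B) * h3

end Pool.MP_0af767_co
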