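import Pool.Agent.Lib.MP_0af767_co.Net

/-!
# MP_0af767_co: more counting in nets with few missing parallel classes
-/

set_option autoImplicit false

namespace Pool.MP_0af767_co.Net

open Finset

variable {P κ F : Type*} [Fintype P] [DecidableEq P] [Fintype κ] [DecidableEq κ]
  [Fintype F] [DecidableEq F] {l : P → κ → F}

/-- the coordinates of `u` which do not occur in `L` -/
def miss (l : P → κ → F) (L : Finset P) (u : P) : Finset κ :=
  univ.filter fun a => ∀ z ∈ L, l z a ≠ l u a

omit [DecidableEq κ] [Fintype F] in
theorem mem_miss {L : Finset P} {u : P} {a : κ} :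
    a ∈ miss l L u ↔ ∀ z ∈ L, l z a ≠ l u a := by
  unfold miss
  simp

omit [DecidableEq κ] in
open Classical in
/-- number of points of a clique far from a point outside -/
theorem clique_count (hN : IsNet l) {L : Finset P}
    (hL : ∀ z ∈ L, ∀ w ∈ L, z ≠ w → Far l z w) {u : P} (hu : u ∉ L) :
    (L.filter fun z => Far l z u).card + Fintype.card κ = L.card + (miss l L u).card := by
  have h1 : ∑ z ∈ L, agr l u z = (L.card : ℤ) - (L.filter fun z => Far l z u).card := by
    have h2 : ∀ z ∈ L, agr l u z = 1 - (if Far l z u then (1 : ℤ) else 0) := by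
      intro z hz
      have hne : z ≠ u := by
        rintro rfl
        exact hu hz
      by_cases hf : Far l z u
      · rw [if_pos hf, agr_far hf]
        ring
      · rw [if_neg hf, agr_near hN hne hf]
        ring
    rw [sum_congr rfl h2, sum_sub_distrib, card_filter]
    push_cast
    simp
  have h3 : ∑ z ∈ L, agr l u z = (Fintype.card κ : ℤ) - (miss l L u).card := by
    unfold agr
    rw [sum_comm]
    have h4 : ∀ a, ∑ z ∈ L, (if l z a = l u a then (1 : ℤ) else 0) =
        1 - (if ∀ z ∈ L, l z a ≠ l u a then (1 : ℤ) else 0) := by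
      intro a
      by_cases ha : ∀ z ∈ L, l z a ≠ l u a
      · rw [if_pos ha, sum_eq_zero fun z hz => if_neg (ha z hz)]
        ring
      · rw [if_neg ha]
        push Not at ha
        obtain ⟨z, hz, hza⟩ := ha
        rw [sum_eq_single z]
        · rw [if_pos hza]
          ring
        · intro w hw hwz
          rw [if_neg]
          intro h
          exact hL w hw z hz hwz a (h.trans hza.symm)
        · intro h
          exact absurd hz h
    rw [sum_congr rfl fun a _ => h4 a, sum_sub_distrib]
    unfold miss
    rw [card_filter]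
    push_cast
    simp
  rw [h1] at h3
  have h5 : ((L.filter fun z => Far l z u).card : ℤ) + Fintype.card κ =
      L.card + (miss l L u).card := by linarith
  exact_mod_cast h5

omit [DecidableEq κ] in
open Classical in
/-- every point outside a clique of size `q` is far from exactly `d` of its points -/
theorem full_count (hN : IsNet l) {d : ℕ} (hd : Fintype.card κ + d = Fintype.card F) {Q : Finset P}
    (hQ : ∀ z ∈ Q, ∀ w ∈ Q, z ≠ w → Far l z w) (hQc : Q.card = Fintype.card F) {u : P}
    (hu : u ∉ Q) : (Q.filter fun z => Far l z u).card = d := by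
  have h1 := clique_count hN hQ hu
  have h2 : (miss l Q u).card = 0 := by
    rw [card_eq_zero]
    unfold miss
    rw [filter_eq_empty_iff]
    intro a _ ha
    have h3 : (Q.image fun z => l z a).card = Q.card := by
      refine card_image_of_injOn ?_
      intro z hz w hw e
      by_contra hne
      exact hQ z hz w hw hne a e
    rw [hQc] at h3
    have h4 : (Q.image fun z => l z a) = univ := eq_univ_of_card _ h3
    have h5 : l u a ∈ Q.image fun z => l z a := by
      rw [h4]
      exact mem_univ _
    rw [mem_image] at h5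
    obtain ⟨z, hz, hz'⟩ := h5
    exact ha z hz hz'
  omega

open Classical in
/-- a clique disjoint from a clique `Q` of size `q`, `u ∈ Q`, is completely far from `u`
or has at most `d²` points far from `u` -/
theorem dicho2 (hN : IsNet l) {d : ℕ} (hd : Fintype.card κ + d = Fintype.card F) {Q : Finset P}
    (hQ : ∀ z ∈ Q, ∀ w ∈ Q, z ≠ w → Far l z w) (hQc : Q.card = Fintype.card F) {u : P}
    (hu : u ∈ Q) {L : Finset P} (hL : ∀ z ∈ L, ∀ w ∈ L, z ≠ w → Far l z w)
    (hLQ : ∀ z ∈ L, z ∉ Q) (hn : ¬ ∀ z ∈ L, Far l z u) :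
    (L.filter fun z => Far l z u).card ≤ d ^ 2 := by
  push Not at hn
  obtain ⟨z₀, hz₀, hf⟩ := hn
  have hz₀Q := hLQ z₀ hz₀
  have hne : z₀ ≠ u := by
    rintro rfl
    exact hz₀Q hu
  have h1 := com_near hN hd hne hf
  have h2 := full_count hN hd hQ hQc hz₀Q
  have h3 : (L.filter fun z => Far l z u) ∪ (Q.filter fun z => Far l z z₀) ⊆
      univ.filter fun w => Far l w z₀ ∧ Far l w u := by
    intro w hw
    rw [mem_union, mem_filter, mem_filter] at hw
    rw [mem_filter]
    rcases hw with ⟨hw, hwf⟩ | ⟨hw, hwf⟩
    · refine ⟨mem_univ _, ?_, hwf⟩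
      refine hL w hw z₀ hz₀ ?_
      rintro rfl
      exact hf hwf
    · refine ⟨mem_univ _, hwf, ?_⟩
      refine hQ w hw u hu ?_
      rintro rfl
      exact hf hwf.symm
  have h4 := card_le_card h3
  rw [card_union_of_disjoint, h1, h2] at h4
  · omega
  · rw [disjoint_left]
    intro w hw hw'
    rw [mem_filter] at hw hw'
    exact hLQ w hw.1 hw'.1

/-- two points of a clique of size `q` far from another clique -/
theorem two_full (hN : IsNet l) {d : ℕ} (hd : Fintype.card κ + d = Fintype.card F) {Q : Finset P}
    (hQ : ∀ z ∈ Q, ∀ w ∈ Q, z ≠ w → Far l z w) (hQc : Q.card = Fintype.card F) {u u' : P}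
    (hu : u ∈ Q) (hu' : u' ∈ Q) (huu : u ≠ u') {C : Finset P}
    (hCQ : ∀ z ∈ C, z ∉ Q) (hC : ∀ z ∈ C, Far l z u) (hC' : ∀ z ∈ C, Far l z u') :
    C.card + d ≤ d ^ 2 := by
  classical
  have h1 := com_far hN hd (hQ u hu u' hu' huu)
  have h2 : C ∪ (Q.erase u).erase u' ⊆ univ.filter fun w => Far l w u ∧ Far l w u' := by
    intro w hw
    rw [mem_union, mem_erase, mem_erase] at hw
    rw [mem_filter]
    rcases hw with hw | hw
    · exact ⟨mem_univ _, hC w hw, hC' w hw⟩
    · exact ⟨mem_univ _, hQ w hw.2.2 u hu hw.2.1, hQ w hw.2.2 u' hu' hw.1⟩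
  have h3 := card_le_card h2
  rw [card_union_of_disjoint, card_erase_of_mem (mem_erase.2 ⟨huu.symm, hu'⟩),
    card_erase_of_mem hu, hQc] at h3
  · have : 2 ≤ Q.card := by
      have h4 : ({u, u'} : Finset P) ⊆ Q := by
        intro w hw
        rw [mem_insert, mem_singleton] at hw
        rcases hw with rfl | rfl
        · exact hu
        · exact hu'
      have h5 := card_le_card h4
      rwa [card_pair huu] at h5
    omega
  · rw [disjoint_left]
    intro w hw hw'
    rw [mem_erase, mem_erase] at hw'
    exact hCQ w hw hw'.2.2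

open Classical in
/-- the points of a line `l z a = s` far from a point outside -/
theorem line_count (hN : IsNet l) {d : ℕ} (hd : Fintype.card κ + d = Fintype.card F) {u : P} {a : κ}
    {s : F} (hs : l u a ≠ s) : (univ.filter fun z => l z a = s ∧ Far l z u).card = d + 1 := by
  have h1 : ((univ.filter fun z => l z a = s ∧ Far l z u).card : ℤ) =
      Fintype.card F - (Fintype.card κ - 1) := by
    rw [card_filter]
    push_cast
    have h2 : ∀ z, (if l z a = s ∧ Far l z u then (1 : ℤ) else 0) =
        (if l z a = s then (1 : ℤ) else 0) -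
          ∑ b, (if l z a = s then (1 : ℤ) else 0) * (if l z b = l u b then 1 else 0) := by
      intro z
      have h3 : (if l z a = s ∧ Far l z u then (1 : ℤ) else 0) =
          (if l z a = s then (1 : ℤ) else 0) * (if Far l z u then 1 else 0) := by
        by_cases ha : l z a = s <;> by_cases hb : Far l z u <;> simp [ha, hb]
      rw [h3, ind_far hN u z, ← mul_sum]
      have h4 : ∑ b, (if l z b = l u b then (1 : ℤ) else 0) = agr l u z := rfl
      rw [h4]
      by_cases ha : l z a = s
      · have hzu : z ≠ u := by
          rintro rfl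
          exact hs ha
        rw [if_neg hzu]
        ring
      · rw [if_neg ha]
        ring
    rw [sum_congr rfl fun z _ => h2 z, sum_sub_distrib, sum_fiber hN, sum_comm]
    have h5 : ∀ b, ∑ z, (if l z a = s then (1 : ℤ) else 0) * (if l z b = l u b then 1 else 0) =
        1 - (if b = a then 1 else 0) := by
      intro b
      by_cases hb : b = a
      · subst hb
        rw [if_pos rfl]
        refine (sum_eq_zero fun z _ => ?_).trans (by ring)
        by_cases h6 : l z b = s
        · have h7 : ¬ l z b = l u b := fun h => hs (h.symm.trans h6)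
          rw [if_neg h7, mul_zero]
        · rw [if_neg h6, zero_mul]
      · rw [if_neg hb, sum_fiber2 hN (Ne.symm hb)]
        ring
    rw [sum_congr rfl fun b _ => h5 b, sum_sub_distrib, sum_ite_eq' univ a]
    simp
  have h7 : (Fintype.card κ : ℤ) = Fintype.card F - d := by
    rw [← hd]
    push_cast
    ring
  rw [h7] at h1
  zify
  rw [h1]
  ring

open Classical in
/-- the common far points of `y` and `u` -/
theorem far_sum (hN : IsNet l) {d : ℕ} (hd : Fintype.card κ + d = Fintype.card F) {y u : P}
    (hyu : Far l y u) {X : Type*} [Fintype X]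
    (hX : Fintype.card X = d) (L : X → Finset P) (hy : ∀ x, y ∈ L x)
    (hc : ∀ x, (L x).card + 1 = Fintype.card F)
    (hcl : ∀ x, ∀ z ∈ L x, ∀ w ∈ L x, z ≠ w → Far l z w)
    (hdis : ∀ x x', x ≠ x' → ∀ z, z ∈ L x → z ∈ L x' → z = y)
    (hu : ∀ x, u ∉ L x) {C : Finset P} (hyC : y ∈ C) (hCc : C.card + d = Fintype.card F)
    (hC : ∀ z ∈ C, ∀ w ∈ C, z ≠ w → Far l z w) (hCL : ∀ x, ∀ z, z ∈ L x → z ∈ C → z = y)
    (huC : u ∉ C) :
    Fintype.card F ≤ ∑ x, (miss l (L x) u).card + (C.filter fun z => Far l z u).card + d := by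
  have hq2 : 2 ≤ Fintype.card F := by
    have := hN.two
    omega
  have hCpos : 0 < C.card := card_pos.2 ⟨y, hyC⟩
  set G := univ.filter fun z => Far l z y with hG
  have hGc := deg_far hN hd y
  rw [← hG] at hGc
  set U := univ.biUnion fun x => (L x).erase y with hU
  have hUc : U.card = d * (Fintype.card F - 2) := by
    rw [hU, card_biUnion]
    · rw [sum_congr rfl fun x _ => (?_ : ((L x).erase y).card = Fintype.card F - 2)]
      · rw [sum_const, card_univ, hX, smul_eq_mul]
      · rw [card_erase_of_mem (hy x)]
        have := hc x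
        omega
    · intro x _ x' _ hxx
      rw [Function.onFun, disjoint_left]
      intro z hz hz'
      rw [mem_erase] at hz hz'
      exact hz.1 (hdis x x' hxx z hz.2 hz'.2)
  set V := U ∪ C.erase y with hV
  have hVc : V.card = d * (Fintype.card F - 2) + (C.card - 1) := by
    rw [hV, card_union_of_disjoint, hUc, card_erase_of_mem hyC]
    rw [disjoint_left]
    intro z hz hz'
    rw [hU, mem_biUnion] at hz
    obtain ⟨x, _, hz⟩ := hz
    rw [mem_erase] at hz hz'
    exact hz.1 (hCL x z hz.2 hz'.2)
  have hVG : V ⊆ G := by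
    intro z hz
    rw [hV, mem_union, hU, mem_biUnion] at hz
    rw [hG, mem_filter]
    rcases hz with ⟨x, _, hz⟩ | hz
    · rw [mem_erase] at hz
      exact ⟨mem_univ _, hcl x z hz.2 y (hy x) hz.1⟩
    · rw [mem_erase] at hz
      exact ⟨mem_univ _, hC z hz.2 y hyC hz.1⟩
  set T := G \ V with hT
  have hTc : T.card = 2 * d := by
    have h1 : T.card + V.card = G.card := by
      rw [hT, card_sdiff_of_subset hVG]
      have := card_le_card hVG
      omega
    rw [hVc] at h1
    obtain ⟨Q, hQ⟩ : ∃ Q, Fintype.card F = Q + 2 := ⟨Fintype.card F - 2, by omega⟩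
    rw [hQ] at h1 hGc hCc
    rw [Nat.add_sub_cancel] at h1
    have h2 : d * (Q + 2) = d * Q + 2 * d := by ring
    rw [h2] at hGc
    omega
  have huT : u ∈ T := by
    rw [hT, mem_sdiff, hG, mem_filter, hV, mem_union, hU, mem_biUnion]
    refine ⟨⟨mem_univ _, hyu.symm⟩, ?_⟩
    rintro (⟨x, _, h⟩ | h)
    · exact hu x (mem_erase.1 h).2
    · exact huC (mem_erase.1 h).2
  have hcov : (univ.filter fun z => Far l z y ∧ Far l z u) ⊆
      (univ.biUnion fun x => ((L x).erase y).filter fun z => Far l z u) ∪
        (((C.erase y).filter fun z => Far l z u) ∪ T.erase u) := by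
    intro z hz
    rw [mem_filter] at hz
    rw [mem_union, mem_union, mem_biUnion, mem_filter, mem_erase (s := T)]
    by_cases hzU : z ∈ U
    · left
      rw [hU, mem_biUnion] at hzU
      obtain ⟨x, hx, hzx⟩ := hzU
      exact ⟨x, hx, mem_filter.2 ⟨hzx, hz.2.2⟩⟩
    · right
      by_cases hzC : z ∈ C.erase y
      · exact Or.inl ⟨hzC, hz.2.2⟩
      · right
        refine ⟨?_, ?_⟩
        · rintro rfl
          have h2 := hN.two
          have h3 : 0 < Fintype.card κ := by omega
          obtain ⟨a⟩ := Fintype.card_pos_iff.1 h3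
          exact hz.2.2 a rfl
        · rw [hT, mem_sdiff, hG, mem_filter, hV, mem_union]
          exact ⟨⟨mem_univ _, hz.2.1⟩, fun h => h.elim hzU hzC⟩
  have h1 := (card_le_card hcov).trans ((card_union_le _ _).trans
    (Nat.add_le_add card_biUnion_le (card_union_le _ _)))
  rw [card_erase_of_mem huT, hTc] at h1
  have h2 := com_far hN hd hyu
  have h3 : ∑ x, (((L x).erase y).filter fun z => Far l z u).card + 2 * d =
      d * d + ∑ x, (miss l (L x) u).card := by
    have h4 : ∀ x, (((L x).erase y).filter fun z => Far l z u).card + 2 =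
        d + (miss l (L x) u).card := by
      intro x
      have h5 := clique_count hN (hcl x) (hu x)
      have h6 : ((L x).filter fun z => Far l z u).card =
          (((L x).erase y).filter fun z => Far l z u).card + 1 := by
        rw [filter_erase, card_erase_of_mem]
        · have : 0 < ((L x).filter fun z => Far l z u).card :=
            card_pos.2 ⟨y, mem_filter.2 ⟨hy x, hyu⟩⟩
          omega
        · exact mem_filter.2 ⟨hy x, hyu⟩
      have h7 := hc x
      omega
    have h8 : ∑ x, ((((L x).erase y).filter fun z => Far l z u).card + 2) =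
        ∑ x, (d + (miss l (L x) u).card) := sum_congr rfl fun x _ => h4 x
    rw [sum_add_distrib, sum_add_distrib, sum_const, sum_const, card_univ, hX] at h8
    simp only [smul_eq_mul] at h8
    rw [mul_comm d 2] at h8
    exact h8
  have h9 : (C.filter fun z => Far l z u).card =
      ((C.erase y).filter fun z => Far l z u).card + 1 := by
    rw [filter_erase, card_erase_of_mem]
    · have : 0 < (C.filter fun z => Far l z u).card :=
        card_pos.2 ⟨y, mem_filter.2 ⟨hyC, hyu⟩⟩
      omega
    · exact mem_filter.2 ⟨hyC, hyu⟩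
  have hdpos : 0 < T.card := card_pos.2 ⟨u, huT⟩
  have h10 : d ^ 2 = d * d := sq d
  omega

end Pool.MP_0af767_co.Net
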