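import Pool.Agent.Lib.MP_0af767_co.CohNet
import Pool.Agent.Lib.MP_0af767_co.Net2
import Pool.Agent.Lib.MP_0af767_co.Col

/-!
# MP_0af767_co: the quadratic bound, `d ≥ 2`

`M` has zero diagonal, the rows `K` extend by `v`, no larger set `K ∪ {x}` extends, and
`2 d² + 2 d + 2 < q`, `d = q - |K| ≥ 2`. Contradiction.
-/

set_option autoImplicit false

namespace Pool.MP_0af767_co

open Finset Matrix Net

variable {F : Type*} [Field F] {ι : Type*}
variable [Fintype F] [DecidableEq F] [Fintype ι] [DecidableEq ι]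

open Classical in
/-- the line `h` of the row `x` -/
noncomputable def linh (M : Matrix ι ι F) (x : ι) (h : F) : Finset (Pt ι F) :=
  univ.filter fun p => ∃ j, ∃ g : Fˣ, p = some (some j, g) ∧ M x j * g = h

theorem mem_linh {M : Matrix ι ι F} {x : ι} {h : F} {p : Pt ι F} :
    p ∈ linh M x h ↔ ∃ j, ∃ g : Fˣ, p = some (some j, g) ∧ M x j * g = h := by
  unfold linh
  simp

theorem card_linh {M : Matrix ι ι F} (hM : TwoReg M) (h1 : 1 < Fintype.card ι)
    (h0 : ∀ i, M i i = 0) (hι : Fintype.card ι = Fintype.card F) {x : ι} {h : F} (hh : h ≠ 0) :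
    (linh M x h).card + 1 = Fintype.card F := by
  have hne : ∀ j, j ≠ x → M x j ≠ 0 := fun j hj h => hj (zero_unique_row hM h1 h (h0 x))
  have h2 : linh M x h = (univ.erase x).attach.image (fun j : univ.erase x =>
      (some (some (j : ι), Units.mk0 (h / M x j)
        (div_ne_zero hh (hne j (mem_erase.1 j.2).1))) : Pt ι F)) := by
    ext p
    rw [mem_linh, mem_image]
    constructor
    · rintro ⟨j, g, rfl, hg⟩
      have hj : M x j ≠ 0 := by
        intro h
        rw [h, zero_mul] at hg
        exact hh hg.symm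
      have hjz : j ∈ univ.erase x := mem_erase.2 ⟨fun e => hj (e ▸ h0 x), mem_univ _⟩
      refine ⟨⟨j, hjz⟩, mem_attach _ _, ?_⟩
      have h3 : Units.mk0 (h / M x j) (div_ne_zero hh hj) = g := by
        apply Units.ext
        rw [Units.val_mk0, ← hg]
        field_simp
      rw [h3]
    · rintro ⟨j, _, rfl⟩
      refine ⟨j, _, rfl, ?_⟩
      rw [Units.val_mk0]
      have := hne j (mem_erase.1 j.2).1
      field_simp
  rw [h2, card_image_of_injective, card_attach, card_erase_of_mem (mem_univ _), card_univ, hι]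
  · omega
  · intro j j' h
    rw [Option.some.injEq, Prod.mk.injEq, Option.some.injEq] at h
    exact Subtype.ext h.1

theorem linh_far {M : Matrix ι ι F} (hM : TwoReg M) {v : ι → F} {K : Finset ι} {x : ι} {h : F}
    (hx : x ∉ K) (hh : h ≠ 0) {u w : Pt ι F} (hu : u ∈ linh M x h) (hw : w ∈ linh M x h)
    (huw : u ≠ w) : Far (lab M v K) u w := by
  rw [mem_linh] at hu hw
  obtain ⟨j, g, rfl, hg⟩ := hu
  obtain ⟨j', g', rfl, hg'⟩ := hw
  intro a e
  rw [lab_some, lab_some] at e
  simp only [ent] at e
  have hax : (a : ι) ≠ x := fun e => hx (e ▸ a.2)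
  by_cases hj : j = j'
  · subst hj
    apply huw
    have h2 : M x j ≠ 0 := by
      intro h3
      rw [h3, zero_mul] at hg
      exact hh hg.symm
    have h3 : (g : F) = g' := mul_left_cancel₀ h2 (hg.trans hg'.symm)
    rw [Units.ext h3]
  · apply hM a x hax j j' hj
    rw [sub_eq_zero]
    have h3 : ((g : F) * g') ≠ 0 := mul_ne_zero g.ne_zero g'.ne_zero
    apply mul_right_cancel₀ h3
    calc M a j * M x j' * (g * g') = (M a j * g) * (M x j' * g') := by ring
      _ = (M a j' * g') * (M x j * g) := by rw [e, hg, hg']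
      _ = _ := by ring

/-- two lines of different rows meet at most once -/
theorem linh_meet {M : Matrix ι ι F} (hM : TwoReg M) {x x' : ι} {h h' : F} (hx : x ≠ x')
    (hh : h ≠ 0) {u w : Pt ι F} (hu : u ∈ linh M x h) (hu' : u ∈ linh M x' h')
    (hw : w ∈ linh M x h) (hw' : w ∈ linh M x' h') : u = w := by
  rw [mem_linh] at hu hu' hw hw'
  obtain ⟨j, g, rfl, hg⟩ := hu
  obtain ⟨j', g', e, hg'⟩ := hu'
  rw [Option.some.injEq, Prod.mk.injEq, Option.some.injEq] at e
  obtain ⟨rfl, rfl⟩ := e
  obtain ⟨k, f, rfl, hf⟩ := hw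
  obtain ⟨k', f', e, hf'⟩ := hw'
  rw [Option.some.injEq, Prod.mk.injEq, Option.some.injEq] at e
  obtain ⟨rfl, rfl⟩ := e
  by_cases hj : j = k
  · subst hj
    have h2 : M x j ≠ 0 := by
      intro h3
      rw [h3, zero_mul] at hg
      exact hh hg.symm
    have h3 : (g : F) = f := mul_left_cancel₀ h2 (hg.trans hf.symm)
    rw [Units.ext h3]
  · exfalso
    apply hM x x' hx j k hj
    rw [sub_eq_zero]
    have h3 : ((g : F) * f) ≠ 0 := mul_ne_zero g.ne_zero f.ne_zero
    apply mul_right_cancel₀ h3
    calc M x j * M x' k * (g * f) = (M x j * g) * (M x' k * f) := by ring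
      _ = (M x k * f) * (M x' j * g) := by rw [hg, hf', hf, hg']
      _ = _ := by ring

/-- a point of the new column completes a line of `x`: the row `x` can be extended, too -/
theorem extends_insert' {M : Matrix ι ι F} (hM : TwoReg M) (h1 : 1 < Fintype.card ι) {v : ι → F}
    {K : Finset ι} (hE : Extends M K v) {x : ι} (hx : x ∉ K) {h : F} (hh : h ≠ 0) {g : Fˣ}
    (hw : ∀ u ∈ linh M x h, Far (lab M v K) u (some (none, g))) :
    Extends M (insert x K) (Function.update v x (h * (g : F)⁻¹)) := by
  have key : ∀ a ∈ K, ∀ j, M a j * (h * (g : F)⁻¹) ≠ M x j * v a := by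
    intro a ha j e
    have hax : a ≠ x := fun e => hx (e ▸ ha)
    by_cases hj : M x j = 0
    · rw [hj, zero_mul] at e
      have h2 := (mul_eq_zero.1 e).resolve_right (mul_ne_zero hh (inv_ne_zero g.ne_zero))
      exact hax (zero_unique_col hM h1 h2 hj)
    · have h2 : some (some j, Units.mk0 (h / M x j) (div_ne_zero hh hj)) ∈ linh M x h := by
        rw [mem_linh]
        refine ⟨j, _, rfl, ?_⟩
        rw [Units.val_mk0]
        field_simp
      apply hw _ h2 ⟨a, ha⟩
      rw [lab_some, lab_some, Units.val_mk0]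
      simp only [ent]
      have h3 := g.ne_zero
      field_simp at e ⊢
      linear_combination e
  intro a ha b hb hab j
  rw [mem_insert] at ha hb
  rcases ha with rfl | ha <;> rcases hb with rfl | hb
  · exact absurd rfl hab
  · have hb' : b ≠ a := fun e => hab e.symm
    rw [Function.update_self, Function.update_of_ne hb']
    intro h
    exact key b hb j h.symm
  · rw [Function.update_self, Function.update_of_ne hab]
    exact key a ha j
  · have ha' : a ≠ x := fun e => hx (e ▸ ha)
    have hb' : b ≠ x := fun e => hx (e ▸ hb)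
    rw [Function.update_of_ne ha', Function.update_of_ne hb']
    exact hE a ha b hb hab j

open Classical in
/-- the points of the columns `K` with `w j * g = s` -/
noncomputable def cliq (K : Finset ι) (w : ι → F) (s : F) : Finset (Pt ι F) :=
  univ.filter fun p => ∃ j ∈ K, ∃ g : Fˣ, p = some (some j, g) ∧ w j * g = s

theorem mem_cliq {K : Finset ι} {w : ι → F} {s : F} {p : Pt ι F} :
    p ∈ cliq K w s ↔ ∃ j ∈ K, ∃ g : Fˣ, p = some (some j, g) ∧ w j * g = s := by
  unfold cliq
  simp

theorem card_cliq {K : Finset ι} {w : ι → F} (hw : ∀ j ∈ K, w j ≠ 0) {s : F} (hs : s ≠ 0) :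
    (cliq K w s).card = K.card := by
  have h2 : cliq K w s = K.attach.image (fun j : K =>
      (some (some (j : ι), Units.mk0 (s / w j) (div_ne_zero hs (hw j j.2))) : Pt ι F)) := by
    ext p
    rw [mem_cliq, mem_image]
    constructor
    · rintro ⟨j, hj, g, rfl, hg⟩
      refine ⟨⟨j, hj⟩, mem_attach _ _, ?_⟩
      have h3 : Units.mk0 (s / w j) (div_ne_zero hs (hw j hj)) = g := by
        apply Units.ext
        rw [Units.val_mk0, ← hg]
        have := hw j hj
        field_simp
      rw [h3]
    · rintro ⟨j, _, rfl⟩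
      refine ⟨j, j.2, _, rfl, ?_⟩
      rw [Units.val_mk0]
      have := hw j j.2
      field_simp
  rw [h2, card_image_of_injective, card_attach]
  intro j j' h
  rw [Option.some.injEq, Prod.mk.injEq, Option.some.injEq] at h
  exact Subtype.ext h.1

omit [Fintype F] [DecidableEq F] [Fintype ι] in
/-- points of `cliq` on one line are equal -/
theorem cliq_row {M : Matrix ι ι F} {K : Finset ι} {w : ι → F} (hw : ∀ j ∈ K, w j ≠ 0)
    (hcol : ∀ j ∈ K, ∀ k ∈ K, j ≠ k → ∀ i, M i j * w k ≠ M i k * w j) {s : F}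
    {j j' : ι} (hj : j ∈ K) (hj' : j' ∈ K) {g g' : Fˣ} (hg : w j * g = s) (hg' : w j' * g' = s)
    {i : ι} (he : M i j * g = M i j' * g') : (some (some j, g) : Pt ι F) = some (some j', g') := by
  by_cases h : j = j'
  · subst h
    have h3 : (g : F) = g' := mul_left_cancel₀ (hw j hj) (hg.trans hg'.symm)
    rw [Units.ext h3]
  · exfalso
    apply hcol j hj j' hj' h i
    have h3 : ((g : F) * g') ≠ 0 := mul_ne_zero g.ne_zero g'.ne_zero
    apply mul_right_cancel₀ h3
    calc M i j * w j' * (g * g') = (M i j * g) * (w j' * g') := by ring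
      _ = (M i j' * g') * (w j * g) := by rw [he, hg, hg']
      _ = _ := by ring

/-- for each row `a ∈ K` at most one line of `x` misses the `a`-line of `(none, 1)` -/
theorem miss_unique {M : Matrix ι ι F} (hM : TwoReg M) (h1 : 1 < Fintype.card ι)
    (h0 : ∀ i, M i i = 0) (hι : Fintype.card ι = Fintype.card F) {v : ι → F} {K : Finset ι}
    {x : ι} (hx : x ∉ K) {a : K} (hv : v a ≠ 0) {h h' : F} (hh : h ≠ 0) (hh' : h' ≠ 0)
    (hm : a ∈ miss (lab M v K) (linh M x h) (some (none, 1)))
    (hm' : a ∈ miss (lab M v K) (linh M x h') (some (none, 1))) : h = h' := by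
  have hne : ∀ j, j ≠ x → M x j ≠ 0 := fun j hj h => hj (zero_unique_row hM h1 h (h0 x))
  have hax : (a : ι) ≠ x := fun e => hx (e ▸ a.2)
  set S : Finset F := (univ.erase x).image fun j => M a j / M x j with hS
  have hSc : S.card + 1 = Fintype.card F := by
    rw [hS, card_image_of_injOn, card_erase_of_mem (mem_univ _), card_univ, hι]
    · omega
    · intro j hj j' hj' e
      by_contra hjj
      have hj1 := hne j (mem_erase.1 hj).1
      have hj2 := hne j' (mem_erase.1 hj').1
      simp only at e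
      rw [div_eq_div_iff hj1 hj2] at e
      exact hM a x hax j j' hjj (sub_eq_zero.2 e)
  have key : ∀ k : F, k ≠ 0 → a ∈ miss (lab M v K) (linh M x k) (some (none, 1)) →
      v a / k ∉ S := by
    intro k hk hmk hmem
    rw [hS, mem_image] at hmem
    obtain ⟨j, hj, e⟩ := hmem
    have hj1 := hne j (mem_erase.1 hj).1
    rw [mem_miss] at hmk
    refine hmk (some (some j, Units.mk0 (k / M x j) (div_ne_zero hk hj1))) ?_ ?_
    · rw [mem_linh]
      refine ⟨j, _, rfl, ?_⟩
      rw [Units.val_mk0]
      field_simp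
    · rw [lab_some, lab_some, Units.val_mk0]
      simp only [ent, Units.val_one, mul_one]
      field_simp at e ⊢
      linear_combination e
  have h2 := key h hh hm
  have h3 := key h' hh' hm'
  by_contra hne'
  have h4 : v a / h ≠ v a / h' := by
    intro e
    rw [div_eq_div_iff hh hh'] at e
    exact hne' (mul_left_cancel₀ hv e).symm
  have h5 : insert (v a / h) (insert (v a / h') S) ⊆ univ := subset_univ _
  have h6 := card_le_card h5
  rw [card_insert_of_notMem, card_insert_of_notMem h3, card_univ] at h6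
  · omega
  · rw [mem_insert]
    rintro (h | h)
    · exact h4 h
    · exact h2 h

/-- the new column and zero -/
def newc (ι F : Type*) [Field F] [Fintype F] [DecidableEq F] [DecidableEq ι] :
    Finset (Pt ι F) :=
  insert none (univ.image fun h : Fˣ => (some (none, h) : Pt ι F))

omit [Fintype ι] in
theorem card_newc : (newc ι F).card = Fintype.card F := by
  have h0 : 0 < Fintype.card F := Fintype.card_pos
  unfold newc
  rw [card_insert_of_notMem (by simp), card_image_of_injective, card_univ, Fintype.card_units]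
  · omega
  · intro h h' e
    rw [Option.some.injEq, Prod.mk.injEq] at e
    exact e.2

omit [Fintype ι] in
theorem newc_far {M : Matrix ι ι F} {v : ι → F} {K : Finset ι} (hv : ∀ a ∈ K, v a ≠ 0) :
    ∀ z ∈ newc ι F, ∀ w ∈ newc ι F, z ≠ w → Far (lab M v K) z w := by
  intro z hz w hw hne a e
  unfold newc at hz hw
  rw [mem_insert, mem_image] at hz hw
  rcases hz with rfl | ⟨k, _, rfl⟩ <;> rcases hw with rfl | ⟨k', _, rfl⟩
  · exact hne rfl
  · rw [lab_none, lab_some] at e
    exact mul_ne_zero (hv a a.2) k'.ne_zero e.symm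
  · rw [lab_none, lab_some] at e
    exact mul_ne_zero (hv a a.2) k.ne_zero e
  · rw [lab_some, lab_some] at e
    apply hne
    have := mul_left_cancel₀ (hv a a.2) e
    rw [Units.ext this]

omit [Fintype ι] in
theorem mem_newc (g : Fˣ) : (some (none, g) : Pt ι F) ∈ newc ι F := by
  unfold newc
  rw [mem_insert, mem_image]
  exact Or.inr ⟨g, mem_univ _, rfl⟩

omit [Fintype ι] in
theorem not_newc (j : ι) (g : Fˣ) : (some (some j, g) : Pt ι F) ∉ newc ι F := by
  unfold newc
  rw [mem_insert, mem_image]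
  rintro (h | ⟨k, _, h⟩)
  · exact absurd h (by simp)
  · rw [Option.some.injEq, Prod.mk.injEq] at h
    exact absurd h.1 (by simp)

open Classical in
/-- points of the columns `K` far from `(none, 1)` -/
noncomputable def ys (M : Matrix ι ι F) (v : ι → F) (K : Finset ι) : Finset (Pt ι F) :=
  univ.filter fun p => (∃ j ∈ K, ∃ g : Fˣ, p = some (some j, g)) ∧
    Far (lab M v K) p (some (none, 1))

theorem mem_ys {M : Matrix ι ι F} {v : ι → F} {K : Finset ι} {p : Pt ι F} :
    p ∈ ys M v K ↔ (∃ j ∈ K, ∃ g : Fˣ, p = some (some j, g)) ∧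
      Far (lab M v K) p (some (none, 1)) := by
  unfold ys
  simp

theorem card_ys {M : Matrix ι ι F} (hM : TwoReg M) (h1 : 1 < Fintype.card ι)
    (h0 : ∀ i, M i i = 0) {v : ι → F} {K : Finset ι} (hv : ∀ a ∈ K, v a ≠ 0)
    (hN : IsNet (lab M v K)) {d : ℕ} (hd : K.card + d = Fintype.card F) :
    (ys M v K).card = K.card * d := by
  classical
  have hKc : Fintype.card K + d = Fintype.card F := by
    rw [Fintype.card_coe]
    exact hd
  have h2 : ys M v K = univ.biUnion fun a : K =>
      (univ.filter fun z => lab M v K z a = 0 ∧ Far (lab M v K) z (some (none, 1))).erase none := by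
    ext z
    rw [mem_ys, mem_biUnion]
    constructor
    · rintro ⟨⟨j, hj, g, rfl⟩, hf⟩
      refine ⟨⟨j, hj⟩, mem_univ _, ?_⟩
      rw [mem_erase, mem_filter]
      refine ⟨by simp, mem_univ _, ?_, hf⟩
      rw [lab_some]
      simp [ent, h0]
    · rintro ⟨a, _, hz⟩
      rw [mem_erase, mem_filter] at hz
      obtain ⟨hz0, _, hza, hf⟩ := hz
      refine ⟨?_, hf⟩
      rcases z with _ | ⟨j, g⟩
      · exact absurd rfl hz0
      · rw [lab_some] at hza
        have h3 := (mul_eq_zero.1 hza).resolve_right g.ne_zero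
        rcases j with _ | j
        · exact absurd h3 (hv a a.2)
        · have h4 : j = a := zero_unique_row hM h1 h3 (h0 a)
          exact ⟨j, h4 ▸ a.2, g, rfl⟩
  rw [h2, card_biUnion]
  · rw [sum_congr rfl fun a _ => (?_ : (((univ.filter fun z => lab M v K z a = 0 ∧
        Far (lab M v K) z (some (none, 1))).erase none)).card = d)]
    · rw [sum_const, card_univ, Fintype.card_coe, smul_eq_mul]
    · have h3 : lab M v K (some (none, 1)) a ≠ 0 := by
        rw [lab_some]
        exact mul_ne_zero (hv a a.2) (Units.ne_zero _)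
      have h4 := line_count hN hKc h3
      rw [card_erase_of_mem]
      · omega
      · rw [mem_filter]
        refine ⟨mem_univ _, rfl, ?_⟩
        intro b e
        rw [lab_none, lab_some] at e
        exact mul_ne_zero (hv b b.2) (Units.ne_zero _) e.symm
  · intro a _ b _ hab
    rw [Function.onFun, disjoint_left]
    intro z hz hz'
    rw [mem_erase, mem_filter] at hz hz'
    exact hab (hN.inj z none hz.1 a b (by rw [hz.2.2.1, lab_none]) (by rw [hz'.2.2.1, lab_none]))

/-- the value `w j * g` of a point -/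
def cval (w : ι → F) : Pt ι F → F
  | some (some j, g) => w j * g
  | _ => 0

/-- the value `M x j * g` of a point -/
def xval (M : Matrix ι ι F) (x : ι) : Pt ι F → F
  | some (some j, g) => M x j * g
  | _ => 0

theorem quad {M : Matrix ι ι F} (hM : TwoReg M) (h0 : ∀ i, M i i = 0)
    (hι : Fintype.card ι = Fintype.card F) {v : ι → F} {K : Finset ι} (hE : Extends M K v)
    (hK : 2 ≤ K.card) (hv : ∀ a ∈ K, v a ≠ 0) {d : ℕ} (hd : K.card + d = Fintype.card F)
    (hd2 : 2 ≤ d) (hq : 2 * d ^ 2 + 2 * d + 2 < Fintype.card F)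
    (hmax : ∀ x, x ∉ K → ∀ v', ¬ Extends M (insert x K) v') : False := by
  classical
  have h2F : 2 < Fintype.card F := by omega
  have h1 : 1 < Fintype.card ι := by omega
  have hN := isNet hM hι hE hK
  have hKc : Fintype.card K + d = Fintype.card F := by
    rw [Fintype.card_coe]
    exact hd
  have hXc : Fintype.card {x : ι // x ∉ K} = d := by
    rw [Fintype.card_subtype_compl, hι, Fintype.card_coe]
    omega
  obtain ⟨w, hw, hcol⟩ := colco hM h0 hι h2F hE hv
  set u : Pt ι F := some (none, 1) with hu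
  have huQ : u ∈ newc ι F := mem_newc 1
  have hQf := newc_far (M := M) hv
  have hQc : (newc ι F).card = Fintype.card F := card_newc
  -- lines are not completely far from `u`
  have hnl : ∀ x, x ∉ K → ∀ h, h ≠ 0 → ∀ g : Fˣ,
      ¬ ∀ z ∈ linh M x h, Far (lab M v K) z (some (none, g)) :=
    fun x hx h hh g hf => hmax x hx _ (extends_insert' hM h1 hE hx hh hf)
  have hlQ : ∀ x h, ∀ z ∈ linh M x h, z ∉ newc ι F := by
    intro x h z hz
    rw [mem_linh] at hz
    obtain ⟨j, g, rfl, _⟩ := hz
    exact not_newc j g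
  have hcQ : ∀ s, ∀ z ∈ cliq K w s, z ∉ newc ι F := by
    intro s z hz
    rw [mem_cliq] at hz
    obtain ⟨j, _, g, rfl, _⟩ := hz
    exact not_newc j g
  have hcf : ∀ s, ∀ z ∈ cliq K w s, ∀ z' ∈ cliq K w s, z ≠ z' → Far (lab M v K) z z' := by
    intro s z hz z' hz' hne a e
    rw [mem_cliq] at hz hz'
    obtain ⟨j, hj, g, rfl, hg⟩ := hz
    obtain ⟨j', hj', g', rfl, hg'⟩ := hz'
    rw [lab_some, lab_some] at e
    exact hne (cliq_row hw hcol hj hj' hg hg' e)
  -- at most one of the cliques is completely far from `u`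
  have hfull : ∀ s, s ≠ 0 → ∀ s', s' ≠ 0 → (∀ z ∈ cliq K w s, Far (lab M v K) z u) →
      (∀ z ∈ cliq K w s', Far (lab M v K) z u) → s = s' := by
    intro s hs s' hs' hf hf'
    by_contra hne
    have h3 : (∀ z ∈ cliq K w s,
        Far (lab M v K) z (some (none, Units.mk0 (s / s') (div_ne_zero hs hs')))) := by
      intro z hz a e
      rw [mem_cliq] at hz
      obtain ⟨j, hj, g, rfl, hg⟩ := hz
      have h4 : some (some j, g * Units.mk0 (s' / s) (div_ne_zero hs' hs)) ∈ cliq K w s' := by
        rw [mem_cliq]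
        refine ⟨j, hj, _, rfl, ?_⟩
        rw [Units.val_mul, Units.val_mk0, ← mul_assoc, hg]
        field_simp
      apply hf' _ h4 a
      rw [lab_some, lab_some, Units.val_mk0] at e
      rw [hu, lab_some, lab_some, Units.val_mul, Units.val_mk0]
      simp only [ent, Units.val_one, mul_one] at e ⊢
      rw [← mul_assoc, e]
      field_simp
    have h5 : u ≠ some (none, Units.mk0 (s / s') (div_ne_zero hs hs')) := by
      intro e
      rw [hu, Option.some.injEq, Prod.mk.injEq] at e
      have h6 := congrArg Units.val e.2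
      rw [Units.val_one, Units.val_mk0, eq_comm, div_eq_one_iff_eq hs'] at h6
      exact hne h6
    have h7 := two_full hN hKc hQf hQc huQ (mem_newc _) h5 (hcQ s) hf h3
    rw [card_cliq hw hs] at h7
    omega
  -- the points with their clique not completely far from `u`
  have hYc := card_ys hM h1 h0 hv hN hd
  set Y' := (ys M v K).filter fun y => ¬ ∀ z ∈ cliq K w (cval w y), Far (lab M v K) z u with hY'
  have hcv : ∀ y ∈ ys M v K, cval w y ≠ 0 ∧ y ∈ cliq K w (cval w y) := by
    intro y hy
    rw [mem_ys] at hy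
    obtain ⟨⟨j, hj, g, rfl⟩, _⟩ := hy
    refine ⟨mul_ne_zero (hw j hj) g.ne_zero, ?_⟩
    rw [mem_cliq]
    exact ⟨j, hj, g, rfl, rfl⟩
  have hY'c : K.card * d ≤ Y'.card + K.card := by
    have h3 := card_filter_add_card_filter_not (s := ys M v K)
      (p := fun y => ∀ z ∈ cliq K w (cval w y), Far (lab M v K) z u)
    have h4 : ((ys M v K).filter fun y => ∀ z ∈ cliq K w (cval w y),
        Far (lab M v K) z u).card ≤ K.card := by
      rcases ((ys M v K).filter fun y => ∀ z ∈ cliq K w (cval w y),
        Far (lab M v K) z u).eq_empty_or_nonempty with h5 | ⟨y₁, hy₁⟩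
      · rw [h5, card_empty]
        omega
      · rw [mem_filter] at hy₁
        have h6 := hcv y₁ hy₁.1
        rw [← card_cliq hw h6.1]
        refine card_le_card ?_
        intro y hy
        rw [mem_filter] at hy
        have h7 := hcv y hy.1
        rw [hfull _ h6.1 _ h7.1 hy₁.2 hy.2]
        exact h7.2
    have h8 : ((ys M v K).filter fun y => ¬ ∀ z ∈ cliq K w (cval w y),
        Far (lab M v K) z u).card = Y'.card := rfl
    omega
  have hxv : ∀ x, x ∉ K → ∀ y ∈ ys M v K, xval M x y ≠ 0 ∧ y ∈ linh M x (xval M x y) := by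
    intro x hx y hy
    rw [mem_ys] at hy
    obtain ⟨⟨j, hj, g, rfl⟩, _⟩ := hy
    refine ⟨mul_ne_zero ?_ g.ne_zero, ?_⟩
    · intro h
      have h3 : x = j := zero_unique_col hM h1 h (h0 j)
      exact hx (h3 ▸ hj)
    · rw [mem_linh]
      exact ⟨j, g, rfl, rfl⟩
  -- the inequality for one point
  have hpt : ∀ y ∈ Y', Fintype.card F ≤
      ∑ x : {x : ι // x ∉ K}, (miss (lab M v K) (linh M x (xval M x y)) u).card + (d ^ 2 + d) := by
    intro y hy
    rw [hY', mem_filter] at hy
    obtain ⟨hy, hny⟩ := hy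
    have h3 := hcv y hy
    have h4 := mem_ys.1 hy
    have h5 := far_sum (u := u) hN hKc h4.2 hXc (fun x => linh M x.1 (xval M x.1 y))
      (fun x => (hxv x.1 x.2 y hy).2)
      (fun x => card_linh hM h1 h0 hι (hxv x.1 x.2 y hy).1)
      (fun x z hz z' hz' hne => linh_far hM x.2 (hxv x.1 x.2 y hy).1 hz hz' hne)
      (fun x x' hxx z hz hz' => linh_meet hM (fun e => hxx (Subtype.ext e))
        (hxv x.1 x.2 y hy).1 hz hz' (hxv x.1 x.2 y hy).2 (hxv x'.1 x'.2 y hy).2)
      (fun x h => hlQ x.1 _ _ h huQ) h3.2 (by rw [card_cliq hw h3.1]; exact hd)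
      (hcf (cval w y))
      (fun x z hz hz' => by
        rw [mem_linh] at hz
        obtain ⟨j, g, rfl, hg⟩ := hz
        rw [mem_cliq] at hz'
        obtain ⟨j', hj', g', e, hg'⟩ := hz'
        rw [Option.some.injEq, Prod.mk.injEq, Option.some.injEq] at e
        obtain ⟨rfl, rfl⟩ := e
        have h6 := h3.2
        have h7 := (hxv x.1 x.2 y hy).2
        rw [mem_linh] at h7
        obtain ⟨k, f, hyk, hf⟩ := h7
        rw [mem_cliq] at h6
        obtain ⟨k', hk', f', hyk', hf'⟩ := h6
        rw [hyk, Option.some.injEq, Prod.mk.injEq, Option.some.injEq] at hyk'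
        obtain ⟨rfl, rfl⟩ := hyk'
        rw [hyk]
        exact cliq_row hw hcol hj' hk' hg' hf' (hg.trans hf.symm))
      (fun h => hcQ _ _ h huQ)
    have h6 := dicho2 hN hKc hQf hQc huQ (hcf (cval w y)) (hcQ (cval w y)) hny
    omega
  -- the sum over `y` for one row
  have hrow : ∀ x : {x : ι // x ∉ K},
      ∑ y ∈ Y', (miss (lab M v K) (linh M x (xval M x y)) u).card ≤ K.card * d ^ 2 := by
    intro x
    have h3 : ∀ y ∈ Y', (miss (lab M v K) (linh M x (xval M x y)) u).card =
        ∑ a : K, if a ∈ miss (lab M v K) (linh M x (xval M x y)) u then 1 else 0 := by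
      intro y _
      rw [← card_filter]
      congr 1
      ext a
      simp
    rw [sum_congr rfl h3, sum_comm]
    have h4 : ∀ a : K, (∑ y ∈ Y', if a ∈ miss (lab M v K) (linh M x (xval M x y)) u
        then 1 else 0) ≤ d ^ 2 := by
      intro a
      rw [← card_filter]
      rcases (Y'.filter fun y => a ∈ miss (lab M v K) (linh M x (xval M x y))
        u).eq_empty_or_nonempty with h5 | ⟨y₁, hy₁⟩
      · rw [h5, card_empty]
        exact Nat.zero_le _
      · rw [mem_filter, hY', mem_filter] at hy₁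
        have h6 := hxv x.1 x.2 y₁ hy₁.1.1
        refine le_trans (card_le_card ?_) (dicho2 hN hKc hQf hQc huQ
          (fun z hz z' hz' hne => linh_far hM x.2 h6.1 hz hz' hne) (hlQ x.1 (xval M x.1 y₁))
          (hnl x.1 x.2 _ h6.1 1))
        intro y hy
        rw [mem_filter, hY', mem_filter] at hy
        rw [mem_filter]
        have h7 := hxv x.1 x.2 y hy.1.1
        have h8 := miss_unique hM h1 h0 hι x.2 (hv a a.2) h6.1 h7.1 hy₁.2 hy.2
        rw [h8]
        exact ⟨h7.2, (mem_ys.1 hy.1.1).2⟩
    calc _ ≤ ∑ _a : K, d ^ 2 := sum_le_sum fun a _ => h4 a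
      _ = K.card * d ^ 2 := by rw [sum_const, card_univ, Fintype.card_coe, smul_eq_mul]
  have hsum : Y'.card * Fintype.card F ≤ d * (K.card * d ^ 2) + Y'.card * (d ^ 2 + d) := by
    calc Y'.card * Fintype.card F = ∑ _y ∈ Y', Fintype.card F := by
          rw [sum_const, smul_eq_mul]
      _ ≤ ∑ y ∈ Y', (∑ x : {x : ι // x ∉ K},
            (miss (lab M v K) (linh M x (xval M x y)) u).card + (d ^ 2 + d)) :=
          sum_le_sum hpt
      _ = ∑ x : {x : ι // x ∉ K}, ∑ y ∈ Y',
            (miss (lab M v K) (linh M x (xval M x y)) u).card + Y'.card * (d ^ 2 + d) := by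
          rw [sum_add_distrib, sum_const, smul_eq_mul, sum_comm]
      _ ≤ ∑ _x : {x : ι // x ∉ K}, K.card * d ^ 2 + Y'.card * (d ^ 2 + d) :=
          Nat.add_le_add_right (sum_le_sum fun x _ => hrow x) _
      _ = _ := by
          rw [sum_const, card_univ, hXc, smul_eq_mul]
  -- arithmetic
  obtain ⟨e, he⟩ : ∃ e, d = e + 2 := ⟨d - 2, by omega⟩
  have h9 : K.card * (e + 1) ≤ Y'.card := by
    have : K.card * d = K.card * (e + 1) + K.card := by
      rw [he]
      ring
    omega
  have h10 : 2 * d ^ 2 + 2 * d + 3 ≤ Fintype.card F := by omega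
  have h11 : Y'.card * (2 * d ^ 2 + 2 * d + 3) ≤
      d * (K.card * d ^ 2) + Y'.card * (d ^ 2 + d) :=
    le_trans (Nat.mul_le_mul_left _ h10) hsum
  have h12 : Y'.card * (d ^ 2 + d + 3) ≤ K.card * d ^ 3 := by
    have h13 : Y'.card * (2 * d ^ 2 + 2 * d + 3) =
        Y'.card * (d ^ 2 + d + 3) + Y'.card * (d ^ 2 + d) := by ring
    have h14 : d * (K.card * d ^ 2) = K.card * d ^ 3 := by ring
    omega
  have h15 : K.card * (e + 1) * (d ^ 2 + d + 3) ≤ K.card * d ^ 3 :=
    le_trans (Nat.mul_le_mul_right _ h9) h12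
  have h16 : (e + 1) * (d ^ 2 + d + 3) ≤ d ^ 3 := by
    rw [mul_assoc] at h15
    exact Nat.le_of_mul_le_mul_left h15 (by omega)
  rw [he] at h16
  nlinarith [h16]

end Pool.MP_0af767_co
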