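import Pool.Agent.Lib.MP_0af767_co.CohMain
import Pool.Agent.Lib.MP_0af767_co.Quad

/-!
# MP_0af767_co: at most `q - d` rows of an AONT extend by one column, `2 d² + 2 d + 2 ≥ q`
-/

set_option autoImplicit false

namespace Pool.MP_0af767_co

open Finset Matrix

variable {F : Type*} [Field F] {ι : Type*}
variable [Fintype F] [DecidableEq F] [Fintype ι] [DecidableEq ι]

theorem main2 (hF : ¬ (Fintype.card F).Prime) {M : Matrix ι ι F} (hM : IsAONT M)
    (hι : Fintype.card ι = Fintype.card F) (d : ℕ) :
    ∀ (K : Finset ι) (v : ι → F), K.card + d = Fintype.card F →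
      2 * d ^ 2 + 2 * d + 2 < Fintype.card F → ¬ Extends M K v := by
  classical
  induction d with
  | zero =>
    intro K v hK hq hE
    exact main hF hM hι 0 K v hK (by omega) hE
  | succ d ih =>
    intro K v hK hq hE
    rcases Nat.eq_zero_or_pos d with rfl | hdpos
    · exact main hF hM hι 1 K v hK (by omega) hE
    have hd2 : (d + 1) ≤ (d + 1) ^ 2 := Nat.le_self_pow (by norm_num) _
    have h2F : 2 < Fintype.card F := by omega
    have h1ι : 1 < Fintype.card ι := by omega
    have hK2 : 2 ≤ K.card := by omega
    choose s hs using fun a => exists_zero_row hM hι h2F a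
    have hsinj : Function.Injective s := by
      intro a b hab
      exact zero_unique_col hM.2 h1ι (hs a) (by rw [hab]; exact hs b)
    have hsb : Function.Bijective s := Finite.injective_iff_bijective.1 hsinj
    have hT : TwoReg (M.submatrix id s) := by
      intro a b hab j j' hj
      exact hM.2 a b hab (s j) (s j') (fun e => hj (hsinj e))
    refine quad (M := M.submatrix id s) hT (fun i => hs i) hι (v := v) (K := K) ?_ hK2
      (fun a ha => new_ne hM hι h2F hE hK2 ha) hK (by omega) hq ?_
    · intro a ha b hb hab j
      exact hE a ha b hb hab (s j)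
    · intro x hx v' hE'
      refine ih (insert x K) v' ?_ ?_ ?_
      · rw [card_insert_of_notMem hx]
        omega
      · have h3 : d ^ 2 ≤ (d + 1) ^ 2 := Nat.pow_le_pow_left (by omega) 2
        omega
      · intro a ha b hb hab j
        obtain ⟨j', rfl⟩ := hsb.2 j
        exact hE' a ha b hb hab j'

end Pool.MP_0af767_co
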