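import Pool.Agent.Lib.MP_0af767_co.Near

/-!
# MP_0af767_co: the bound `max (d²) (4 d + 2)`, `d ≥ 2`

`M` has zero diagonal, the rows `K` extend by `v`, no larger set `K ∪ {x}` extends,
`d = q - |K| ≥ 2`, `d² < q` and `4 d + 2 < q`. Contradiction.
-/

set_option autoImplicit false

namespace Pool.MP_0af767_co

open Finset Matrix Net

variable {F : Type*} [Field F] {ι : Type*}
variable [Fintype F] [DecidableEq F] [Fintype ι] [DecidableEq ι]

theorem quad2 {M : Matrix ι ι F} (hM : TwoReg M) (h0 : ∀ i, M i i = 0)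
    (hι : Fintype.card ι = Fintype.card F) {v : ι → F} {K : Finset ι} (hE : Extends M K v)
    (hK : 2 ≤ K.card) (hv : ∀ a ∈ K, v a ≠ 0) {d : ℕ} (hd : K.card + d = Fintype.card F)
    (hd2 : 2 ≤ d) (hq1 : d ^ 2 < Fintype.card F) (hq2 : 4 * d + 2 < Fintype.card F)
    (hmax : ∀ x, x ∉ K → ∀ v', ¬ Extends M (insert x K) v') : False := by
  classical
  have h2F : 2 < Fintype.card F := by omega
  have h1 : 1 < Fintype.card ι := by omega
  have hN := isNet hM hι hE hK
  have hKc : Fintype.card K + d = Fintype.card F := by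
    rw [Fintype.card_coe]
    exact hd
  have hXc : Fintype.card {x : ι // x ∉ K} = d := by
    rw [Fintype.card_subtype_compl, hι, Fintype.card_coe]
    omega
  obtain ⟨w, hw, hcol⟩ := colco hM h0 hι h2F hE hv
  set u : Pt ι F := some (none, 1) with hu
  have huQ : u ∈ newc ι F := mem_newc 1
  have hQf := newc_far (M := M) hv
  have hQc : (newc ι F).card = Fintype.card F := card_newc
  -- lines are not completely far from `u`
  have hnl : ∀ x, x ∉ K → ∀ h, h ≠ 0 → ∀ g : Fˣ,
      ¬ ∀ z ∈ linh M x h, Far (lab M v K) z (some (none, g)) :=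
    fun x hx h hh g hf => hmax x hx _ (extends_insert' hM h1 hE hx hh hf)
  have hmle : ∀ x, x ∉ K → ∀ h, h ≠ 0 → (miss (lab M v K) (linh M x h) u).card ≤ d := by
    intro x hx h hh
    have h3 := hnl x hx h hh 1
    push Not at h3
    obtain ⟨z, hz, hf⟩ := h3
    rw [mem_linh] at hz
    obtain ⟨j, g, rfl, hg⟩ := hz
    by_cases hj : j ∈ K
    · have h4 := (near_main hM h0 hι h2F hE hK hv hd hw hcol 1 hj g hf).1 x hx
      rw [hg] at h4
      exact h4
    · have hxj : x ≠ j := by
        rintro rfl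
        rw [h0, zero_mul] at hg
        exact hh hg.symm
      have h4 := near_other hM h0 hι h2F hE hK hv hd 1 hj g hf x hx hxj
      rw [hg] at h4
      exact h4
  have hlQ : ∀ x h, ∀ z ∈ linh M x h, z ∉ newc ι F := by
    intro x h z hz
    rw [mem_linh] at hz
    obtain ⟨j, g, rfl, _⟩ := hz
    exact not_newc j g
  have hcQ : ∀ s, ∀ z ∈ cliq K w s, z ∉ newc ι F := by
    intro s z hz
    rw [mem_cliq] at hz
    obtain ⟨j, _, g, rfl, _⟩ := hz
    exact not_newc j g
  have hcf : ∀ s, ∀ z ∈ cliq K w s, ∀ z' ∈ cliq K w s, z ≠ z' → Far (lab M v K) z z' := by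
    intro s z hz z' hz' hne a e
    rw [mem_cliq] at hz hz'
    obtain ⟨j, hj, g, rfl, hg⟩ := hz
    obtain ⟨j', hj', g', rfl, hg'⟩ := hz'
    rw [lab_some, lab_some] at e
    exact hne (cliq_row hw hcol hj hj' hg hg' e)
  -- at most one of the cliques is completely far from `u`
  have hfull : ∀ s, s ≠ 0 → ∀ s', s' ≠ 0 → (∀ z ∈ cliq K w s, Far (lab M v K) z u) →
      (∀ z ∈ cliq K w s', Far (lab M v K) z u) → s = s' := by
    intro s hs s' hs' hf hf'
    by_contra hne
    have h3 : (∀ z ∈ cliq K w s,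
        Far (lab M v K) z (some (none, Units.mk0 (s / s') (div_ne_zero hs hs')))) := by
      intro z hz a e
      rw [mem_cliq] at hz
      obtain ⟨j, hj, g, rfl, hg⟩ := hz
      have h4 : some (some j, g * Units.mk0 (s' / s) (div_ne_zero hs' hs)) ∈ cliq K w s' := by
        rw [mem_cliq]
        refine ⟨j, hj, _, rfl, ?_⟩
        rw [Units.val_mul, Units.val_mk0, ← mul_assoc, hg]
        field_simp
      apply hf' _ h4 a
      rw [lab_some, lab_some, Units.val_mk0] at e
      rw [hu, lab_some, lab_some, Units.val_mul, Units.val_mk0]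
      simp only [ent, Units.val_one, mul_one] at e ⊢
      rw [← mul_assoc, e]
      field_simp
    have h5 : u ≠ some (none, Units.mk0 (s / s') (div_ne_zero hs hs')) := by
      intro e
      rw [hu, Option.some.injEq, Prod.mk.injEq] at e
      have h6 := congrArg Units.val e.2
      rw [Units.val_one, Units.val_mk0, eq_comm, div_eq_one_iff_eq hs'] at h6
      exact hne h6
    have h7 := two_full hN hKc hQf hQc huQ (mem_newc _) h5 (hcQ s) hf h3
    rw [card_cliq hw hs] at h7
    omega
  -- the points with their clique not completely far from `u`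
  have hYc := card_ys hM h1 h0 hv hN hd
  set Y' := (ys M v K).filter fun y => ¬ ∀ z ∈ cliq K w (cval w y), Far (lab M v K) z u with hY'
  have hcv : ∀ y ∈ ys M v K, cval w y ≠ 0 ∧ y ∈ cliq K w (cval w y) := by
    intro y hy
    rw [mem_ys] at hy
    obtain ⟨⟨j, hj, g, rfl⟩, _⟩ := hy
    refine ⟨mul_ne_zero (hw j hj) g.ne_zero, ?_⟩
    rw [mem_cliq]
    exact ⟨j, hj, g, rfl, rfl⟩
  have hY'c : K.card * d ≤ Y'.card + K.card := by
    have h3 := card_filter_add_card_filter_not (s := ys M v K)
      (p := fun y => ∀ z ∈ cliq K w (cval w y), Far (lab M v K) z u)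
    have h4 : ((ys M v K).filter fun y => ∀ z ∈ cliq K w (cval w y),
        Far (lab M v K) z u).card ≤ K.card := by
      rcases ((ys M v K).filter fun y => ∀ z ∈ cliq K w (cval w y),
        Far (lab M v K) z u).eq_empty_or_nonempty with h5 | ⟨y₁, hy₁⟩
      · rw [h5, card_empty]
        omega
      · rw [mem_filter] at hy₁
        have h6 := hcv y₁ hy₁.1
        rw [← card_cliq hw h6.1]
        refine card_le_card ?_
        intro y hy
        rw [mem_filter] at hy
        have h7 := hcv y hy.1
        rw [hfull _ h6.1 _ h7.1 hy₁.2 hy.2]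
        exact h7.2
    have h8 : ((ys M v K).filter fun y => ¬ ∀ z ∈ cliq K w (cval w y),
        Far (lab M v K) z u).card = Y'.card := rfl
    omega
  have hxv : ∀ x, x ∉ K → ∀ y ∈ ys M v K, xval M x y ≠ 0 ∧ y ∈ linh M x (xval M x y) := by
    intro x hx y hy
    rw [mem_ys] at hy
    obtain ⟨⟨j, hj, g, rfl⟩, _⟩ := hy
    refine ⟨mul_ne_zero ?_ g.ne_zero, ?_⟩
    · intro h
      have h3 : x = j := zero_unique_col hM h1 h (h0 j)
      exact hx (h3 ▸ hj)
    · rw [mem_linh]
      exact ⟨j, g, rfl, rfl⟩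
  -- the inequality for one point
  have hpt : ∀ y ∈ Y', Fintype.card F ≤
      ∑ x : {x : ι // x ∉ K}, (miss (lab M v K) (linh M x (xval M x y)) u).card + 2 * d := by
    intro y hy
    rw [hY', mem_filter] at hy
    obtain ⟨hy, hny⟩ := hy
    have h3 := hcv y hy
    have h4 := mem_ys.1 hy
    have h5 := far_sum (u := u) hN hKc h4.2 hXc (fun x => linh M x.1 (xval M x.1 y))
      (fun x => (hxv x.1 x.2 y hy).2)
      (fun x => card_linh hM h1 h0 hι (hxv x.1 x.2 y hy).1)
      (fun x z hz z' hz' hne => linh_far hM x.2 (hxv x.1 x.2 y hy).1 hz hz' hne)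
      (fun x x' hxx z hz hz' => linh_meet hM (fun e => hxx (Subtype.ext e))
        (hxv x.1 x.2 y hy).1 hz hz' (hxv x.1 x.2 y hy).2 (hxv x'.1 x'.2 y hy).2)
      (fun x h => hlQ x.1 _ _ h huQ) h3.2 (by rw [card_cliq hw h3.1]; exact hd)
      (hcf (cval w y))
      (fun x z hz hz' => by
        rw [mem_linh] at hz
        obtain ⟨j, g, rfl, hg⟩ := hz
        rw [mem_cliq] at hz'
        obtain ⟨j', hj', g', e, hg'⟩ := hz'
        rw [Option.some.injEq, Prod.mk.injEq, Option.some.injEq] at e
        obtain ⟨rfl, rfl⟩ := e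
        have h6 := h3.2
        have h7 := (hxv x.1 x.2 y hy).2
        rw [mem_linh] at h7
        obtain ⟨k, f, hyk, hf⟩ := h7
        rw [mem_cliq] at h6
        obtain ⟨k', hk', f', hyk', hf'⟩ := h6
        rw [hyk, Option.some.injEq, Prod.mk.injEq, Option.some.injEq] at hyk'
        obtain ⟨rfl, rfl⟩ := hyk'
        rw [hyk]
        exact cliq_row hw hcol hj' hk' hg' hf' (hg.trans hf.symm))
      (fun h => hcQ _ _ h huQ)
    have h6 : ((cliq K w (cval w y)).filter fun z => Far (lab M v K) z u).card ≤ d := by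
      push Not at hny
      obtain ⟨z, hz, hzf⟩ := hny
      rw [mem_cliq] at hz
      obtain ⟨j, hj, g, rfl, hg⟩ := hz
      have h7 := (near_main hM h0 hι h2F hE hK hv hd hw hcol 1 hj g hzf).2
      rw [hg] at h7
      exact h7
    omega
  -- the sum over `y` for one row
  have hrow : ∀ x : {x : ι // x ∉ K},
      ∑ y ∈ Y', (miss (lab M v K) (linh M x (xval M x y)) u).card ≤ K.card * (2 * d - 1) := by
    intro x
    have h3 : ∀ y ∈ Y', (miss (lab M v K) (linh M x (xval M x y)) u).card =
        ∑ a : K, if a ∈ miss (lab M v K) (linh M x (xval M x y)) u then 1 else 0 := by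
      intro y _
      rw [← card_filter]
      congr 1
      ext a
      simp
    rw [sum_congr rfl h3, sum_comm]
    have h4 : ∀ a : K, (∑ y ∈ Y', if a ∈ miss (lab M v K) (linh M x (xval M x y)) u
        then 1 else 0) ≤ 2 * d - 1 := by
      intro a
      rw [← card_filter]
      rcases (Y'.filter fun y => a ∈ miss (lab M v K) (linh M x (xval M x y))
        u).eq_empty_or_nonempty with h5 | ⟨y₁, hy₁⟩
      · rw [h5, card_empty]
        exact Nat.zero_le _
      · rw [mem_filter, hY', mem_filter] at hy₁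
        have h6 := hxv x.1 x.2 y₁ hy₁.1.1
        have hfc : ((linh M x.1 (xval M x.1 y₁)).filter fun z =>
            Far (lab M v K) z u).card ≤ 2 * d - 1 := by
          have h9 := clique_count hN
            (fun z hz z' hz' hne => linh_far hM x.2 h6.1 hz hz' hne)
            (fun h => hlQ x.1 (xval M x.1 y₁) _ h huQ)
          have h10 := card_linh (x := x.1) hM h1 h0 hι h6.1
          have h11 := hmle x.1 x.2 _ h6.1
          omega
        refine le_trans (card_le_card ?_) hfc
        intro y hy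
        rw [mem_filter, hY', mem_filter] at hy
        rw [mem_filter]
        have h7 := hxv x.1 x.2 y hy.1.1
        have h8 := miss_unique hM h1 h0 hι x.2 (hv a a.2) h6.1 h7.1 hy₁.2 hy.2
        rw [h8]
        exact ⟨h7.2, (mem_ys.1 hy.1.1).2⟩
    calc _ ≤ ∑ _a : K, (2 * d - 1) := sum_le_sum fun a _ => h4 a
      _ = K.card * (2 * d - 1) := by rw [sum_const, card_univ, Fintype.card_coe, smul_eq_mul]
  have hsum : Y'.card * Fintype.card F ≤ d * (K.card * (2 * d - 1)) + Y'.card * (2 * d) := by
    calc Y'.card * Fintype.card F = ∑ _y ∈ Y', Fintype.card F := by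
          rw [sum_const, smul_eq_mul]
      _ ≤ ∑ y ∈ Y', (∑ x : {x : ι // x ∉ K},
            (miss (lab M v K) (linh M x (xval M x y)) u).card + 2 * d) :=
          sum_le_sum hpt
      _ = ∑ x : {x : ι // x ∉ K}, ∑ y ∈ Y',
            (miss (lab M v K) (linh M x (xval M x y)) u).card + Y'.card * (2 * d) := by
          rw [sum_add_distrib, sum_const, smul_eq_mul, sum_comm]
      _ ≤ ∑ _x : {x : ι // x ∉ K}, K.card * (2 * d - 1) + Y'.card * (2 * d) :=
          Nat.add_le_add_right (sum_le_sum fun x _ => hrow x) _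
      _ = _ := by
          rw [sum_const, card_univ, hXc, smul_eq_mul]
  -- arithmetic
  obtain ⟨e, he⟩ : ∃ e, d = e + 2 := ⟨d - 2, by omega⟩
  have h9 : K.card * (e + 1) ≤ Y'.card := by
    have : K.card * d = K.card * (e + 1) + K.card := by
      rw [he]
      ring
    omega
  have h10 : 4 * d + 3 ≤ Fintype.card F := by omega
  have h11 : Y'.card * (4 * d + 3) ≤ d * (K.card * (2 * d - 1)) + Y'.card * (2 * d) :=
    le_trans (Nat.mul_le_mul_left _ h10) hsum
  have h12 : Y'.card * (2 * d + 3) ≤ K.card * (d * (2 * d - 1)) := by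
    have h13 : Y'.card * (4 * d + 3) = Y'.card * (2 * d + 3) + Y'.card * (2 * d) := by ring
    have h14 : d * (K.card * (2 * d - 1)) = K.card * (d * (2 * d - 1)) := by ring
    omega
  have h15 : K.card * (e + 1) * (2 * d + 3) ≤ K.card * (d * (2 * d - 1)) :=
    le_trans (Nat.mul_le_mul_right _ h9) h12
  have h16 : (e + 1) * (2 * d + 3) ≤ d * (2 * d - 1) := by
    rw [mul_assoc] at h15
    exact Nat.le_of_mul_le_mul_left h15 (by omega)
  have h17 : 2 * d - 1 = 2 * e + 3 := by omega
  rw [h17, he] at h16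
  nlinarith [h16]

end Pool.MP_0af767_co
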