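import Pool.Agent.Lib.MP_0af767_co.Net
import Pool.Agent.Lib.MP_0af767_co.Coh

/-!
# MP_0af767_co: rows of an AONT that can be extended by one column

The rows `K` of the AONT `M` extend by the column `v`, `|K| = q - d`. The `q²` vectors `0` and
`g · (column j)`, `g ≠ 0`, `j` one of the `q + 1` columns, form a net of order `q` with the
coordinates `K`. The rows of `M` outside `K` give cliques of size `q - 1` of this net, and
`Net.complete` is applied to the cliques through a column of `M` with a zero in a row of `K`.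
-/

set_option autoImplicit false

namespace Pool.MP_0af767_co

open Finset Matrix Net

variable {F : Type*} [Field F] {ι : Type*}

/-- entries of the extended rows -/
def ent (M : Matrix ι ι F) (v : ι → F) (a : ι) : Option ι → F
  | none => v a
  | some j => M a j

/-- the points of the net: the zero vector and the multiples of the `q + 1` columns -/
abbrev Pt (ι F : Type*) [Field F] := Option (Option ι × Fˣ)

/-- the coordinates of the points -/
def lab (M : Matrix ι ι F) (v : ι → F) (K : Finset ι) (p : Pt ι F) (a : K) : F :=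
  match p with
  | none => 0
  | some (j, g) => ent M v a j * g

theorem lab_none (M : Matrix ι ι F) (v : ι → F) (K : Finset ι) (a : K) :
    lab M v K none a = 0 := rfl

theorem lab_some (M : Matrix ι ι F) (v : ι → F) (K : Finset ι) (a : K) (j : Option ι) (g : Fˣ) :
    lab M v K (some (j, g)) a = ent M v a j * g := rfl

theorem ent_two {M : Matrix ι ι F} (hM : TwoReg M) {v : ι → F} {K : Finset ι}
    (hE : Extends M K v) {a b : ι} (ha : a ∈ K) (hb : b ∈ K) (hab : a ≠ b) {j j' : Option ι}
    (hj : j ≠ j') : ent M v a j * ent M v b j' ≠ ent M v a j' * ent M v b j := by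
  rcases j with _ | j <;> rcases j' with _ | j'
  · exact absurd rfl hj
  · have h1 := hE a ha b hb hab j'
    simp only [ent]
    intro h
    exact h1 (by rw [← h]; ring)
  · have h1 := hE a ha b hb hab j
    simp only [ent]
    intro h
    exact h1 (by rw [h]; ring)
  · simp only [ent]
    intro h
    exact hM a b hab j j' (fun e => hj (by rw [e])) (sub_eq_zero.2 h)

theorem ent_zero {M : Matrix ι ι F} (hM : TwoReg M) {v : ι → F} {K : Finset ι}
    (hE : Extends M K v) {a b : ι} (ha : a ∈ K) (hb : b ∈ K) (hab : a ≠ b) {j : Option ι}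
    (h : ent M v a j = 0) (h' : ent M v b j = 0) : False := by
  obtain ⟨j', hj'⟩ : ∃ j' : Option ι, j ≠ j' := by
    rcases j with _ | j
    · exact ⟨some a, by simp⟩
    · exact ⟨none, by simp⟩
  apply ent_two hM hE ha hb hab hj'
  rw [h, h']
  ring

variable [Fintype F] [DecidableEq F] [Fintype ι] [DecidableEq ι]

theorem isNet {M : Matrix ι ι F} (hM : TwoReg M) (hι : Fintype.card ι = Fintype.card F)
    {v : ι → F} {K : Finset ι} (hE : Extends M K v) (hK : 2 ≤ K.card) :
    IsNet (lab M v K) := by
  refine ⟨?_, ?_, ?_⟩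
  · rw [Fintype.card_option, Fintype.card_prod, Fintype.card_option, hι, Fintype.card_units]
    have h1 : 0 < Fintype.card F := Fintype.card_pos
    obtain ⟨Q, hQ⟩ : ∃ Q, Fintype.card F = Q + 1 := ⟨Fintype.card F - 1, by omega⟩
    rw [hQ, Nat.add_sub_cancel]
    ring
  · rwa [Fintype.card_coe]
  · intro z w hzw a b h1 h2
    by_contra hab
    have hab' : (a : ι) ≠ b := fun e => hab (Subtype.ext e)
    rcases z with _ | ⟨j, g⟩ <;> rcases w with _ | ⟨j', g'⟩
    · exact hzw rfl
    · rw [lab_none, lab_some] at h1 h2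
      exact ent_zero hM hE a.2 b.2 hab' ((mul_eq_zero.1 h1.symm).resolve_right g'.ne_zero)
        ((mul_eq_zero.1 h2.symm).resolve_right g'.ne_zero)
    · rw [lab_none, lab_some] at h1 h2
      exact ent_zero hM hE a.2 b.2 hab' ((mul_eq_zero.1 h1).resolve_right g.ne_zero)
        ((mul_eq_zero.1 h2).resolve_right g.ne_zero)
    · rw [lab_some, lab_some] at h1 h2
      by_cases hj : j = j'
      · subst hj
        have hg : (g : F) ≠ g' := by
          intro e
          exact hzw (by rw [Units.ext e])
        have h3 : ∀ c : F, c * g = c * g' → c = 0 := by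
          intro c hc
          have h4 : c * ((g : F) - g') = 0 := by
            rw [mul_sub, hc, sub_self]
          exact (mul_eq_zero.1 h4).resolve_right (sub_ne_zero.2 hg)
        exact ent_zero hM hE a.2 b.2 hab' (h3 _ h1) (h3 _ h2)
      · apply ent_two hM hE a.2 b.2 hab' hj
        have h3 : ((g : F) * g') ≠ 0 := mul_ne_zero g.ne_zero g'.ne_zero
        apply mul_right_cancel₀ h3
        calc ent M v a j * ent M v b j' * (g * g') = (ent M v a j * g) * (ent M v b j' * g') := by
              ring
          _ = (ent M v a j' * g') * (ent M v b j * g) := by rw [h1, h2]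
          _ = _ := by ring

open Classical in
/-- the line of the row `x` through the point `(j₀, 1)` -/
noncomputable def lin (M : Matrix ι ι F) (x j₀ : ι) : Finset (Pt ι F) :=
  univ.filter fun p => ∃ j, ∃ g : Fˣ, p = some (some j, g) ∧ M x j * g = M x j₀

omit [DecidableEq F] in
theorem mem_lin {M : Matrix ι ι F} {x j₀ : ι} {p : Pt ι F} [DecidableEq F] :
    p ∈ lin M x j₀ ↔ ∃ j, ∃ g : Fˣ, p = some (some j, g) ∧ M x j * g = M x j₀ := by
  unfold lin
  simp

theorem base_mem {M : Matrix ι ι F} (x j₀ : ι) : some (some j₀, 1) ∈ lin M x j₀ := by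
  rw [mem_lin]
  exact ⟨j₀, 1, rfl, by simp⟩

theorem card_lin {M : Matrix ι ι F} (hM : TwoReg M) (h1 : 1 < Fintype.card ι)
    (hι : Fintype.card ι = Fintype.card F) {x j₀ : ι} (h0 : M x j₀ ≠ 0) {z : ι} (hz : M x z = 0) :
    (lin M x j₀).card + 1 = Fintype.card F := by
  have hne : ∀ j, j ≠ z → M x j ≠ 0 := fun j hj h => hj (zero_unique_row hM h1 h hz)
  have h2 : lin M x j₀ = (univ.erase z).attach.image (fun j : univ.erase z =>
      (some (some (j : ι), Units.mk0 (M x j₀ / M x j)
        (div_ne_zero h0 (hne j (mem_erase.1 j.2).1))) : Pt ι F)) := by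
    ext p
    rw [mem_lin, mem_image]
    constructor
    · rintro ⟨j, g, rfl, hg⟩
      have hj : M x j ≠ 0 := by
        intro h
        rw [h, zero_mul] at hg
        exact h0 hg.symm
      have hjz : j ∈ univ.erase z := mem_erase.2 ⟨fun e => hj (e ▸ hz), mem_univ _⟩
      refine ⟨⟨j, hjz⟩, mem_attach _ _, ?_⟩
      have h3 : Units.mk0 (M x j₀ / M x j) (div_ne_zero h0 hj) = g := by
        apply Units.ext
        rw [Units.val_mk0, ← hg]
        field_simp
      rw [h3]
    · rintro ⟨j, _, rfl⟩
      refine ⟨j, _, rfl, ?_⟩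
      rw [Units.val_mk0]
      have := hne j (mem_erase.1 j.2).1
      field_simp
  rw [h2, card_image_of_injective, card_attach, card_erase_of_mem (mem_univ _), card_univ, hι]
  · omega
  · intro j j' h
    rw [Option.some.injEq, Prod.mk.injEq, Option.some.injEq] at h
    exact Subtype.ext h.1

theorem lin_far {M : Matrix ι ι F} (hM : TwoReg M) {v : ι → F} {K : Finset ι} {x j₀ : ι}
    (hx : x ∉ K) (h0 : M x j₀ ≠ 0) {u w : Pt ι F} (hu : u ∈ lin M x j₀) (hw : w ∈ lin M x j₀)
    (huw : u ≠ w) : Far (lab M v K) u w := by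
  rw [mem_lin] at hu hw
  obtain ⟨j, g, rfl, hg⟩ := hu
  obtain ⟨j', g', rfl, hg'⟩ := hw
  intro a h
  rw [lab_some, lab_some] at h
  simp only [ent] at h
  have hax : (a : ι) ≠ x := fun e => hx (e ▸ a.2)
  by_cases hj : j = j'
  · subst hj
    apply huw
    have h2 : M x j ≠ 0 := by
      intro h3
      rw [h3, zero_mul] at hg
      exact h0 hg.symm
    have h3 : (g : F) = g' := mul_left_cancel₀ h2 (hg.trans hg'.symm)
    rw [Units.ext h3]
  · apply hM a x hax j j' hj
    rw [sub_eq_zero]
    have h3 : ((g : F) * g') ≠ 0 := mul_ne_zero g.ne_zero g'.ne_zero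
    apply mul_right_cancel₀ h3
    calc M a j * M x j' * (g * g') = (M a j * g) * (M x j' * g') := by ring
      _ = (M a j' * g') * (M x j * g) := by rw [h, hg, hg']
      _ = _ := by ring

theorem lin_meet {M : Matrix ι ι F} (hM : TwoReg M) {x x' j₀ : ι} (hx : x ≠ x')
    (h0 : M x j₀ ≠ 0) {u : Pt ι F} (hu : u ∈ lin M x j₀) (hu' : u ∈ lin M x' j₀) :
    u = some (some j₀, 1) := by
  rw [mem_lin] at hu hu'
  obtain ⟨j, g, rfl, hg⟩ := hu
  obtain ⟨j', g', h, hg'⟩ := hu'
  rw [Option.some.injEq, Prod.mk.injEq, Option.some.injEq] at h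
  obtain ⟨rfl, rfl⟩ := h
  by_cases hj : j = j₀
  · subst hj
    have h3 : (g : F) = 1 := by
      apply mul_left_cancel₀ h0
      rw [hg, mul_one]
    have h4 : g = 1 := Units.ext (by rw [h3, Units.val_one])
    rw [h4]
  · exfalso
    apply hM x x' hx j j₀ hj
    rw [sub_eq_zero, ← hg, ← hg']
    ring

/-- a point of the new column completes the line of `x`: the row `x` can be extended, too -/
theorem extends_insert {M : Matrix ι ι F} (hM : TwoReg M) (h1 : 1 < Fintype.card ι) {v : ι → F}
    {K : Finset ι} (hE : Extends M K v) {x j₀ : ι} (hx : x ∉ K) (h0 : M x j₀ ≠ 0) {g : Fˣ}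
    (hw : ∀ u ∈ lin M x j₀, Far (lab M v K) u (some (none, g))) :
    Extends M (insert x K) (Function.update v x (M x j₀ * (g : F)⁻¹)) := by
  have key : ∀ a ∈ K, ∀ j, M a j * (M x j₀ * (g : F)⁻¹) ≠ M x j * v a := by
    intro a ha j h
    have hax : a ≠ x := fun e => hx (e ▸ ha)
    by_cases hj : M x j = 0
    · rw [hj, zero_mul] at h
      have h2 := (mul_eq_zero.1 h).resolve_right (mul_ne_zero h0 (inv_ne_zero g.ne_zero))
      exact hax (zero_unique_col hM h1 h2 hj)
    · have h2 : some (some j, Units.mk0 (M x j₀ / M x j) (div_ne_zero h0 hj)) ∈ lin M x j₀ := by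
        rw [mem_lin]
        refine ⟨j, _, rfl, ?_⟩
        rw [Units.val_mk0]
        field_simp
      apply hw _ h2 ⟨a, ha⟩
      rw [lab_some, lab_some, Units.val_mk0]
      simp only [ent]
      have h3 := g.ne_zero
      field_simp at h ⊢
      linear_combination h
  intro a ha b hb hab j
  rw [mem_insert] at ha hb
  rcases ha with rfl | ha <;> rcases hb with rfl | hb
  · exact absurd rfl hab
  · have hb' : b ≠ a := fun e => hab e.symm
    rw [Function.update_self, Function.update_of_ne hb']
    intro h
    exact key b hb j h.symm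
  · rw [Function.update_self, Function.update_of_ne hab]
    exact key a ha j
  · have ha' : a ≠ x := fun e => hx (e ▸ ha)
    have hb' : b ≠ x := fun e => hx (e ▸ hb)
    rw [Function.update_of_ne ha', Function.update_of_ne hb']
    exact hE a ha b hb hab j

omit [DecidableEq F] in
/-- the new column has no zero in the rows `K` -/
theorem new_ne {M : Matrix ι ι F} (hM : IsAONT M) (hι : Fintype.card ι = Fintype.card F)
    (hq : 2 < Fintype.card F) {v : ι → F} {K : Finset ι} (hE : Extends M K v)
    (hK : 2 ≤ K.card) {a : ι} (ha : a ∈ K) : v a ≠ 0 := by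
  obtain ⟨b, hb, hab⟩ : ∃ b ∈ K, b ≠ a := exists_mem_ne (by omega) a
  obtain ⟨j, hj⟩ := exists_zero_row hM hι hq a
  intro h
  apply hE a ha b hb hab.symm j
  rw [hj, h]
  ring

end Pool.MP_0af767_co
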