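import Mathlib

/-!
# MP_0af767_co: matrices with `q` rows and `q + 1` columns all of whose 2 × 2 minors are non-zero

`X` is such a matrix over the field `F` with `q` elements, `Y` the matrix of the inverses of its
entries (`0` stays `0`). The ratios of two rows of `X` run through the whole projective line, hence
`X Yᵀ = 0` and `rank X + rank Y ≤ q + 1`. If `rank Y ≤ 2` then `X_ij = (u_i a_j + v_i b_j)^(q-2)`,
and `rank X` is at most the number of binomial coefficients `(q-2 choose r)` prime to `p`.
-/

set_option autoImplicit false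

namespace Pool.MP_0af767_co

open Finset Matrix

/-- all `2 × 2` submatrices are invertible -/
def TwoReg {m n F : Type*} [Field F] (M : Matrix m n F) : Prop :=
  ∀ i i' : m, i ≠ i' → ∀ j j' : n, j ≠ j' → M i j * M i' j' - M i j' * M i' j ≠ 0

/-- all-or-nothing transforms for `t = 2` -/
def IsAONT {ι F : Type*} [Field F] [Fintype ι] [DecidableEq ι] (M : Matrix ι ι F) : Prop :=
  M.det ≠ 0 ∧ TwoReg M

variable {F : Type*} [Field F] {m n : Type*}

theorem TwoReg.transpose {M : Matrix m n F} (h : TwoReg M) : TwoReg Mᵀ := by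
  intro i i' hi j j' hj h0
  refine h j j' hj i i' hi ?_
  simp only [Matrix.transpose_apply] at h0
  rw [← h0]
  ring

section Ext

variable [Fintype F] [DecidableEq F] [Fintype m] [Fintype n] [DecidableEq m] [DecidableEq n]

/-- the ratio of two rows as a point of the projective line -/
def rat (X : Matrix m n F) (i k : m) (j : n) : Option F :=
  if X k j = 0 then none else some (X i j / X k j)

omit [Fintype F] [Fintype m] [Fintype n] [DecidableEq m] [DecidableEq n] in
theorem rat_inj {X : Matrix m n F} (hX : TwoReg X) {i k : m} (h : i ≠ k) :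
    Function.Injective (rat X i k) := by
  intro j j' hjj
  by_contra hne
  have h1 := hX i k h j j' hne
  unfold rat at hjj
  by_cases h2 : X k j = 0
  · rw [if_pos h2] at hjj
    by_cases h3 : X k j' = 0
    · rw [h2, h3] at h1
      simp at h1
    · rw [if_neg h3] at hjj
      exact absurd hjj (by simp)
  · rw [if_neg h2] at hjj
    by_cases h3 : X k j' = 0
    · rw [if_pos h3] at hjj
      exact absurd hjj (by simp)
    · rw [if_neg h3] at hjj
      have h4 : X i j / X k j = X i j' / X k j' := Option.some.inj hjj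
      rw [div_eq_div_iff h2 h3] at h4
      exact h1 (sub_eq_zero.2 h4)

omit [Fintype m] [DecidableEq m] [DecidableEq n] in
theorem rat_bij {X : Matrix m n F} (hX : TwoReg X) (hn : Fintype.card n = Fintype.card F + 1)
    {i k : m} (h : i ≠ k) : Function.Bijective (rat X i k) := by
  rw [Fintype.bijective_iff_injective_and_card]
  refine ⟨rat_inj hX h, ?_⟩
  rw [Fintype.card_option, hn]

/-- entrywise inverse -/
def inv' (X : Matrix m n F) : Matrix m n F := Matrix.of fun i j => (X i j)⁻¹

omit [Fintype m] [DecidableEq m] [DecidableEq n] in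
theorem row_ne {X : Matrix m n F} (hX : TwoReg X) (hn : Fintype.card n = Fintype.card F + 1)
    (hq : 2 < Fintype.card F) {i k : m} (h : i ≠ k) : ∑ j, X i j * (X k j)⁻¹ = 0 := by
  have h1 : ∀ j, X i j * (X k j)⁻¹ = (fun o : Option F => o.getD 0) (rat X i k j) := by
    intro j
    unfold rat
    split_ifs with h2
    · simp [h2]
    · simp [div_eq_mul_inv]
  rw [sum_congr rfl fun j _ => h1 j, (rat_bij hX hn h).sum_comp (fun o : Option F => o.getD 0),
    Fintype.sum_option]
  simp only [Option.getD_none, Option.getD_some, zero_add]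
  have h3 := FiniteField.sum_pow_lt_card_sub_one F 1 (by omega)
  simpa using h3

omit [Fintype m] [DecidableEq m] [DecidableEq n] in
theorem row_eq {X : Matrix m n F} (hX : TwoReg X) (hn : Fintype.card n = Fintype.card F + 1)
    {i k : m} (h : i ≠ k) : ∑ j, X k j * (X k j)⁻¹ = 0 := by
  have h1 : ∀ j, X k j * (X k j)⁻¹ =
      (fun o : Option F => if o = none then (0 : F) else 1) (rat X i k j) := by
    intro j
    unfold rat
    split_ifs with h2
    · simp [h2]
    · simp [h2]
  rw [sum_congr rfl fun j _ => h1 j,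
    (rat_bij hX hn h).sum_comp (fun o : Option F => if o = none then (0 : F) else 1),
    Fintype.sum_option]
  simp

omit [DecidableEq n] in
theorem mul_inv' {X : Matrix m n F} (hX : TwoReg X) (hn : Fintype.card n = Fintype.card F + 1)
    (hm : 1 < Fintype.card m) (hq : 2 < Fintype.card F) : X * (inv' X)ᵀ = 0 := by
  ext i k
  rw [Matrix.mul_apply, Matrix.zero_apply]
  simp only [Matrix.transpose_apply, inv', Matrix.of_apply]
  by_cases h : i = k
  · subst h
    obtain ⟨l, hl⟩ := Fintype.exists_ne_of_one_lt_card hm i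
    exact row_eq hX hn hl
  · exact row_ne hX hn hq h

omit [DecidableEq m] [DecidableEq n] [Fintype F] [DecidableEq F] [Fintype m] [Fintype n] in
theorem inv_two {X : Matrix m n F} (hX : TwoReg X) : TwoReg (inv' X) := by
  intro i i' hi j j' hj h0
  have h1 := hX i i' hi j j' hj
  simp only [inv', Matrix.of_apply] at h0
  by_cases ha : X i j = 0
  · have hb : X i j' ≠ 0 := by
      intro h
      rw [ha, h] at h1
      simp at h1
    have hc : X i' j ≠ 0 := by
      intro h
      rw [ha, h] at h1
      simp at h1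
    rw [ha] at h0
    simp [hb, hc] at h0
  by_cases hd : X i' j' = 0
  · have hb : X i j' ≠ 0 := by
      intro h
      rw [hd, h] at h1
      simp at h1
    have hc : X i' j ≠ 0 := by
      intro h
      rw [hd, h] at h1
      simp at h1
    rw [hd] at h0
    simp [hb, hc] at h0
  by_cases hb : X i j' = 0
  · rw [hb] at h0
    simp [ha, hd] at h0
  by_cases hc : X i' j = 0
  · rw [hc] at h0
    simp [ha, hd] at h0
  apply h1
  field_simp at h0
  linear_combination -h0

/-- two independent rows span the row space of a matrix of rank `≤ 2` -/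
theorem rows_span {Y : Matrix m n F} (hY : TwoReg Y) (hr : Y.rank ≤ 2) {i₀ i₁ : m} (h : i₀ ≠ i₁)
    {j₀ j₁ : n} (hj : j₀ ≠ j₁) (i : m) : ∃ u v : F, ∀ j, Y i j = u * Y i₀ j + v * Y i₁ j := by
  have hli : LinearIndependent F ![Y i₀, Y i₁] := by
    rw [LinearIndependent.pair_iff]
    intro s t hst
    have h1 : s * Y i₀ j₀ + t * Y i₁ j₀ = 0 := by
      have := congrFun hst j₀
      simpa using this
    have h2 : s * Y i₀ j₁ + t * Y i₁ j₁ = 0 := by
      have := congrFun hst j₁
      simpa using this
    have h3 := hY i₀ i₁ h j₀ j₁ hj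
    constructor
    · have h4 : s * (Y i₀ j₀ * Y i₁ j₁ - Y i₀ j₁ * Y i₁ j₀) = 0 := by
        linear_combination Y i₁ j₁ * h1 - Y i₁ j₀ * h2
      exact (mul_eq_zero.1 h4).resolve_right h3
    · have h4 : t * (Y i₀ j₀ * Y i₁ j₁ - Y i₀ j₁ * Y i₁ j₀) = 0 := by
        linear_combination Y i₀ j₀ * h2 - Y i₀ j₁ * h1
      exact (mul_eq_zero.1 h4).resolve_right h3
  have hle : Submodule.span F (Set.range ![Y i₀, Y i₁]) ≤ Submodule.span F (Set.range Y.row) := by
    refine Submodule.span_mono ?_
    rintro _ ⟨x, rfl⟩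
    fin_cases x
    · exact ⟨i₀, rfl⟩
    · exact ⟨i₁, rfl⟩
  have heq : Submodule.span F (Set.range ![Y i₀, Y i₁]) = Submodule.span F (Set.range Y.row) := by
    refine Submodule.eq_of_le_of_finrank_le hle ?_
    rw [← Matrix.rank_eq_finrank_span_row, finrank_span_eq_card hli]
    simpa using hr
  have hmem : Y i ∈ Submodule.span F (Set.range ![Y i₀, Y i₁]) := by
    rw [heq]
    exact Submodule.subset_span ⟨i, rfl⟩
  have hrange : Set.range ![Y i₀, Y i₁] = {Y i₀, Y i₁} := by
    simp [Matrix.range_cons, Set.pair_comm]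
  rw [hrange, Submodule.mem_span_pair] at hmem
  obtain ⟨u, v, huv⟩ := hmem
  refine ⟨u, v, fun j => ?_⟩
  have := congrFun huv j
  simpa using this.symm

omit [DecidableEq F] in
theorem card_facts (hp : ¬ (Fintype.card F).Prime) : ∃ p : ℕ, p.Prime ∧ CharP F p ∧
    p < Fintype.card F ∧ 3 < Fintype.card F ∧
    ((Fintype.card F - 2).choose (p - 1) : F) = 0 := by
  obtain ⟨p, hchar⟩ := CharP.exists F
  obtain ⟨e, hpr, hcard⟩ := FiniteField.card F p
  have he : 2 ≤ (e : ℕ) := by
    by_contra hlt
    have h1 : (e : ℕ) = 1 := by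
      have := e.pos
      omega
    rw [h1, pow_one] at hcard
    rw [hcard] at hp
    exact hp hpr
  obtain ⟨f, hf⟩ : ∃ f : ℕ, (e : ℕ) = f + 2 := ⟨e - 2, by omega⟩
  rw [hf] at hcard
  have hp2 := hpr.two_le
  have hpf : 1 ≤ p ^ f := Nat.one_le_pow _ _ (by omega)
  have hq : Fintype.card F = p * (p * p ^ f) := by
    rw [hcard]
    ring
  have hpp : p ≤ p * p ^ f := Nat.le_mul_of_pos_right _ (by omega)
  refine ⟨p, hpr, hchar, ?_, ?_, ?_⟩
  · rw [hq]
    nlinarith
  · rw [hq]
    nlinarith
  · rw [CharP.cast_eq_zero_iff F p, ← Nat.modEq_zero_iff_dvd]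
    have hfact : Fact p.Prime := ⟨hpr⟩
    refine (Choose.choose_modEq_choose_mod_mul_choose_div_nat (p := p)).trans ?_
    have h1 : (Fintype.card F - 2) % p = p - 2 := by
      obtain ⟨r, hr⟩ : ∃ r, p * p ^ f = r + 1 := ⟨p * p ^ f - 1, by omega⟩
      have h2 : Fintype.card F - 2 = p * r + (p - 2) := by
        rw [hq, hr, Nat.mul_succ]
        omega
      rw [h2, Nat.mul_add_mod]
      exact Nat.mod_eq_of_lt (by omega)
    have h3 : (p - 1) % p = p - 1 := Nat.mod_eq_of_lt (by omega)
    rw [h1, h3, Nat.choose_eq_zero_of_lt (by omega), zero_mul]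

/-- a matrix with `q + 1` columns and non-zero `2 × 2` minors has rank at most `q - 2` -/
theorem rank_le {X : Matrix m n F} (hX : TwoReg X) (hn : Fintype.card n = Fintype.card F + 1)
    (hm : 1 < Fintype.card m) (hp : ¬ (Fintype.card F).Prime) :
    X.rank + 2 ≤ Fintype.card F := by
  classical
  obtain ⟨p, hpr, hchar, hpq, hq3, hchoose⟩ := card_facts (F := F) hp
  have h1 : X.rank + (inv' X).rank ≤ Fintype.card F + 1 := by
    have h2 := Matrix.rank_add_rank_le_card_of_mul_eq_zero (mul_inv' hX hn hm (by omega))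
    rwa [Matrix.rank_transpose, hn] at h2
  by_cases hr : 3 ≤ (inv' X).rank
  · omega
  have hY := inv_two hX
  obtain ⟨i₀, i₁, hi⟩ := Fintype.exists_pair_of_one_lt_card hm
  obtain ⟨j₀, j₁, hj⟩ := Fintype.exists_pair_of_one_lt_card (α := n) (by omega)
  have hsp := fun i => rows_span hY (by omega) hi hj i
  choose u v huv using hsp
  set S := (range (Fintype.card F - 1)).erase (p - 1) with hS
  have hScard : S.card = Fintype.card F - 2 := by
    rw [hS, card_erase_of_mem (mem_range.2 (by omega)), card_range]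
    omega
  have hpow : ∀ x : F, x⁻¹ = x ^ (Fintype.card F - 2) := by
    intro x
    by_cases hx : x = 0
    · rw [hx, _root_.inv_zero, zero_pow (by omega)]
    · have h3 := FiniteField.pow_card_sub_one_eq_one x hx
      have h4 : Fintype.card F - 1 = (Fintype.card F - 2) + 1 := by omega
      rw [h4, pow_succ] at h3
      exact (eq_inv_of_mul_eq_one_left h3).symm
  have hfac : X = (Matrix.of fun (i : m) (r : S) => u i ^ (r : ℕ) *
        v i ^ (Fintype.card F - 2 - (r : ℕ))) *
      (Matrix.of fun (r : S) (j : n) => inv' X i₀ j ^ (r : ℕ) *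
        inv' X i₁ j ^ (Fintype.card F - 2 - (r : ℕ)) *
        ((Fintype.card F - 2).choose (r : ℕ) : F)) := by
    ext i j
    rw [Matrix.mul_apply]
    simp only [Matrix.of_apply]
    have h3 : X i j = (u i * inv' X i₀ j + v i * inv' X i₁ j) ^ (Fintype.card F - 2) := by
      rw [← huv i j, ← hpow]
      simp [inv']
    rw [h3, add_pow]
    have h4 : Fintype.card F - 2 + 1 = Fintype.card F - 1 := by omega
    rw [h4, ← Finset.sum_erase (range (Fintype.card F - 1)) (a := p - 1) (by
      rw [hchoose, mul_zero]), ← hS, ← Finset.sum_coe_sort S]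
    refine sum_congr rfl fun r _ => ?_
    rw [mul_pow, mul_pow]
    ring
  have h5 : X.rank ≤ Fintype.card S := by
    conv_lhs => rw [hfac]
    exact (Matrix.rank_mul_le_left _ _).trans (Matrix.rank_le_card_width _)
  rw [Fintype.card_coe, hScard] at h5
  omega

end Ext

/-- rank is subadditive -/
theorem rank_sub_ge {l : Type*} [Fintype l] [DecidableEq l] (M D : Matrix l l F) :
    M.rank ≤ D.rank + (M - D).rank := by
  have h1 : LinearMap.range M.mulVecLin ≤
      LinearMap.range D.mulVecLin ⊔ LinearMap.range (M - D).mulVecLin := by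
    rintro _ ⟨x, rfl⟩
    have h2 : M.mulVecLin x = D.mulVecLin x + (M - D).mulVecLin x := by
      simp only [Matrix.mulVecLin_apply, Matrix.sub_mulVec]
      abel
    rw [h2]
    exact Submodule.add_mem_sup ⟨x, rfl⟩ ⟨x, rfl⟩
  exact (Submodule.finrank_mono h1).trans (Submodule.finrank_add_le_finrank_add_finrank _ _)

end Pool.MP_0af767_co
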