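import Pool.Agent.Lib.MP_0af767_co.HalfRows

/-!
# MP_0af767_co: large blocks of rank two

`(M_ij ^ k)` has rank at most two outside the rows in `B` and the columns in `C`. If `|C|` is small
then the columns in `C`, restricted to the rows outside `B`, lie in the same plane up to their
zeros; so `half_rows` applies after removing at most `|C|` further rows.
-/

set_option autoImplicit false

namespace Pool.MP_0af767_co.Half

open Finset Matrix

variable {F : Type*} [Field F] [Fintype F] [DecidableEq F] {ι : Type*} [Fintype ι] [DecidableEq ι]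

/-- a column outside the block -/
theorem col_plane (hι : Fintype.card ι = Fintype.card F) (hq : 3 < Fintype.card F)
    {N : Matrix ι ι F} (hN : TwoReg N) (B C : Finset ι) (x y z w : ι → F)
    (hB : ∀ i ∉ B, ∀ j ∉ C, N i j = x i * z j + y i * w j)
    (hd : B.card + C.card ^ 2 + 1 < Fintype.card F) (hd2 : B.card + 3 ≤ Fintype.card F)
    (hC2 : C.card + 2 ≤ Fintype.card F) {j : ι} (hj : j ∈ C) :
    ∃ z' w' : F, ∀ i ∉ B, N i j ≠ 0 → N i j = x i * z' + y i * w' := by
  classical
  -- determinants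
  have hdet : ∀ a b, a ∉ B → b ∉ B → ∀ l l', l ∉ C → l' ∉ C → N a l * N b l' - N a l' * N b l =
      (x a * y b - x b * y a) * (z l * w l' - z l' * w l) := by
    intro a b ha hb l l' hl hl'
    rw [hB a ha l hl, hB a ha l' hl', hB b hb l hl, hB b hb l' hl']
    ring
  obtain ⟨l₁, hl₁, l₂, hl₂, hl₁₂⟩ : ∃ l₁ ∉ C, ∃ l₂ ∉ C, l₁ ≠ l₂ := by
    have h1 : 1 < (Cᶜ : Finset ι).card := by
      rw [card_compl, hι]
      omega
    obtain ⟨a, ha, b, hb, hab⟩ := one_lt_card.1 h1
    exact ⟨a, mem_compl.1 ha, b, mem_compl.1 hb, hab⟩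
  obtain ⟨a₁, ha₁, a₂, ha₂, ha₁₂⟩ : ∃ a₁ ∉ B, ∃ a₂ ∉ B, a₁ ≠ a₂ := by
    have h1 : 1 < (Bᶜ : Finset ι).card := by
      rw [card_compl, hι]
      omega
    obtain ⟨a, ha, b, hb, hab⟩ := one_lt_card.1 h1
    exact ⟨a, mem_compl.1 ha, b, mem_compl.1 hb, hab⟩
  have hrow : ∀ a b, a ∉ B → b ∉ B → a ≠ b → x a * y b - x b * y a ≠ 0 := by
    intro a b ha hb hab h
    apply hN a b hab l₁ l₂ hl₁₂
    rw [hdet a b ha hb l₁ l₂ hl₁ hl₂, h, zero_mul]
  have hcol : ∀ l l', l ∉ C → l' ∉ C → l ≠ l' → z l * w l' - z l' * w l ≠ 0 := by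
    intro l l' hl hl' hll h
    apply hN a₁ a₂ ha₁₂ l l' hll
    rw [hdet a₁ a₂ ha₁ ha₂ l l' hl hl', h, mul_zero]
  -- projective points
  obtain ⟨Z, hZ⟩ : ∃ Z : Option F → F, Z = fun o => o.elim 1 id := ⟨_, rfl⟩
  obtain ⟨W, hW⟩ : ∃ W : Option F → F, W = fun o => o.elim 0 (fun _ => 1) := ⟨_, rfl⟩
  obtain ⟨cls, hcls⟩ : ∃ cls : F → F → Option F,
      cls = fun s t => if t = 0 then none else some (s / t) := ⟨_, rfl⟩
  have hrep : ∀ s t : F, (s ≠ 0 ∨ t ≠ 0) → ∃ c : F, c ≠ 0 ∧ s = c * Z (cls s t) ∧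
      t = c * W (cls s t) := by
    intro s t hst
    rw [hcls, hZ, hW]
    by_cases ht : t = 0
    · have hs : s ≠ 0 := hst.resolve_right (fun h => h ht)
      refine ⟨s, hs, ?_, ?_⟩
      · simp [ht]
      · simp [ht]
    · refine ⟨t, ht, ?_, ?_⟩
      · simp only [if_neg ht, Option.elim_some, id]
        rw [mul_div_cancel₀ _ ht]
      · simp [ht]
  have hne : ∀ l, l ∉ C → z l ≠ 0 ∨ w l ≠ 0 := by
    intro l hl
    by_contra h
    push Not at h
    obtain ⟨l', hl', hll⟩ : ∃ l' ∉ C, l ≠ l' := by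
      by_cases h1 : l = l₁
      · exact ⟨l₂, hl₂, h1 ▸ hl₁₂⟩
      · exact ⟨l₁, hl₁, h1⟩
    apply hcol l l' hl hl' hll
    rw [h.1, h.2]
    ring
  have hclsinj : Set.InjOn (fun l => cls (z l) (w l)) ((Cᶜ : Finset ι) : Set ι) := by
    intro l hl l' hl' h
    rw [mem_coe, mem_compl] at hl hl'
    by_contra hll
    have h' : cls (z l) (w l) = cls (z l') (w l') := h
    obtain ⟨c, _, e1, e2⟩ := hrep (z l) (w l) (hne l hl)
    obtain ⟨c', _, e3, e4⟩ := hrep (z l') (w l') (hne l' hl')
    apply hcol l l' hl hl' hll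
    rw [← h'] at e3 e4
    linear_combination w l' * e1 + c * Z (cls (z l) (w l)) * e4 - w l * e3 -
      c' * Z (cls (z l) (w l)) * e2
  obtain ⟨S, hS⟩ : ∃ S : Finset (Option F), S = univ \ (Cᶜ.image fun l => cls (z l) (w l)) :=
    ⟨_, rfl⟩
  have hSc : S.card ≤ C.card + 1 := by
    rw [hS, card_sdiff_of_subset (subset_univ _), card_univ, Fintype.card_option,
      card_image_of_injOn hclsinj, card_compl, hι]
    omega
  obtain ⟨J, hJ⟩ : ∃ J : Finset ι, J = univ.filter fun i => i ∉ B ∧ N i j ≠ 0 := ⟨_, rfl⟩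
  have hJm : ∀ i, i ∈ J ↔ i ∉ B ∧ N i j ≠ 0 := by
    intro i
    rw [hJ, mem_filter]
    simp
  have hJc : Fintype.card F ≤ J.card + B.card + 1 := by
    have h1 : (univ.filter fun i => N i j = 0).card ≤ 1 := by
      rw [card_le_one]
      intro a ha b hb
      exact zero_unique (M := Nᵀ) hN.transpose (by omega) (i := j) (mem_filter.1 ha).2
        (mem_filter.1 hb).2
    have h2 : (univ : Finset ι) ⊆ (J ∪ B) ∪ (univ.filter fun i => N i j = 0) := by
      intro i _
      rw [mem_union, mem_union, hJm, mem_filter]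
      by_cases hi : i ∈ B
      · exact Or.inl (Or.inr hi)
      · by_cases h0 : N i j = 0
        · exact Or.inr ⟨mem_univ _, h0⟩
        · exact Or.inl (Or.inl ⟨hi, h0⟩)
    have h3 := card_le_card h2
    have h4 := card_union_le (J ∪ B) (univ.filter fun i => N i j = 0)
    have h5 := card_union_le J B
    rw [card_univ, hι] at h3
    omega
  obtain ⟨s, -, v, hv, hs⟩ := stab J S (fun s i => (x i * Z s + y i * W s) / N i j) C.card hSc
    (by omega) (by omega) (by
    intro a ha b hb hab
    rw [hJm] at ha hb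
    -- the point
    obtain ⟨s, hs⟩ : ∃ s, s = N a j * y b - N b j * y a := ⟨_, rfl⟩
    obtain ⟨t, ht⟩ : ∃ t, t = N b j * x a - N a j * x b := ⟨_, rfl⟩
    have hst : s ≠ 0 ∨ t ≠ 0 := by
      by_contra h
      push Not at h
      apply hrow a b ha.1 hb.1 hab
      have h1 : N a j * (x a * y b - x b * y a) = 0 := by
        have e1 : N a j * y b - N b j * y a = 0 := by rw [← hs]; exact h.1
        have e2 : N b j * x a - N a j * x b = 0 := by rw [← ht]; exact h.2
        linear_combination x a * e1 + y a * e2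
      exact (mul_eq_zero.1 h1).resolve_left ha.2
    obtain ⟨c, hc, e1, e2⟩ := hrep s t hst
    have hval : ∀ i, x i * s + y i * t = c * (x i * Z (cls s t) + y i * W (cls s t)) := by
      intro i
      linear_combination x i * e1 + y i * e2
    have hva : x a * s + y a * t = N a j * (x a * y b - x b * y a) := by
      rw [hs, ht]
      ring
    have hvb : x b * s + y b * t = N b j * (x a * y b - x b * y a) := by
      rw [hs, ht]
      ring
    have hD := hrow a b ha.1 hb.1 hab
    have ea : (x a * Z (cls s t) + y a * W (cls s t)) / N a j =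
        (x a * y b - x b * y a) / c := by
      rw [div_eq_div_iff ha.2 hc]
      linear_combination hva - hval a
    have eb : (x b * Z (cls s t) + y b * W (cls s t)) / N b j =
        (x a * y b - x b * y a) / c := by
      rw [div_eq_div_iff hb.2 hc]
      linear_combination hvb - hval b
    refine ⟨cls s t, ?_, ?_, ?_⟩
    · rw [hS, mem_sdiff]
      refine ⟨mem_univ _, fun h => ?_⟩
      obtain ⟨l, hl, hle⟩ := mem_image.1 h
      rw [mem_compl] at hl
      obtain ⟨c', hc', e3, e4⟩ := hrep (z l) (w l) (hne l hl)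
      have hlj : l ≠ j := fun h => hl (h ▸ hj)
      apply hN a b hab l j hlj
      have hle' : cls (z l) (w l) = cls s t := hle
      rw [hle'] at e3 e4
      have f1 : N a l = c' * (x a * Z (cls s t) + y a * W (cls s t)) := by
        rw [hB a ha.1 l hl]
        linear_combination x a * e3 + y a * e4
      have f2 : N b l = c' * (x b * Z (cls s t) + y b * W (cls s t)) := by
        rw [hB b hb.1 l hl]
        linear_combination x b * e3 + y b * e4
      have f3 : (x a * Z (cls s t) + y a * W (cls s t)) * N b j =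
          (x b * Z (cls s t) + y b * W (cls s t)) * N a j := by
        have h5 := ea.trans eb.symm
        rwa [div_eq_div_iff ha.2 hb.2] at h5
      rw [f1, f2]
      linear_combination c' * f3
    · show (x a * Z (cls s t) + y a * W (cls s t)) / N a j ≠ 0
      rw [ea]
      exact div_ne_zero hD hc
    · show (x a * Z (cls s t) + y a * W (cls s t)) / N a j =
        (x b * Z (cls s t) + y b * W (cls s t)) / N b j
      rw [ea, eb]) (by
    intro a ha b hb hab s _ s' _ h1 h2 h3 h4
    rw [hJm] at ha hb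
    by_contra hss
    have hdd : Z s * W s' - Z s' * W s ≠ 0 := by
      rw [hZ, hW]
      rcases s with _ | s <;> rcases s' with _ | s'
      · exact absurd rfl hss
      · simp
      · simp
      · simp only [Option.elim_some, id]
        intro h
        apply hss
        congr 1
        linear_combination h
    have g2 : (x a * Z s + y a * W s) * N b j = (x b * Z s + y b * W s) * N a j := by
      rwa [div_eq_div_iff ha.2 hb.2] at h2
    have g4 : (x a * Z s' + y a * W s') * N b j = (x b * Z s' + y b * W s') * N a j := by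
      rwa [div_eq_div_iff ha.2 hb.2] at h4
    have g5 : N a j * ((x a * y b - x b * y a) * (Z s * W s' - Z s' * W s)) = 0 := by
      linear_combination (x a * Z s' + y a * W s') * g2 - (x a * Z s + y a * W s) * g4
    rcases mul_eq_zero.1 g5 with h | h
    · exact ha.2 h
    · exact (mul_ne_zero (hrow a b ha.1 hb.1 hab) hdd) h)
  refine ⟨v⁻¹ * Z s, v⁻¹ * W s, fun i hi h0 => ?_⟩
  have h1 := hs i ((hJm i).2 ⟨hi, h0⟩)
  have h2 : x i * Z s + y i * W s = v * N i j := (div_eq_iff h0).1 h1
  have h3 : x i * (v⁻¹ * Z s) + y i * (v⁻¹ * W s) = v⁻¹ * (x i * Z s + y i * W s) := by ring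
  rw [h3, h2, inv_mul_cancel_left₀ hv]

omit [DecidableEq F] in
theorem half_block (hF : ¬ (Fintype.card F).Prime) (hq : 4 < Fintype.card F)
    (hι : Fintype.card ι = Fintype.card F) {M : Matrix ι ι F} (hM : IsAONT M) {k : ℕ}
    (hk : k.Coprime (Fintype.card F - 1)) (B C : Finset ι) (x y z w : ι → F)
    (hB : ∀ i ∉ B, ∀ j ∉ C, M i j ^ k = x i * z j + y i * w j)
    (hd : B.card + C.card ^ 2 + 1 < Fintype.card F) :
    Fintype.card F < 2 * (B.card + C.card) := by
  classical
  by_contra hlt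
  push Not at hlt
  obtain ⟨k', hk'⟩ := exists_inv_exp (F := F) (by omega) hk
  have hk0 : k ≠ 0 := by
    rintro rfl
    rw [Nat.coprime_zero_left] at hk
    omega
  have hN : TwoReg (Matrix.of fun i j => M i j ^ k) := TwoReg_pow hM.2 hk'
  have hcol : ∀ j, ∃ z' w' : F, ∀ i ∉ B, (j ∈ C → M i j ≠ 0) → M i j ^ k = x i * z' + y i * w' := by
    intro j
    by_cases hj : j ∈ C
    · obtain ⟨z', w', h⟩ := col_plane hι (by omega) hN B C x y z w hB hd (by omega) (by omega) hj
      exact ⟨z', w', fun i hi h0 => h i hi (pow_ne_zero k (h0 hj))⟩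
    · exact ⟨z j, w j, fun i hi _ => hB i hi j hj⟩
  choose z' w' hcol using hcol
  obtain ⟨E, hE⟩ : ∃ E : Finset ι, E = univ.filter fun i => ∃ j ∈ C, M i j = 0 := ⟨_, rfl⟩
  have hEc : E.card ≤ C.card := by
    have h1 : ∀ i ∈ E, ∃ j ∈ C, M i j = 0 := by
      intro i hi
      rw [hE] at hi
      exact (mem_filter.1 hi).2
    have h2 : ∀ i : ι, ∃ j : ι, i ∈ E → j ∈ C ∧ M i j = 0 := by
      intro i
      by_cases hi : i ∈ E
      · obtain ⟨j, hj, h⟩ := h1 i hi
        exact ⟨j, fun _ => ⟨hj, h⟩⟩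
      · exact ⟨i, fun h => absurd h hi⟩
    choose f hf using h2
    refine card_le_card_of_injOn f (fun i hi => (hf i hi).1) ?_
    intro i hi i' hi' h
    have e1 := (hf i hi).2
    have e2 := (hf i' hi').2
    rw [← h] at e2
    exact zero_unique (M := Mᵀ) hM.2.transpose (by omega) (i := f i) e1 e2
  have h1 := half_rows hF hq hι hM hk (B ∪ E) x y z' w' (by
    intro i hi j
    rw [mem_union, not_or] at hi
    refine hcol j i hi.1 fun hj h0 => hi.2 ?_
    rw [hE]
    exact mem_filter.2 ⟨mem_univ _, j, hj, h0⟩)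
  have h2 := card_union_le B E
  omega

end Pool.MP_0af767_co.Half
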