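import Pool.Agent.Lib.MP_0af767_co.HalfPoly

/-!
# MP_0af767_co: `q` points of the affine plane, one on every line through the origin

Lemma `core`: `q` points `(a o, b o)`; all but one of them (`none`) lie on different lines through
the origin. If every direction `t` is either not determined by the points or the line through the
origin in this direction does not contain exactly one of them, then the points are collinear.
-/

set_option autoImplicit false

namespace Pool.MP_0af767_co.Half

open Finset

variable {F : Type*} [Field F] [Fintype F] {J : Type*} [Fintype J]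

theorem core (a b : Option J → F) (hq : 4 < Fintype.card F)
    (hJ : Fintype.card J + 1 = Fintype.card F) (hb : Function.Injective b)
    (hrad : ∀ j j' : J, j ≠ j' → a (some j) * b (some j') ≠ a (some j') * b (some j))
    (T : Finset F) (hT2 : 2 ≤ T.card) (hT : ∀ t ∈ T, Function.Injective fun o => a o + t * b o)
    (hd : ∀ t, Function.Injective (fun o => a o + t * b o) ∨
      ∀ o, a o + t * b o = 0 → ∃ o', o' ≠ o ∧ a o' + t * b o' = 0) :
    ∃ t₀ κ, κ ≠ 0 ∧ ∀ o, a o + t₀ * b o = κ := by
  classical
  have hne : ∀ j : J, ¬ (a (some j) = 0 ∧ b (some j) = 0) := by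
    rintro j ⟨h1, h2⟩
    obtain ⟨j', hj'⟩ := Fintype.exists_ne_of_one_lt_card (by omega : 1 < Fintype.card J) j
    apply hrad j j' (Ne.symm hj')
    rw [h1, h2]
    ring
  -- two points of `J` are not on a common line through the origin
  have hrad' : ∀ (j j' : J) (t : F), a (some j) + t * b (some j) = 0 →
      a (some j') + t * b (some j') = 0 → j = j' := by
    intro j j' t h1 h2
    by_contra h
    apply hrad j j' h
    linear_combination b (some j') * h1 - b (some j) * h2
  by_cases hw : a none = 0 ∧ b none = 0
  · exfalso
    have hbj : ∀ j : J, b (some j) ≠ 0 := by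
      intro j h
      have := hb (h.trans hw.2.symm)
      exact absurd this (by simp)
    have hinj : Function.Injective fun j : J => - a (some j) / b (some j) := by
      intro j j' h
      refine hrad' j j' (- a (some j) / b (some j)) ?_ ?_
      · rw [div_mul_cancel₀ _ (hbj j)]
        ring
      · have h' : - a (some j) / b (some j) = - a (some j') / b (some j') := h
        rw [h', div_mul_cancel₀ _ (hbj j')]
        ring
    have hdisj : Disjoint (univ.image fun j : J => - a (some j) / b (some j)) T := by
      rw [disjoint_left]
      intro t ht htT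
      obtain ⟨j, -, rfl⟩ := mem_image.1 ht
      have h1 : a (some j) + - a (some j) / b (some j) * b (some j) =
          a none + - a (some j) / b (some j) * b none := by
        rw [div_mul_cancel₀ _ (hbj j), hw.1, hw.2]
        ring
      have := hT _ htT h1
      exact absurd this (by simp)
    have h1 := card_le_univ ((univ.image fun j : J => - a (some j) / b (some j)) ∪ T)
    rw [card_union_of_disjoint hdisj, card_image_of_injective _ hinj, card_univ] at h1
    omega
  have hne' : ∀ o, ¬ (a o = 0 ∧ b o = 0) := by
    intro o
    rcases o with _ | j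
    · exact hw
    · exact hne j
  have hdir : ∀ o o' : Option J, o ≠ o' → ∃ t, a o + t * b o = a o' + t * b o' := by
    intro o o' h
    have h1 : b o - b o' ≠ 0 := fun h2 => h (hb (sub_eq_zero.1 h2))
    refine ⟨- (a o - a o') / (b o - b o'), ?_⟩
    have h2 : - (a o - a o') / (b o - b o') * (b o - b o') = - (a o - a o') :=
      div_mul_cancel₀ _ h1
    linear_combination h2
  -- equal values for two different `t`
  have huniq : ∀ (o o' : Option J) (t t' : F), t ≠ t' → a o + t * b o = a o' + t * b o' →
      a o + t' * b o = a o' + t' * b o' → o = o' := by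
    intro o o' t t' h h1 h2
    have h3 : (t - t') * (b o - b o') = 0 := by linear_combination h1 - h2
    exact hb (sub_eq_zero.1 ((mul_eq_zero.1 h3).resolve_left (sub_ne_zero.2 h)))
  have hzuniq : ∀ (o : Option J) (t t' : F), a o + t * b o = 0 → a o + t' * b o = 0 → t = t' := by
    intro o t t' h1 h2
    by_contra h
    have h3 : (t - t') * b o = 0 := by linear_combination h1 - h2
    have h4 := (mul_eq_zero.1 h3).resolve_left (sub_ne_zero.2 h)
    rw [h4, mul_zero, add_zero] at h1
    exact hne' o ⟨h1, h4⟩
  obtain ⟨D, hD⟩ : ∃ D : Finset F, D = univ.filter fun t => ∃ o, a o + t * b o = 0 := ⟨_, rfl⟩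
  have hDm : ∀ t, t ∈ D ↔ ∃ o, a o + t * b o = 0 := by
    intro t
    rw [hD, mem_filter]
    simp
  by_cases hdbl : ∃ (o o' : Option J) (t : F), o ≠ o' ∧ a o + t * b o = 0 ∧ a o' + t * b o' = 0
  · exfalso
    obtain ⟨j, tw, hj1, hj2⟩ : ∃ (j : J) (t : F), a none + t * b none = 0 ∧
        a (some j) + t * b (some j) = 0 := by
      obtain ⟨o, o', t, hoo, h1, h2⟩ := hdbl
      rcases o with _ | j
      · rcases o' with _ | j'
        · exact absurd rfl hoo
        · exact ⟨j', t, h1, h2⟩
      · rcases o' with _ | j'
        · exact ⟨j, t, h2, h1⟩
        · exact absurd (congrArg some (hrad' j j' t h1 h2)) hoo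
    -- determined directions different from `tw` are not in `D`
    have hN : ∀ t, t ≠ tw → ¬ Function.Injective (fun o => a o + t * b o) → t ∉ D := by
      intro t htw hni ht
      rw [hDm] at ht
      obtain ⟨o, ho⟩ := ht
      obtain ⟨o', hoo, ho'⟩ := ((hd t).resolve_left hni) o ho
      have h1 : a none + t * b none = 0 := by
        rcases o with _ | i
        · exact ho
        · rcases o' with _ | i'
          · exact ho'
          · exact absurd (congrArg some (hrad' i' i t ho' ho)) hoo
      exact htw (hzuniq none t tw h1 hj1)
    -- `D` is large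
    have hDc : Fintype.card F ≤ D.card + 2 := by
      have h1 : (univ.filter fun i : J => b (some i) = 0).card ≤ 1 := by
        rw [card_le_one]
        intro i hi i' hi'
        have := hb ((mem_filter.1 hi).2.trans (mem_filter.1 hi').2.symm)
        exact Option.some.inj this
      have h2 := card_filter_add_card_filter_not (s := (univ : Finset J)) fun i => b (some i) = 0
      have h3 : (univ.filter fun i : J => ¬ b (some i) = 0).card ≤ D.card := by
        refine card_le_card_of_injOn (fun i => - a (some i) / b (some i)) ?_ ?_
        · intro i hi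
          have hi' := (mem_filter.1 (mem_coe.1 hi)).2
          rw [mem_coe, hDm]
          refine ⟨some i, ?_⟩
          rw [div_mul_cancel₀ _ hi']
          ring
        · intro i hi i' hi' h
          have e1 := (mem_filter.1 (mem_coe.1 hi)).2
          have e2 := (mem_filter.1 (mem_coe.1 hi')).2
          have h' : - a (some i) / b (some i) = - a (some i') / b (some i') := h
          refine hrad' i i' (- a (some i) / b (some i)) ?_ ?_
          · rw [div_mul_cancel₀ _ e1]
            ring
          · rw [h', div_mul_cancel₀ _ e2]
            ring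
      rw [card_univ] at h2
      omega
    obtain ⟨E, hE⟩ : ∃ E : Finset F, E = univ \ D := ⟨_, rfl⟩
    have hEc : E.card ≤ 2 := by
      rw [hE, card_sdiff_of_subset (subset_univ _), card_univ]
      omega
    have hα : ∀ o : Option J, o ≠ none → o ≠ some j → ∃ α ∈ E, ∃ β ∈ E, α ≠ β ∧
        a o + α * b o = a none + α * b none ∧ a o + β * b o = a (some j) + β * b (some j) := by
      intro o h1 h2
      obtain ⟨i, rfl⟩ : ∃ i, o = some i := Option.ne_none_iff_exists'.1 h1
      have hij : i ≠ j := fun h => h2 (by rw [h])
      obtain ⟨α, hα⟩ := hdir (some i) none h1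
      obtain ⟨β, hβ⟩ := hdir (some i) (some j) h2
      have hαw : α ≠ tw := by
        rintro rfl
        rw [hj1] at hα
        exact hij (hrad' i j α hα hj2)
      have hβw : β ≠ tw := by
        rintro rfl
        rw [hj2] at hβ
        exact hij (hrad' i j β hβ hj2)
      have hαN : ¬ Function.Injective (fun o => a o + α * b o) := fun h => h1 (h hα)
      have hβN : ¬ Function.Injective (fun o => a o + β * b o) := fun h => h2 (h hβ)
      refine ⟨α, ?_, β, ?_, ?_, hα, hβ⟩
      · rw [hE, mem_sdiff]
        exact ⟨mem_univ _, hN α hαw hαN⟩
      · rw [hE, mem_sdiff]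
        exact ⟨mem_univ _, hN β hβw hβN⟩
      · rintro rfl
        have h3 : a none + α * b none = a (some j) + α * b (some j) := hα.symm.trans hβ
        have h4 : a none + tw * b none = a (some j) + tw * b (some j) := by rw [hj1, hj2]
        have := huniq none (some j) α tw hαw h3 h4
        exact absurd this (by simp)
    have hα' : ∀ o : Option J, ∃ α : F, o ≠ none → o ≠ some j → α ∈ E ∧ ∃ β ∈ E, α ≠ β ∧
        a o + α * b o = a none + α * b none ∧ a o + β * b o = a (some j) + β * b (some j) := by
      intro o
      by_cases h1 : o = none
      · exact ⟨0, fun h => absurd h1 h⟩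
      by_cases h2 : o = some j
      · exact ⟨0, fun _ h => absurd h2 h⟩
      obtain ⟨α, hα1, hα2⟩ := hα o h1 h2
      exact ⟨α, fun _ _ => ⟨hα1, hα2⟩⟩
    choose α hα' using hα'
    have h5 : ((univ.erase none).erase (some j) : Finset (Option J)).card ≤ E.card := by
      refine card_le_card_of_injOn α ?_ ?_
      · intro o ho
        rw [mem_coe, mem_erase, mem_erase] at ho
        exact (hα' o ho.2.1 ho.1).1
      · intro o ho o' ho' h
        rw [mem_coe, mem_erase, mem_erase] at ho ho'
        obtain ⟨e1, β, e2, e3, e4, e5⟩ := hα' o ho.2.1 ho.1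
        obtain ⟨f1, β', f2, f3, f4, f5⟩ := hα' o' ho'.2.1 ho'.1
        have hβ : β = β' := by
          by_contra hne
          have h6 : ({α o, β, β'} : Finset F) ⊆ E := by
            intro x hx
            rw [mem_insert, mem_insert, mem_singleton] at hx
            rcases hx with rfl | rfl | rfl
            · exact e1
            · exact e2
            · exact f2
          have h7 := card_le_card h6
          rw [card_insert_of_notMem, card_insert_of_notMem, card_singleton] at h7
          · omega
          · rw [mem_singleton]
            exact hne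
          · rw [mem_insert, mem_singleton]
            rintro (h8 | h8)
            · exact e3 h8
            · exact f3 (h.symm.trans h8)
        refine huniq o o' (α o) β e3 ?_ ?_
        · rw [e4, h, f4]
        · rw [e5, hβ, f5]
    rw [card_erase_of_mem (mem_erase.2 ⟨by simp, mem_univ _⟩), card_erase_of_mem (mem_univ _),
      card_univ, Fintype.card_option] at h5
    omega
  · push Not at hdbl
    -- exactly one direction is not in `D`
    have hDc : D.card + 1 = Fintype.card F := by
      obtain ⟨o₀, ho₀⟩ : ∃ o, b o = 0 := by
        have h1 : Function.Bijective b := by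
          rw [Fintype.bijective_iff_injective_and_card, Fintype.card_option]
          exact ⟨hb, hJ⟩
        exact h1.2 0
      have h1 : D = (univ.erase o₀).image fun o => - a o / b o := by
        ext t
        rw [hDm, mem_image]
        constructor
        · rintro ⟨o, ho⟩
          have h2 : b o ≠ 0 := by
            intro h
            rw [h, mul_zero, add_zero] at ho
            exact hne' o ⟨ho, h⟩
          refine ⟨o, mem_erase.2 ⟨?_, mem_univ _⟩, ?_⟩
          · rintro rfl
            exact h2 ho₀
          · rw [div_eq_iff h2]
            linear_combination -ho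
        · rintro ⟨o, ho, rfl⟩
          have h2 : b o ≠ 0 := by
            intro h
            exact (mem_erase.1 ho).1 (hb (h.trans ho₀.symm))
          refine ⟨o, ?_⟩
          rw [div_mul_cancel₀ _ h2]
          ring
      have h3 : Set.InjOn (fun o => - a o / b o) ((univ.erase o₀ : Finset (Option J)) : Set _) := by
        intro o ho o' ho' h
        rw [mem_coe, mem_erase] at ho ho'
        have e1 : b o ≠ 0 := fun h => ho.1 (hb (h.trans ho₀.symm))
        have e2 : b o' ≠ 0 := fun h => ho'.1 (hb (h.trans ho₀.symm))
        have h' : - a o / b o = - a o' / b o' := h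
        by_contra hne
        refine hdbl o o' (- a o / b o) hne ?_ ?_
        · rw [div_mul_cancel₀ _ e1]
          ring
        · rw [h', div_mul_cancel₀ _ e2]
          ring
      rw [h1, card_image_of_injOn h3, card_erase_of_mem (mem_univ _), card_univ,
        Fintype.card_option]
      omega
    have hE : (univ \ D).card = 1 := by
      rw [card_sdiff_of_subset (subset_univ _), card_univ]
      omega
    obtain ⟨t₀, ht₀⟩ := card_eq_one.1 hE
    have hall : ∀ o o' : Option J, a o + t₀ * b o = a o' + t₀ * b o' := by
      intro o o'
      by_cases hoo : o = o'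
      · rw [hoo]
      obtain ⟨t, ht⟩ := hdir o o' hoo
      have hni : ¬ Function.Injective (fun o => a o + t * b o) := fun h => hoo (h ht)
      have h1 : t ∉ D := by
        intro h
        rw [hDm] at h
        obtain ⟨o₁, ho₁⟩ := h
        obtain ⟨o₂, h2, h3⟩ := ((hd t).resolve_left hni) o₁ ho₁
        exact hdbl o₂ o₁ t h2 h3 ho₁
      have h2 : t ∈ univ \ D := mem_sdiff.2 ⟨mem_univ _, h1⟩
      rw [ht₀, mem_singleton] at h2
      rw [← h2]
      exact ht
    refine ⟨t₀, a none + t₀ * b none, ?_, fun o => hall o none⟩
    intro h
    have h1 : t₀ ∈ univ \ D := by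
      rw [ht₀]
      exact mem_singleton_self _
    rw [mem_sdiff, hDm] at h1
    exact h1.2 ⟨none, h⟩

/-- adding minus the sum makes an injective map on `q - 1` elements bijective -/
theorem ext_bij (f : J → F) (hf : Function.Injective f) (hJ : Fintype.card J + 1 = Fintype.card F)
    (hq : 2 < Fintype.card F) :
    Function.Bijective fun o : Option J => o.elim (- ∑ j, f j) f := by
  classical
  rw [Fintype.bijective_iff_injective_and_card, Fintype.card_option]
  refine ⟨?_, hJ⟩
  have h1 : ((univ : Finset F) \ univ.image f).card = 1 := by
    rw [card_sdiff_of_subset (subset_univ _), card_univ, card_image_of_injective _ hf, card_univ]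
    omega
  obtain ⟨m, hm⟩ := card_eq_one.1 h1
  have hmm : m ∈ (univ : Finset F) \ univ.image f := by
    rw [hm]
    exact mem_singleton_self _
  have hsum : ∑ x : F, x = 0 := by
    have h3 := FiniteField.sum_pow_lt_card_sub_one F 1 (by omega)
    simpa using h3
  rw [← sum_sdiff (subset_univ (univ.image f)), hm, sum_singleton,
    sum_image (fun x _ y _ h => hf h)] at hsum
  have h2 : - ∑ j, f j = m := by linear_combination -hsum
  have h3 : ∀ j, f j ≠ m := by
    intro j h
    exact (mem_sdiff.1 hmm).2 (mem_image.2 ⟨j, mem_univ _, h⟩)
  intro o o' h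
  rcases o with _ | j <;> rcases o' with _ | j'
  · rfl
  · simp only [Option.elim_none, Option.elim_some] at h
    exact absurd (h.symm.trans h2) (h3 j')
  · simp only [Option.elim_none, Option.elim_some] at h
    exact absurd (h.trans h2) (h3 j)
  · simp only [Option.elim_some] at h
    rw [hf h]

/-- the main step: `q - 1` points, one on every line through the origin (but two), which do not
determine the direction `∞` and the directions in `T`, are collinear -/
theorem main (A B : J → F) (hq : 4 < Fintype.card F) (hJ : Fintype.card J + 1 = Fintype.card F)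
    (hrad : ∀ j j' : J, j ≠ j' → A j * B j' ≠ A j' * B j) (hB : Function.Injective B)
    (T : Finset F) (hT : ∀ t ∈ T, Function.Injective fun j => A j + t * B j) (d : ℕ) (hd : 1 ≤ d)
    (hTd : T.card + d + 1 = Fintype.card F) (hdq : 2 * d ≤ Fintype.card F) :
    ∃ t₀ κ, κ ≠ 0 ∧ ∀ j, A j + t₀ * B j = κ := by
  obtain ⟨a, ha⟩ : ∃ a : Option J → F, a = fun o => o.elim (- ∑ j, A j) A := ⟨_, rfl⟩
  obtain ⟨b, hb⟩ : ∃ b : Option J → F, b = fun o => o.elim (- ∑ j, B j) B := ⟨_, rfl⟩
  have hbb : Function.Bijective b := by
    rw [hb]
    exact ext_bij B hB hJ (by omega)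
  have hZ : Fintype.card (Option J) = Fintype.card F := by
    rw [Fintype.card_option]
    exact hJ
  have hTb : ∀ t ∈ T, Function.Bijective fun o => a o + t * b o := by
    intro t ht
    have h1 := ext_bij _ (hT t ht) hJ (by omega)
    convert h1 using 1
    funext o
    rcases o with _ | j
    · rw [ha, hb]
      simp only [Option.elim_none]
      rw [sum_add_distrib, ← mul_sum]
      ring
    · rw [ha, hb]
      rfl
  obtain ⟨t₀, κ, hκ, h⟩ := core a b hq hJ hbb.1 (by
    intro j j' hjj
    rw [ha, hb]
    exact hrad j j' hjj) T (by omega) (fun t ht => (hTb t ht).1) (by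
    intro t
    refine lac (fun o => a o + t * b o) hZ d hd hdq ?_
    intro i hi hiq
    exact coeff_zero a b hZ hbb T hTb t i (Fintype.card F - i) (by omega) (by omega) (by omega)
      (by omega))
  refine ⟨t₀, κ, hκ, fun j => ?_⟩
  have h1 := h (some j)
  rw [ha, hb] at h1
  exact h1

end Pool.MP_0af767_co.Half
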