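import Mathlib

/-!
# MP_0af767_co: fully reducible lacunary polynomials

`A + t B` (`t` in the field `F` with `q` elements) are functions on a set `Z` with `q` elements. If
they are bijective for `t = ∞` (this is `B`) and for the `t` in a set `T` with at least
`q - 1 - d` elements, and `2 d ≤ q`, then for every `t` the function `A + t B` is bijective or
does not take the value `0` exactly once.
-/

set_option autoImplicit false

namespace Pool.MP_0af767_co.Half

open Finset Polynomial

variable {F : Type*} [Field F] {Z : Type*}

/-- the product of the linear factors, with coefficients in `F[t]` -/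
noncomputable def biv (A B : Z → F) (s : Finset Z) : F[X][X] :=
  ∏ o ∈ s, (X - C (C (A o) + C (B o) * X))

theorem biv_natDegree (A B : Z → F) (s : Finset Z) : (biv A B s).natDegree = s.card := by
  unfold biv
  rw [natDegree_prod_of_monic _ _ fun o _ => monic_X_sub_C _,
    sum_congr rfl fun o _ => natDegree_X_sub_C _]
  simp

theorem biv_coeff (A B : Z → F) (s : Finset Z) : ∀ i k, i + k = s.card →
    ((biv A B s).coeff i).natDegree ≤ k ∧
      ((biv A B s).coeff i).coeff k = (∏ o ∈ s, (X - C (B o))).coeff i := by
  classical
  induction s using Finset.induction_on with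
  | empty =>
    intro i k h
    rw [card_empty] at h
    obtain ⟨rfl, rfl⟩ : i = 0 ∧ k = 0 := by omega
    simp [biv]
  | insert o s ho ih =>
    intro i k h
    rw [card_insert_of_notMem ho] at h
    have hP : biv A B (insert o s) = (X - C (C (A o) + C (B o) * X)) * biv A B s := by
      unfold biv
      rw [prod_insert ho]
    have hBs : (∏ o' ∈ s, (X - C (B o'))).natDegree = s.card := by
      rw [natDegree_prod_of_monic _ _ fun o _ => monic_X_sub_C _]
      simp
    have e1 : ((X - C (C (A o) + C (B o) * X)) * biv A B s).coeff i =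
        (X * biv A B s).coeff i - (C (A o) + C (B o) * X) * (biv A B s).coeff i := by
      rw [sub_mul, coeff_sub, coeff_C_mul]
    have e2 : ((X - C (B o)) * ∏ o' ∈ s, (X - C (B o'))).coeff i =
        (X * ∏ o' ∈ s, (X - C (B o'))).coeff i - B o * (∏ o' ∈ s, (X - C (B o'))).coeff i := by
      rw [sub_mul, coeff_sub, coeff_C_mul]
    rw [hP, prod_insert ho, e1, e2]
    have hl : (C (A o) + C (B o) * X : F[X]).natDegree ≤ 1 := by
      compute_degree
    have hlc : ∀ (c : F[X]) (k : ℕ), c.natDegree ≤ k →
        ((C (A o) + C (B o) * X) * c).natDegree ≤ k + 1 ∧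
        ((C (A o) + C (B o) * X) * c).coeff (k + 1) = B o * c.coeff k := by
      intro c k hc
      refine ⟨(natDegree_mul_le_of_le hl hc).trans (by omega), ?_⟩
      rw [add_mul, coeff_add, coeff_C_mul, mul_assoc, coeff_C_mul, coeff_X_mul,
        coeff_eq_zero_of_natDegree_lt (by omega : c.natDegree < k + 1)]
      ring
    rcases i with _ | i
    · rcases k with _ | k
      · omega
      · have h1 := ih 0 k (by omega)
        have h2 := hlc _ k h1.1
        rw [coeff_X_mul_zero, coeff_X_mul_zero]
        refine ⟨?_, ?_⟩
        · rw [zero_sub, natDegree_neg]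
          exact h2.1
        · rw [zero_sub, coeff_neg, h2.2, h1.2]
          ring
    · rw [coeff_X_mul, coeff_X_mul]
      have h1 := ih i k (by omega)
      rcases k with _ | k
      · have h3 : (biv A B s).coeff (i + 1) = 0 :=
          coeff_eq_zero_of_natDegree_lt (by rw [biv_natDegree]; omega)
        have h4 : (∏ o' ∈ s, (X - C (B o'))).coeff (i + 1) = 0 :=
          coeff_eq_zero_of_natDegree_lt (by rw [hBs]; omega)
        rw [h3, h4, mul_zero, sub_zero, mul_zero, sub_zero]
        exact h1
      · have h3 := ih (i + 1) k (by omega)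
        have h4 := hlc _ k h3.1
        refine ⟨(natDegree_sub_le_of_le h1.1 h4.1).trans (by omega), ?_⟩
        rw [coeff_sub, h1.2, h4.2, h3.2]

theorem biv_map (A B : Z → F) (s : Finset Z) (t : F) :
    (biv A B s).map (evalRingHom t) = ∏ o ∈ s, (X - C (A o + t * B o)) := by
  unfold biv
  rw [Polynomial.map_prod]
  refine prod_congr rfl fun o _ => ?_
  rw [Polynomial.map_sub, map_X, map_C]
  have h : (evalRingHom t) (C (A o) + C (B o) * X) = A o + t * B o := by
    rw [coe_evalRingHom, eval_add, eval_C, eval_mul, eval_C, eval_X]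
    ring
  rw [h]

variable [Fintype F] [Fintype Z]

theorem prod_all : ∏ a : F, (X - C a) = X ^ Fintype.card F - X := by
  classical
  have hq : 1 < Fintype.card F := Fintype.one_lt_card
  have h1 : (X ^ Fintype.card F - X : F[X]).Monic := by
    refine (monic_X_pow _).sub_of_left ?_
    rw [degree_X_pow, degree_X]
    exact_mod_cast hq
  have h2 := prod_multiset_X_sub_C_of_monic_of_roots_card_eq h1 (by
    rw [FiniteField.roots_X_pow_card_sub_X, FiniteField.X_pow_card_sub_X_natDegree_eq F hq]
    rfl)
  rw [FiniteField.roots_X_pow_card_sub_X] at h2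
  exact h2

theorem prod_bij {v : Z → F} (hv : Function.Bijective v) :
    ∏ o, (X - C (v o)) = X ^ Fintype.card F - X := by
  rw [← prod_all]
  exact hv.prod_comp (fun a => X - C a)

/-- the coefficients vanish for all `t` -/
theorem coeff_zero (A B : Z → F) (hZ : Fintype.card Z = Fintype.card F)
    (hB : Function.Bijective B) (T : Finset F)
    (hT : ∀ t ∈ T, Function.Bijective fun o => A o + t * B o) (t : F) (i k : ℕ)
    (hik : i + k = Fintype.card F) (hi : 2 ≤ i) (hk : 1 ≤ k) (hkT : k ≤ T.card) :
    (∏ o, (X - C (A o + t * B o))).coeff i = 0 := by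
  have h0 : ∀ t, (∏ o, (X - C (A o + t * B o))).coeff i = ((biv A B univ).coeff i).eval t := by
    intro t
    rw [← biv_map, coeff_map]
    rfl
  have hz : (X ^ Fintype.card F - X : F[X]).coeff i = 0 := by
    rw [coeff_sub, coeff_X_pow, coeff_X, if_neg (by omega), if_neg (by omega), sub_zero]
  have h1 := biv_coeff A B univ i k (by rw [card_univ, hZ, hik])
  rw [prod_bij hB, hz] at h1
  have h2 : (biv A B univ).coeff i = 0 := by
    refine eq_zero_of_degree_lt_of_eval_finset_eq_zero T ?_ ?_
    · refine lt_of_lt_of_le ?_ (Nat.cast_le.2 hkT)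
      rw [degree_lt_iff_coeff_zero]
      intro n hn
      rcases Nat.eq_or_lt_of_le hn with rfl | hn
      · exact h1.2
      · exact coeff_eq_zero_of_natDegree_lt (lt_of_le_of_lt h1.1 hn)
    · intro t ht
      rw [← h0, prod_bij (hT t ht), hz]
  rw [h0, h2, eval_zero]

/-- a fully reducible polynomial `X ^ q + g` divides `(g + X) g'` -/
theorem dvd_lac (v : Z → F) :
    ∏ o, (X - C (v o)) ∣ (∏ o, (X - C (v o)) - X ^ Fintype.card F + X) *
      derivative (∏ o, (X - C (v o))) := by
  classical
  have h1 : ∏ o, (X - C (v o)) = ∏ a : F, (X - C a) ^ (univ.filter fun o => v o = a).card := by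
    rw [← prod_fiberwise_of_maps_to (s := univ) (t := univ) (g := v) (fun _ _ => mem_univ _)]
    refine prod_congr rfl fun a _ => ?_
    rw [prod_congr rfl (g := fun _ => X - C a), prod_const]
    intro o ho
    rw [(mem_filter.1 ho).2]
  have key : ∀ a : F, (X - C a) ^ (univ.filter fun o => v o = a).card ∣
      (∏ o, (X - C (v o)) - X ^ Fintype.card F + X) * derivative (∏ o, (X - C (v o))) := by
    intro a
    have h2 : (X - C a) ^ (univ.filter fun o => v o = a).card ∣ ∏ o, (X - C (v o)) := by
      rw [h1]
      exact dvd_prod_of_mem (fun a : F => (X - C a) ^ (univ.filter fun o => v o = a).card)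
        (mem_univ a)
    rcases Nat.eq_zero_or_pos (univ.filter fun o => v o = a).card with h3 | h3
    · rw [h3, pow_zero]
      exact one_dvd _
    · have h4 : (X - C a) ∣ (∏ o, (X - C (v o)) - X ^ Fintype.card F + X) := by
        rw [dvd_iff_isRoot, IsRoot.def, eval_add, eval_sub, eval_pow, eval_X,
          FiniteField.pow_card]
        obtain ⟨o, ho⟩ := card_pos.1 h3
        rw [eval_prod, prod_eq_zero (mem_univ o)]
        · ring
        · rw [(mem_filter.1 ho).2]
          simp
      have h5 := pow_sub_one_dvd_derivative_of_pow_dvd h2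
      obtain ⟨m, hm⟩ : ∃ m, (univ.filter fun o => v o = a).card = m + 1 := ⟨_, by
        rw [Nat.sub_add_cancel h3]⟩
      rw [hm, Nat.add_sub_cancel] at h5
      rw [hm, pow_succ']
      exact mul_dvd_mul h4 h5
  conv_lhs => rw [h1]
  refine Finset.prod_dvd_of_coprime ?_ fun a _ => key a
  intro a _ b _ hab
  exact (pairwise_coprime_X_sub_C Function.injective_id hab).pow

/-- a lacunary fully reducible polynomial -/
theorem lac (v : Z → F) (hZ : Fintype.card Z = Fintype.card F) (d : ℕ) (hd : 1 ≤ d)
    (hdq : 2 * d ≤ Fintype.card F)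
    (hc : ∀ i, d < i → i < Fintype.card F → (∏ o, (X - C (v o))).coeff i = 0) :
    Function.Injective v ∨ ∀ o, v o = 0 → ∃ o', o' ≠ o ∧ v o' = 0 := by
  classical
  have hq : 1 < Fintype.card F := Fintype.one_lt_card
  set R := ∏ o, (X - C (v o)) with hR
  have hRm : R.Monic := monic_prod_of_monic _ _ fun o _ => monic_X_sub_C _
  have hRd : R.natDegree = Fintype.card F := by
    rw [hR, natDegree_prod_of_monic _ _ fun o _ => monic_X_sub_C _]
    simp [hZ]
  have hder : derivative (X ^ Fintype.card F : F[X]) = 0 := by
    rw [derivative_X_pow, FiniteField.cast_card_eq_zero, C_0, zero_mul]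
  have hg : (R - X ^ Fintype.card F).natDegree ≤ d := by
    rw [natDegree_le_iff_coeff_eq_zero]
    intro i hi
    rw [coeff_sub, coeff_X_pow]
    rcases lt_trichotomy i (Fintype.card F) with h | h | h
    · rw [hc i hi h, if_neg (by omega), sub_zero]
    · have h1 : R.coeff i = 1 := by
        rw [h, ← hRd]
        exact hRm
      rw [h1, if_pos h, sub_self]
    · rw [coeff_eq_zero_of_natDegree_lt (by omega), if_neg (by omega), sub_zero]
  have hdg : derivative R = derivative (R - X ^ Fintype.card F) := by
    rw [derivative_sub, hder, sub_zero]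
  have hdvd := dvd_lac v
  rw [← hR] at hdvd
  have hzero : (R - X ^ Fintype.card F + X) * derivative R = 0 := by
    by_contra hne
    have h1 := natDegree_le_of_dvd hdvd hne
    have h2 : (R - X ^ Fintype.card F + X).natDegree ≤ d := by
      refine (natDegree_add_le_of_le hg natDegree_X_le).trans ?_
      omega
    have h3 : (derivative R).natDegree ≤ d - 1 := by
      rw [hdg]
      exact (natDegree_derivative_le _).trans (by omega)
    have h4 := natDegree_mul_le (p := R - X ^ Fintype.card F + X) (q := derivative R)
    omega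
  rcases mul_eq_zero.1 hzero with h1 | h1
  · left
    have h2 : R = X ^ Fintype.card F - X := by
      linear_combination h1
    have h3 : Function.Surjective v := by
      intro a
      have h4 : R.eval a = 0 := by
        rw [h2, eval_sub, eval_pow, eval_X, FiniteField.pow_card, sub_self]
      rw [hR, eval_prod, prod_eq_zero_iff] at h4
      obtain ⟨o, -, ho⟩ := h4
      rw [eval_sub, eval_X, eval_C, sub_eq_zero] at ho
      exact ⟨o, ho.symm⟩
    exact ((Fintype.bijective_iff_surjective_and_card v).2 ⟨h3, hZ⟩).1
  · right
    intro o ho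
    by_contra hno
    push Not at hno
    have h2 : (derivative R).eval 0 = ∏ o' ∈ univ.erase o, (0 - v o') := by
      rw [hR, derivative_prod_finset, eval_finsetSum, sum_eq_single o]
      · simp [eval_prod]
      · intro b _ hb
        rw [eval_mul, eval_prod, prod_eq_zero (i := o), zero_mul]
        · exact mem_erase.2 ⟨Ne.symm hb, mem_univ _⟩
        · simp [ho]
      · intro h
        exact absurd (mem_univ o) h
    rw [h1, eval_zero] at h2
    have h3 := prod_ne_zero_iff.2 (fun o' (ho' : o' ∈ univ.erase o) =>
      sub_ne_zero.2 (Ne.symm (hno o' (mem_erase.1 ho').1)))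
    exact h3 h2.symm

end Pool.MP_0af767_co.Half
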