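import Pool.Agent.Lib.MP_0af767_co.Stab

/-!
# MP_0af767_co: a linear (2,q,q)-AONT has few rows in common with a matrix of full size

`X` is a `(q + 1) × (q + 1)` matrix over the field with `q` elements all of whose `2 × 2` minors are non-zero.
-/

namespace Pool.MP_0af767_co

open Finset Matrix

variable {F : Type*} [Field F] {ι m n : Type*}

theorem zero_unique [Fintype ι] [DecidableEq ι] {M : Matrix ι n F} (hM : TwoReg M) (hι : 1 < Fintype.card ι) {i : ι} {j j' : n}
    (h : M i j = 0) (h' : M i j' = 0) : j = j' := by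
  by_contra hne
  obtain ⟨k, hk⟩ := Fintype.exists_ne_of_one_lt_card hι i
  apply hM i k (Ne.symm hk) j j' hne
  rw [h, h']
  ring

theorem exists_join [Fintype F] [DecidableEq F] [Fintype m] [DecidableEq m] [DecidableEq n] {X : Matrix m n F} (hX : TwoReg X)
    (hm : Fintype.card m = Fintype.card F + 1) {j j' : n} (hj : j ≠ j') {u v : F} (hu : u ≠ 0) (hv : v ≠ 0) :
    ∃ s : m, X s j ≠ 0 ∧ X s j' ≠ 0 ∧ X s j / u = X s j' / v := by
  obtain ⟨s, hs⟩ := (rat_bij hX.transpose hm hj).2 (some (u / v))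
  unfold rat at hs
  rw [transpose_apply, transpose_apply] at hs
  by_cases h : X s j' = 0
  · rw [if_pos h] at hs
    exact absurd hs (by simp)
  rw [if_neg h] at hs
  have h1 : X s j / X s j' = u / v := Option.some.inj hs
  have h2 : X s j ≠ 0 := by
    intro h0
    rw [h0, zero_div] at h1
    exact (div_ne_zero hu hv) h1.symm
  refine ⟨s, h2, h, ?_⟩
  rw [div_eq_div_iff h hv] at h1
  rw [div_eq_div_iff hu hv]
  linear_combination h1

theorem exists_zero [Fintype F] [DecidableEq F] [Fintype m] [Fintype n] [DecidableEq m] [DecidableEq n] {X : Matrix m n F}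
    (hX : TwoReg X) (hm : 1 < Fintype.card m) (hn : Fintype.card n = Fintype.card F + 1) (s : m) : ∃ l : n, X s l = 0 := by
  obtain ⟨k, hk⟩ := Fintype.exists_ne_of_one_lt_card hm s
  obtain ⟨l, hl⟩ := (rat_bij hX hn (Ne.symm hk)).2 (some 0)
  unfold rat at hl
  by_cases h : X k l = 0
  · rw [if_pos h] at hl
    exact absurd hl (by simp)
  rw [if_neg h] at hl
  exact ⟨l, (div_eq_zero_iff.1 (Option.some.inj hl)).resolve_right h⟩

/-- The columns where two rows are non-zero. -/
theorem two_cols [Fintype ι] [DecidableEq ι] [DecidableEq F] {M : Matrix ι ι F} (hM : TwoReg M) (hι : 3 < Fintype.card ι) (i i' : ι) :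
    ∃ j j' : ι, j ≠ j' ∧ M i j ≠ 0 ∧ M i j' ≠ 0 ∧ M i' j ≠ 0 ∧ M i' j' ≠ 0 := by
  have h1 : ∀ k : ι, (univ.filter fun j => M k j = 0).card ≤ 1 := by
    intro k
    rw [card_le_one]
    intro a ha b hb
    exact zero_unique hM (by omega) (mem_filter.1 ha).2 (mem_filter.1 hb).2
  have h2 : 1 < (univ.filter fun j => M i j ≠ 0 ∧ M i' j ≠ 0).card := by
    have h3 : (univ : Finset ι) ⊆ (univ.filter fun j => M i j ≠ 0 ∧ M i' j ≠ 0) ∪ ((univ.filter fun j => M i j = 0) ∪
        (univ.filter fun j => M i' j = 0)) := by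
      intro j _
      simp only [mem_union, mem_filter, mem_univ, true_and]
      tauto
    have h4 := card_le_card h3
    rw [card_univ] at h4
    have h5 := card_union_le (univ.filter fun j => M i j ≠ 0 ∧ M i' j ≠ 0) ((univ.filter fun j => M i j = 0) ∪
        (univ.filter fun j => M i' j = 0))
    have h6 := card_union_le (univ.filter fun j => M i j = 0) (univ.filter fun j => M i' j = 0)
    have h7 := h1 i
    have h8 := h1 i'
    omega
  obtain ⟨j, hj, j', hj', hne⟩ := one_lt_card.1 h2
  obtain ⟨-, a1, a2⟩ := mem_filter.1 hj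
  obtain ⟨-, b1, b2⟩ := mem_filter.1 hj'
  exact ⟨j, j', hne, a1, b1, a2, b2⟩

/-- A row of `M` outside the common rows is, up to one entry, a multiple of a row of `X`. -/
theorem row_line [Fintype F] [DecidableEq F] [Fintype ι] [DecidableEq ι] [Fintype m] [DecidableEq m] [Fintype n] [DecidableEq n]
    (hq : 3 < Fintype.card F) (hι : Fintype.card ι = Fintype.card F) {M : Matrix ι ι F} (hM : TwoReg M) {X : Matrix m n F}
    (hX : TwoReg X) (hm : Fintype.card m = Fintype.card F + 1) (c : ι → n) (hc : Function.Injective c) (B : Finset ι)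
    (r : ι → m) (a : ι → F) (hB : ∀ i ∉ B, ∀ j, M i j = a i * X (r i) (c j)) (hlt : B.card ^ 2 + 1 < Fintype.card F) {P : ι} (hP : P ∈ B) :
    ∃ s : m, ∃ v : F, v ≠ 0 ∧ ∀ j, M P j ≠ 0 → X s (c j) = v * M P j := by
  obtain ⟨S, hSdef⟩ : ∃ S : Finset m, S = univ \ (Bᶜ.image r) := ⟨_, rfl⟩
  have hinj : Set.InjOn r (Bᶜ : Finset ι) := by
    intro i hi i' hi' h
    rw [mem_coe, mem_compl] at hi hi'
    by_contra hne
    obtain ⟨j, j', hjj, -⟩ := two_cols hM (by omega) i i'
    apply hM i i' hne j j' hjj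
    rw [hB i hi, hB i hi, hB i' hi', hB i' hi', h]
    ring
  have hScard : S.card ≤ B.card + 1 := by
    rw [hSdef, card_sdiff_of_subset (subset_univ _), card_univ, card_image_of_injOn hinj, card_compl, hm, hι]
    have := card_le_univ B
    rw [hι] at this
    omega
  obtain ⟨J, hJdef⟩ : ∃ J : Finset ι, J = univ.filter fun j => M P j ≠ 0 := ⟨_, rfl⟩
  have hJcard : Fintype.card F - 1 ≤ J.card := by
    have h1 : (univ.filter fun j => M P j = 0).card ≤ 1 := by
      rw [card_le_one]
      intro x hx y hy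
      exact zero_unique hM (by omega) (mem_filter.1 hx).2 (mem_filter.1 hy).2
    have h2 := card_filter_add_card_filter_not (s := (univ : Finset ι)) (fun j => M P j = 0)
    rw [card_univ, hι] at h2
    rw [hJdef]
    have h3 : (univ.filter fun j => M P j ≠ 0) = univ.filter fun j => ¬ (M P j = 0) := rfl
    rw [h3]
    omega
  have hmem : ∀ j ∈ J, M P j ≠ 0 := by
    intro j hj
    rw [hJdef] at hj
    exact (mem_filter.1 hj).2
  obtain ⟨s, -, v, hv, hs⟩ := stab J S (fun s j => X s (c j) / M P j) B.card hScard (by omega) (by omega) (by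
    intro j hj j' hj' hne
    obtain ⟨s, h1, h2, h3⟩ := exists_join hX hm (fun h => hne (hc h)) (hmem j hj) (hmem j' hj')
    refine ⟨s, ?_, div_ne_zero h1 (hmem j hj), h3⟩
    rw [hSdef, mem_sdiff]
    refine ⟨mem_univ _, fun hs => ?_⟩
    obtain ⟨i, hi, rfl⟩ := mem_image.1 hs
    rw [mem_compl] at hi
    have hiP : i ≠ P := by
      rintro rfl
      exact hi hP
    apply hM i P hiP j j' hne
    rw [hB i hi, hB i hi]
    rw [div_eq_div_iff (hmem j hj) (hmem j' hj')] at h3
    linear_combination a i * h3) (by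
    intro j hj j' hj' hne s _ s' _ h1 h2 h3 h4
    by_contra hss
    apply hX s s' hss (c j) (c j') (fun h => hne (hc h))
    have hj0 := hmem j hj
    have hj0' := hmem j' hj'
    rw [div_eq_div_iff hj0 hj0'] at h2 h4
    have h5 : (X s (c j) * X s' (c j') - X s (c j') * X s' (c j)) * (M P j * M P j') = 0 := by
      linear_combination (X s' (c j') * M P j) * h2 - (X s (c j') * M P j) * h4
    exact (mul_eq_zero.1 h5).resolve_right (mul_ne_zero hj0 hj0'))
  refine ⟨s, v, hv, fun j hj => ?_⟩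
  have h1 := hs j (by rw [hJdef]; exact mem_filter.2 ⟨mem_univ _, hj⟩)
  exact (div_eq_iff hj).1 h1

theorem full_rows [Fintype F] [DecidableEq F] [Fintype ι] [DecidableEq ι] [Fintype m] [DecidableEq m] [Fintype n] [DecidableEq n]
    (hF : ¬ (Fintype.card F).Prime) (hι : Fintype.card ι = Fintype.card F) {M : Matrix ι ι F} (hM : IsAONT M) {X : Matrix m n F}
    (hX : TwoReg X) (hm : Fintype.card m = Fintype.card F + 1) (hn : Fintype.card n = Fintype.card F + 1) (c : ι → n)
    (hc : Function.Injective c) (B : Finset ι) (hB : ∀ i ∉ B, ∃ r : m, ∃ a : F, ∀ j, M i j = a * X r (c j)) :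
    Fintype.card F ≤ B.card ^ 2 + 1 := by
  by_contra hlt
  push Not at hlt
  obtain ⟨-, -, -, -, hq, -⟩ := card_facts hF
  have hne : Nonempty m := Fintype.card_pos_iff.1 (by omega)
  have hB' : ∀ i : ι, ∃ r : m, ∃ a : F, i ∉ B → ∀ j, M i j = a * X r (c j) := by
    intro i
    by_cases hi : i ∈ B
    · exact ⟨Classical.arbitrary m, 0, fun h => absurd hi h⟩
    · obtain ⟨r, a, h⟩ := hB i hi
      exact ⟨r, a, fun _ => h⟩
  choose r a hra using hB'
  have hall : ∀ i : ι, ∃ s : m, ∃ v : F, v ≠ 0 ∧ ∀ j, M i j ≠ 0 → X s (c j) = v * M i j := by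
    intro i
    by_cases hi : i ∈ B
    · exact row_line hq hι hM.2 hX hm c hc B r a (fun i hi => hra i hi) hlt hi
    · have ha : a i ≠ 0 := by
        intro h0
        obtain ⟨j, j', -, h1, -⟩ := two_cols hM.2 (by omega) i i
        apply h1
        rw [hra i hi j, h0, zero_mul]
      refine ⟨r i, (a i)⁻¹, inv_ne_zero ha, fun j _ => ?_⟩
      rw [hra i hi j, inv_mul_cancel_left₀ ha]
  choose s v hv hs using hall
  have hsinj : Function.Injective s := by
    intro i i' h
    by_contra hne
    obtain ⟨j, j', hjj, a1, a2, b1, b2⟩ := two_cols hM.2 (by omega) i i'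
    apply hM.2 i i' hne j j' hjj
    have e1 := hs i j a1
    have e2 := hs i j' a2
    have e3 := hs i' j b1
    have e4 := hs i' j' b2
    rw [← h] at e3 e4
    have h5 : (M i j * M i' j' - M i j' * M i' j) * (v i * v i') = 0 := by
      rw [e1] at e3
      rw [e2] at e4
      linear_combination (M i' j' * v i') * e3 - (M i' j * v i') * e4
    exact (mul_eq_zero.1 h5).resolve_right (mul_ne_zero (hv i) (hv i'))
  -- the bad entries
  have hbad : ∀ i j, M i j = 0 → X (s i) (c j) ≠ 0 → ∃ l, l ∉ Set.range c ∧ X (s i) l = 0 := by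
    intro i j h0 h1
    obtain ⟨l, hl⟩ := exists_zero hX (by omega) hn (s i)
    refine ⟨l, ?_, hl⟩
    rintro ⟨k, rfl⟩
    by_cases hk : M i k = 0
    · have : k = j := zero_unique hM.2 (by omega) hk h0
      rw [this] at hl
      exact h1 hl
    · rw [hs i k hk] at hl
      exact (mul_ne_zero (hv i) hk) hl
  have hout : ∀ l l' : n, l ∉ Set.range c → l' ∉ Set.range c → l = l' := by
    intro l l' hl hl'
    have h1 : (univ \ (univ.image c) : Finset n).card ≤ 1 := by
      rw [card_sdiff_of_subset (subset_univ _), card_univ, card_image_of_injective _ hc, card_univ, hn, hι]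
      omega
    refine card_le_one.1 h1 l ?_ l' ?_
    · rw [mem_sdiff]
      refine ⟨mem_univ _, fun h => ?_⟩
      obtain ⟨k, -, hk⟩ := mem_image.1 h
      exact hl ⟨k, hk⟩
    · rw [mem_sdiff]
      refine ⟨mem_univ _, fun h => ?_⟩
      obtain ⟨k, -, hk⟩ := mem_image.1 h
      exact hl' ⟨k, hk⟩
  have hrow : ∀ i j i' j', M i j = 0 → X (s i) (c j) ≠ 0 → M i' j' = 0 → X (s i') (c j') ≠ 0 → i = i' := by
    intro i j i' j' h0 h1 h0' h1'
    by_contra hne
    obtain ⟨l, hl, hl0⟩ := hbad i j h0 h1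
    obtain ⟨l', hl', hl0'⟩ := hbad i' j' h0' h1'
    rw [← hout l l' hl hl'] at hl0'
    refine hX (s i) (s i') (fun h => hne (hsinj h)) l (c j) (fun h => hl ⟨j, h.symm⟩) ?_
    rw [hl0, hl0']
    ring
  -- scaling of the rows
  obtain ⟨g, hg⟩ : ∃ g : m → F, g = Function.extend s (fun i => (v i)⁻¹) (fun _ => 1) := ⟨_, rfl⟩
  have hgs : ∀ i, g (s i) = (v i)⁻¹ := by
    intro i
    rw [hg]
    exact hsinj.extend_apply _ _ i
  have hg0 : ∀ t, g t ≠ 0 := by
    intro t
    by_cases ht : ∃ i, s i = t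
    · obtain ⟨i, rfl⟩ := ht
      rw [hgs]
      exact inv_ne_zero (hv i)
    · rw [hg, Function.extend_apply' _ _ _ ht]
      exact one_ne_zero
  obtain ⟨Z, hZ⟩ : ∃ Z : Matrix m n F, Z = Matrix.of fun t l => g t * X t l := ⟨_, rfl⟩
  have hZX : ∀ t l, Z t l = g t * X t l := by
    intro t l
    rw [hZ, of_apply]
  have hZreg : TwoReg Z := by
    intro t t' htt l l' hll h0
    rw [hZX, hZX, hZX, hZX] at h0
    have h1 : (X t l * X t' l' - X t l' * X t' l) * (g t * g t') = 0 := by linear_combination h0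
    exact hX t t' htt l l' hll ((mul_eq_zero.1 h1).resolve_right (mul_ne_zero (hg0 t) (hg0 t')))
  have hent : ∀ i j, (M i j = 0 → X (s i) (c j) = 0) → M i j = Z (s i) (c j) := by
    intro i j h
    rw [hZX, hgs]
    by_cases h0 : M i j = 0
    · rw [h h0, h0, mul_zero]
    · rw [hs i j h0, inv_mul_cancel_left₀ (hv i)]
  by_cases hex : ∃ i j, M i j = 0 ∧ X (s i) (c j) ≠ 0
  · obtain ⟨i, j, h0, h1⟩ := hex
    refine Pool.Agent.Results.MP_0af767_co.ExtensionBarrier.one_entry hF hι M hM (by omega) hn Z hZreg s c i j ?_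
    intro k l hkl
    refine hent k l fun hk0 => ?_
    by_contra hk1
    have h2 := hrow i j k l h0 h1 hk0 hk1
    subst h2
    have h3 := zero_unique hM.2 (by omega) hk0 h0
    subst h3
    exact hkl rfl
  · push Not at hex
    have hne' : Nonempty ι := Fintype.card_pos_iff.1 (by omega)
    refine Pool.Agent.Results.MP_0af767_co.ExtensionBarrier.one_entry hF hι M hM (by omega) hn Z hZreg s c
      (Classical.arbitrary ι) (Classical.arbitrary ι) ?_
    intro k l _
    exact hent k l (hex k l)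

end Pool.MP_0af767_co
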