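import Pool.Agent.Lib.MP_0af767_co.HalfCore
import Pool.Agent.Lib.MP_0af767_co.Rows

/-!
# MP_0af767_co: half of the rows of a linear (2,q,q)-AONT in a plane

`N` is a `q × q` matrix with non-zero `2 × 2` minors and a zero in every row; the rows outside `B`
lie in a plane. If `2 |B| ≤ q` then all rows lie in this plane, up to their zero entries.
-/

set_option autoImplicit false

namespace Pool.MP_0af767_co.Half

open Finset Matrix

variable {F : Type*} [Field F] {ι : Type*}

section zero

variable [Fintype F] [Fintype ι] [DecidableEq ι]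

/-- every row of an AONT contains a zero (`2 < q`): otherwise the vector of the inverses of the row
is orthogonal to all rows -/
theorem exists_zero_aont {M : Matrix ι ι F} (hM : IsAONT M)
    (hι : Fintype.card ι = Fintype.card F) (hq : 2 < Fintype.card F) (i : ι) :
    ∃ j, M i j = 0 := by
  classical
  by_contra hno
  push Not at hno
  apply hM.1
  rw [← Matrix.exists_mulVec_eq_zero_iff]
  refine ⟨fun j => (M i j)⁻¹, ?_, ?_⟩
  · intro h
    have h1 := congrFun h i
    simp only [Pi.zero_apply, inv_eq_zero] at h1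
    exact hno i h1
  · funext k
    rw [Pi.zero_apply, Matrix.mulVec, dotProduct]
    by_cases hk : k = i
    · subst hk
      rw [sum_congr rfl fun j _ => mul_inv_cancel₀ (hno j), sum_const, card_univ, hι,
        nsmul_eq_mul, mul_one]
      exact FiniteField.cast_card_eq_zero F
    · have hinj : Function.Injective (fun j => M k j * (M i j)⁻¹) := by
        intro j j' hjj
        by_contra hne
        apply hM.2 k i hk j j' hne
        have h1 : M k j * (M i j)⁻¹ = M k j' * (M i j')⁻¹ := hjj
        rw [← div_eq_mul_inv, ← div_eq_mul_inv, div_eq_div_iff (hno j) (hno j')] at h1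
        rw [h1]
        ring
      have hbij : Function.Bijective (fun j => M k j * (M i j)⁻¹) := by
        rw [Fintype.bijective_iff_injective_and_card]
        exact ⟨hinj, hι⟩
      rw [hbij.sum_comp (fun x : F => x)]
      have h3 := FiniteField.sum_pow_lt_card_sub_one F 1 (by omega)
      simpa using h3

end zero

/-- inverse exponents -/
theorem exists_inv_exp [Fintype F] (hq : 2 < Fintype.card F) {k : ℕ}
    (hk : k.Coprime (Fintype.card F - 1)) : ∃ k', ∀ x : F, (x ^ k) ^ k' = x := by
  classical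
  obtain ⟨m, -, hm⟩ := Nat.exists_mul_mod_eq_one_of_coprime hk (by omega)
  refine ⟨m, fun x => ?_⟩
  rw [← pow_mul]
  obtain ⟨r, hr⟩ : ∃ r, k * m = (Fintype.card F - 1) * r + 1 := by
    refine ⟨k * m / (Fintype.card F - 1), ?_⟩
    have h1 := Nat.div_add_mod (k * m) (Fintype.card F - 1)
    rw [hm] at h1
    exact h1.symm
  rw [hr, pow_succ, pow_mul]
  by_cases hx : x = 0
  · rw [hx, mul_zero]
  · rw [FiniteField.pow_card_sub_one_eq_one x hx, one_pow, one_mul]

/-- powers of the entries -/
theorem TwoReg_pow {m n : Type*} {M : Matrix m n F} (hM : TwoReg M) {k k' : ℕ}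
    (hk : ∀ x : F, (x ^ k) ^ k' = x) : TwoReg (Matrix.of fun i j => M i j ^ k) := by
  intro i i' hi j j' hj h
  simp only [of_apply] at h
  apply hM i i' hi j j' hj
  rw [sub_eq_zero, ← mul_pow, ← mul_pow] at h
  have h1 := congrArg (fun x => x ^ k') h
  simp only [hk] at h1
  rw [h1, sub_self]

variable [Fintype F] [Fintype ι] [DecidableEq ι]

/-- a row of the matrix which is not assumed to lie in the plane -/
theorem row_plane (hq : 4 < Fintype.card F) (hι : Fintype.card ι = Fintype.card F)
    {N : Matrix ι ι F} (hN : TwoReg N) (z : ι → ι) (hz : ∀ i j, N i j = 0 ↔ j = z i)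
    (B : Finset ι) (α β : ι → F) {a0 a1 : ι} (ha0 : a0 ∉ B) (ha : a1 ≠ a0)
    (hB : ∀ i ∉ B, ∀ j, N i j = α i * N a1 j + β i * N a0 j)
    (hd : 2 * B.card ≤ Fintype.card F) {P : ι} (hP : P ∈ B) :
    ∃ t κ : F, κ ≠ 0 ∧ ∀ j, N P j ≠ 0 → N a1 j + t * N a0 j = κ * N P j := by
  classical
  have hPne : ∀ a, a ∉ B → a ≠ P := by
    rintro a ha rfl
    exact ha hP
  have hNP : ∀ j : {j // j ≠ z P}, N P j ≠ 0 := fun j h => j.2 ((hz P j).1 h)
  have hinj : ∀ a, a ∉ B → ∀ c : F, c ≠ 0 →
      Function.Injective fun j : {j // j ≠ z P} => N a j / (c * N P j) := by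
    intro a ha c hc j j' h
    have h' : N a j / (c * N P j) = N a j' / (c * N P j') := h
    rw [div_eq_div_iff (mul_ne_zero hc (hNP j)) (mul_ne_zero hc (hNP j'))] at h'
    by_contra hne
    apply hN a P (hPne a ha) j j' (fun h => hne (Subtype.ext h))
    have h2 : c * (N a j * N P j' - N a j' * N P j) = 0 := by linear_combination h'
    exact (mul_eq_zero.1 h2).resolve_left hc
  -- minors of two rows in the plane
  have hdet : ∀ a b, a ∉ B → b ∉ B → ∀ j j', N a j * N b j' - N a j' * N b j =
      (α a * β b - α b * β a) * (N a1 j * N a0 j' - N a1 j' * N a0 j) := by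
    intro a b ha hb j j'
    rw [hB a ha j, hB a ha j', hB b hb j, hB b hb j']
    ring
  obtain ⟨j₁, j₂, hj₁₂⟩ : ∃ j₁ j₂ : ι, j₁ ≠ j₂ := by
    obtain ⟨j, j', h⟩ := Fintype.exists_pair_of_one_lt_card (α := ι) (by omega)
    exact ⟨j, j', h⟩
  have hαβ : ∀ a b, a ∉ B → b ∉ B → a ≠ b → α a * β b - α b * β a ≠ 0 := by
    intro a b ha hb hab h
    apply hN a b hab j₁ j₂ hj₁₂
    rw [hdet a b ha hb, h, zero_mul]
  have hα : ∀ a, a ∉ B → a ≠ a0 → α a ≠ 0 := by
    intro a ha haa h
    apply hN a a0 haa j₁ j₂ hj₁₂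
    rw [hB a ha j₁, hB a ha j₂, h]
    ring
  obtain ⟨T, hT⟩ : ∃ T : Finset F, T = (Bᶜ.erase a0).image fun a => β a / α a := ⟨_, rfl⟩
  have hTc : T.card + B.card + 1 = Fintype.card F := by
    rw [hT, card_image_of_injOn, card_erase_of_mem (mem_compl.2 ha0), card_compl, hι]
    · have h1 := card_lt_univ_of_notMem ha0
      rw [hι] at h1
      omega
    · intro a ha b hb h
      rw [mem_coe, mem_erase, mem_compl] at ha hb
      by_contra hab
      have h' : β a / α a = β b / α b := h
      rw [div_eq_div_iff (hα a ha.2 ha.1) (hα b hb.2 hb.1)] at h'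
      apply hαβ a b ha.2 hb.2 hab
      linear_combination -h'
  obtain ⟨t₀, κ, hκ, h⟩ := main (J := {j // j ≠ z P}) (fun j => N a1 j / N P j)
    (fun j => N a0 j / N P j) hq (by
      have h1 : Fintype.card {j // j ≠ z P} = Fintype.card ι - 1 := Set.card_ne_eq (z P)
      rw [h1, hι]
      omega) (by
      intro j j' hjj h
      have h1 := hNP j
      have h2 := hNP j'
      apply hN a1 a0 ha j j' (fun h => hjj (Subtype.ext h))
      rw [div_mul_div_comm, div_mul_div_comm, mul_comm (N P j') (N P j)] at h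
      have h3 := (div_left_inj' (mul_ne_zero h1 h2)).1 h
      rw [h3, sub_self]) (by
      have := hinj a0 ha0 1 one_ne_zero
      simpa using this) T (by
      intro t ht
      rw [hT, mem_image] at ht
      obtain ⟨a, ha, rfl⟩ := ht
      rw [mem_erase, mem_compl] at ha
      have h1 := hα a ha.2 ha.1
      have h2 := hinj a ha.2 (α a) h1
      convert h2 using 1
      funext j
      have h3 := hNP j
      rw [hB a ha.2 j]
      field_simp) B.card (by
      have := card_pos.2 ⟨P, hP⟩
      omega) hTc hd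
  refine ⟨t₀, κ, hκ, fun j hj => ?_⟩
  have h1 : j ≠ z P := fun h => hj ((hz P j).2 h)
  have h2 := h ⟨j, h1⟩
  simp only at h2
  field_simp at h2
  linear_combination h2

theorem half_rows (hF : ¬ (Fintype.card F).Prime) (hq : 4 < Fintype.card F)
    (hι : Fintype.card ι = Fintype.card F) {M : Matrix ι ι F} (hM : IsAONT M) {k : ℕ}
    (hk : k.Coprime (Fintype.card F - 1)) (B : Finset ι) (x y z w : ι → F)
    (hB : ∀ i ∉ B, ∀ j, M i j ^ k = x i * z j + y i * w j) :
    Fintype.card F < 2 * B.card := by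
  classical
  by_contra hlt
  push Not at hlt
  obtain ⟨k', hk'⟩ := exists_inv_exp (F := F) (by omega) hk
  have hk0 : k ≠ 0 := by
    rintro rfl
    rw [Nat.coprime_zero_left] at hk
    omega
  have hk0' : k' ≠ 0 := by
    rintro rfl
    have := hk' 0
    simp at this
  obtain ⟨N, hNdef⟩ : ∃ N : Matrix ι ι F, N = Matrix.of fun i j => M i j ^ k := ⟨_, rfl⟩
  have hNM : ∀ i j, N i j = M i j ^ k := by
    intro i j
    rw [hNdef]
    rfl
  have hMN : ∀ i j, N i j ^ k' = M i j := by
    intro i j
    rw [hNM, hk']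
  have hN : TwoReg N := by
    rw [hNdef]
    exact TwoReg_pow hM.2 hk'
  have hex := exists_zero_aont hM hι (by omega)
  choose s hs using hex
  have hs' : ∀ i j, N i j = 0 ↔ j = s i := by
    intro i j
    rw [hNM, pow_eq_zero_iff hk0]
    constructor
    · intro h
      exact zero_unique hM.2 (by omega) h (hs i)
    · rintro rfl
      exact hs i
  have hBlt : B.card + 1 < Fintype.card ι := by omega
  -- two rows in the plane
  obtain ⟨a1, ha1, a0, ha0, ha⟩ : ∃ a1, a1 ∉ B ∧ ∃ a0, a0 ∉ B ∧ a1 ≠ a0 := by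
    have h1 : 1 < (Bᶜ : Finset ι).card := by
      rw [card_compl]
      omega
    obtain ⟨a, ha, b, hb, hab⟩ := one_lt_card.1 h1
    exact ⟨a, mem_compl.1 ha, b, mem_compl.1 hb, hab⟩
  have hdet : ∀ a b, a ∉ B → b ∉ B → ∀ j j', N a j * N b j' - N a j' * N b j =
      (x a * y b - x b * y a) * (z j * w j' - z j' * w j) := by
    intro a b ha hb j j'
    rw [hNM a j, hNM a j', hNM b j, hNM b j', hB a ha j, hB a ha j', hB b hb j, hB b hb j']
    ring
  obtain ⟨δ, hδ⟩ : ∃ δ, δ = x a1 * y a0 - x a0 * y a1 := ⟨_, rfl⟩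
  have hδ0 : δ ≠ 0 := by
    intro h
    obtain ⟨j, j', hjj⟩ := Fintype.exists_pair_of_one_lt_card (α := ι) (by omega)
    apply hN a1 a0 ha j j' hjj
    rw [hdet a1 a0 ha1 ha0, ← hδ, h, zero_mul]
  obtain ⟨α, hα⟩ : ∃ α : ι → F, α = fun i => (x i * y a0 - x a0 * y i) / δ := ⟨_, rfl⟩
  obtain ⟨β, hβ⟩ : ∃ β : ι → F, β = fun i => (x a1 * y i - x i * y a1) / δ := ⟨_, rfl⟩
  have hB' : ∀ i ∉ B, ∀ j, N i j = α i * N a1 j + β i * N a0 j := by
    intro i hi j
    rw [hNM i j, hNM a1 j, hNM a0 j, hB i hi, hB a1 ha1, hB a0 ha0, hα, hβ]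
    simp only
    rw [div_mul_eq_mul_div, div_mul_eq_mul_div, ← add_div, eq_div_iff hδ0, hδ]
    ring
  -- all rows are in the plane, up to the zeros
  have hall : ∀ i, ∃ p r v : F, v ≠ 0 ∧ ∀ j, N i j ≠ 0 → p * N a1 j + r * N a0 j = v * N i j := by
    intro i
    by_cases hi : i ∈ B
    · obtain ⟨t, κ, hκ, h⟩ := row_plane hq hι hN s hs' B α β ha0 ha hB' hlt hi
      exact ⟨1, t, κ, hκ, fun j hj => by rw [one_mul]; exact h j hj⟩
    · exact ⟨α i, β i, 1, one_ne_zero, fun j _ => by rw [one_mul, hB' i hi j]⟩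
  choose p r v hv hall using hall
  -- the missing point
  obtain ⟨c, hc⟩ : ∃ c : F, ∀ j, c * N a0 j - N a1 j ≠ 0 := by
    have h1 : ((univ.erase (s a0)).image fun j => N a1 j / N a0 j).card < (univ : Finset F).card := by
      refine lt_of_le_of_lt card_image_le ?_
      rw [card_erase_of_mem (mem_univ _), card_univ, card_univ, hι]
      omega
    obtain ⟨c, -, hc⟩ := exists_mem_notMem_of_card_lt_card h1
    refine ⟨c, fun j h => ?_⟩
    by_cases hj : j = s a0
    · have h2 := (hs' a0 j).2 hj
      rw [h2, mul_zero, zero_sub, neg_eq_zero] at h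
      obtain ⟨j', hj'⟩ := Fintype.exists_ne_of_one_lt_card (by omega : 1 < Fintype.card ι) j
      apply hN a1 a0 ha j j' (Ne.symm hj')
      rw [h, h2]
      ring
    · apply hc
      rw [mem_image]
      refine ⟨j, mem_erase.2 ⟨hj, mem_univ _⟩, ?_⟩
      rw [div_eq_iff (fun h => hj ((hs' a0 j).1 h))]
      linear_combination -h
  obtain ⟨Z, hZ⟩ : ∃ Z : Option ι → F, Z = fun o => o.elim c (N a1) := ⟨_, rfl⟩
  obtain ⟨W, hW⟩ : ∃ W : Option ι → F, W = fun o => o.elim 1 (N a0) := ⟨_, rfl⟩
  have hZW : ∀ o o', o ≠ o' → Z o * W o' - Z o' * W o ≠ 0 := by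
    intro o o' hoo
    rw [hZ, hW]
    rcases o with _ | j <;> rcases o' with _ | j'
    · exact absurd rfl hoo
    · simp only [Option.elim_none, Option.elim_some]
      rw [mul_one]
      exact hc j'
    · simp only [Option.elim_none, Option.elim_some]
      intro h
      apply hc j
      linear_combination -h
    · simp only [Option.elim_some]
      exact hN a1 a0 ha j j' (fun h => hoo (by rw [h]))
  -- the table
  have hrows : ∀ i i', i ≠ i' → p i * r i' - p i' * r i ≠ 0 := by
    intro i i' hii h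
    obtain ⟨j, j', hjj, h1, h2, h3, h4⟩ := two_cols hN (by omega) i i'
    apply hN i i' hii j j' hjj
    have e1 := hall i j h1
    have e2 := hall i j' h2
    have e3 := hall i' j h3
    have e4 := hall i' j' h4
    have h5 : (v i * v i') * (N i j * N i' j' - N i j' * N i' j) = 0 := by
      have h6 : (v i * N i j) * (v i' * N i' j') - (v i * N i j') * (v i' * N i' j) = 0 := by
        rw [← e1, ← e2, ← e3, ← e4]
        linear_combination (N a1 j * N a0 j' - N a1 j' * N a0 j) * h
      linear_combination h6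
    exact (mul_eq_zero.1 h5).resolve_left (mul_ne_zero (hv i) (hv i'))
  obtain ⟨L, hL⟩ : ∃ L : Matrix ι (Option ι) F,
      L = Matrix.of fun i o => (v i)⁻¹ * (p i * Z o + r i * W o) := ⟨_, rfl⟩
  have hLe : ∀ i o, L i o = (v i)⁻¹ * (p i * Z o + r i * W o) := by
    intro i o
    rw [hL]
    rfl
  have hLreg : TwoReg L := by
    intro i i' hii o o' hoo h
    rw [hLe, hLe, hLe, hLe] at h
    have h1 : ((v i)⁻¹ * (v i')⁻¹) * ((p i * r i' - p i' * r i) * (Z o * W o' - Z o' * W o)) = 0 := by
      linear_combination h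
    rcases mul_eq_zero.1 h1 with h2 | h2
    · exact (mul_ne_zero (inv_ne_zero (hv i)) (inv_ne_zero (hv i'))) h2
    · exact (mul_ne_zero (hrows i i' hii) (hZW o o' hoo)) h2
  have hinv' : ∀ t : F, (t ^ k') ^ k = t := by
    intro t
    rw [← pow_mul, mul_comm, pow_mul, hk']
  obtain ⟨X, hX⟩ : ∃ X : Matrix ι (Option ι) F, X = Matrix.of fun i o => L i o ^ k' := ⟨_, rfl⟩
  have hXe : ∀ i o, X i o = L i o ^ k' := by
    intro i o
    rw [hX]
    rfl
  have hXreg : TwoReg X := by
    rw [hX]
    exact TwoReg_pow hLreg hinv'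
  have hXM : ∀ i j, N i j ≠ 0 → M i j = X i (some j) := by
    intro i j hj
    have h1 := hall i j hj
    rw [hXe, hLe, hZ, hW]
    simp only [Option.elim_some]
    rw [h1, inv_mul_cancel_left₀ (hv i), hMN]
  have hn : Fintype.card (Option ι) = Fintype.card F + 1 := by
    rw [Fintype.card_option, hι]
  -- rows with a wrong zero
  have hbad : ∀ i, X i (some (s i)) ≠ 0 → X i none = 0 := by
    intro i hi
    obtain ⟨o, ho⟩ := exists_zero hXreg (by omega) hn i
    rcases o with _ | j
    · exact ho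
    · exfalso
      by_cases hj : j = s i
      · rw [hj] at ho
        exact hi ho
      · have h1 : N i j ≠ 0 := fun h => hj ((hs' i j).1 h)
        rw [← hXM i j h1, ← hMN] at ho
        exact h1 ((pow_eq_zero_iff hk0').1 ho)
  have hbad2 : ∀ i i', X i (some (s i)) ≠ 0 → X i' (some (s i')) ≠ 0 → i = i' := by
    intro i i' h1 h2
    by_contra hne
    refine hXreg i i' hne none (some (s i)) (by simp) ?_
    rw [hbad i h1, hbad i' h2]
    ring
  have hfin : ∀ i₀ : ι, (∀ i, i ≠ i₀ → X i (some (s i)) = 0) → False := by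
    intro i₀ h0
    refine Pool.Agent.Results.MP_0af767_co.ExtensionBarrier.one_entry hF hι M hM (by omega) hn X
      hXreg id (fun j => some j) i₀ (s i₀) ?_
    intro i j hij
    by_cases hj : j = s i
    · by_cases hi : i = i₀
      · subst hi
        exact absurd (by rw [hj]) hij
      · rw [hj, hs i, id, h0 i hi]
    · exact hXM i j (fun h => hj ((hs' i j).1 h))
  by_cases hex : ∃ i, X i (some (s i)) ≠ 0
  · obtain ⟨i₀, hi₀⟩ := hex
    refine hfin i₀ fun i hi => ?_
    by_contra h
    exact hi (hbad2 i i₀ h hi₀)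
  · push Not at hex
    exact hfin a0 fun i _ => hex i

end Pool.MP_0af767_co.Half
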