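import Pool.Agent.Lib.MP_0af767_co.Quad

/-!
# MP_0af767_co: common far points of two points on a common line

`y` and `u` are different and not far, `u` is in the full clique `Q`. The common far points of `y`
and `u` are `d (d + 1)`; among them are `d` points of `Q`, and the points far from `u` of disjoint
cliques through `y`. For the lines of the other rows and the clique (or the column) of `y` this
gives: every line of a row outside a maximal `K` is missed by at most `d` of the lines of `K`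
through `u`.
-/

set_option autoImplicit false

namespace Pool.MP_0af767_co

open Finset Matrix

namespace Net

variable {P κ F : Type*} [Fintype P] [DecidableEq P] [Fintype κ] [DecidableEq κ]
  [Fintype F] [DecidableEq F] {l : P → κ → F}

open Classical in
/-- the common far points of `y` and `u`, not far -/
theorem near_sum (hN : IsNet l) {d : ℕ} (hd : Fintype.card κ + d = Fintype.card F) {y u : P}
    (hne : y ≠ u) (hyu : ¬ Far l y u) {Q : Finset P}
    (hQ : ∀ z ∈ Q, ∀ w ∈ Q, z ≠ w → Far l z w) (hQc : Q.card = Fintype.card F)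
    (huQ : u ∈ Q) (hyQ : y ∉ Q) {X : Type*} [Fintype X] (L : X → Finset P) (hy : ∀ x, y ∈ L x)
    (hcl : ∀ x, ∀ z ∈ L x, ∀ w ∈ L x, z ≠ w → Far l z w)
    (hdis : ∀ x x', x ≠ x' → ∀ z, z ∈ L x → z ∈ L x' → z = y)
    (hLQ : ∀ x, ∀ z ∈ L x, z ∉ Q) {C : Finset P} (hyC : y ∈ C)
    (hC : ∀ z ∈ C, ∀ w ∈ C, z ≠ w → Far l z w) (hCL : ∀ x, ∀ z, z ∈ L x → z ∈ C → z = y)
    (hCQ : ∀ z ∈ C, z ∉ Q) :
    d + ∑ x, ((L x).filter fun z => Far l z u).card + (C.filter fun z => Far l z u).card ≤
      d ^ 2 + d := by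
  rw [← com_near hN hd hne hyu]
  have h1 := full_count hN hd hQ hQc hyQ
  have h2 : (univ.biUnion fun x => (L x).filter fun z => Far l z u).card =
      ∑ x, ((L x).filter fun z => Far l z u).card := by
    rw [card_biUnion]
    intro x _ x' _ hxx
    rw [Function.onFun, disjoint_left]
    intro z hz hz'
    rw [mem_filter] at hz hz'
    have h3 := hdis x x' hxx z hz.1 hz'.1
    rw [h3] at hz
    exact hyu hz.2
  have h4 : Disjoint (Q.filter fun z => Far l z y)
      (univ.biUnion fun x => (L x).filter fun z => Far l z u) := by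
    rw [disjoint_left]
    intro z hz hz'
    rw [mem_filter] at hz
    rw [mem_biUnion] at hz'
    obtain ⟨x, _, hz'⟩ := hz'
    rw [mem_filter] at hz'
    exact hLQ x z hz'.1 hz.1
  have h5 : Disjoint ((Q.filter fun z => Far l z y) ∪
      (univ.biUnion fun x => (L x).filter fun z => Far l z u)) (C.filter fun z => Far l z u) := by
    rw [disjoint_left]
    intro z hz hz'
    rw [mem_filter] at hz'
    rw [mem_union, mem_filter, mem_biUnion] at hz
    rcases hz with hz | ⟨x, _, hz⟩
    · exact hCQ z hz'.1 hz.1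
    · rw [mem_filter] at hz
      have h3 := hCL x z hz.1 hz'.1
      rw [h3] at hz
      exact hyu hz.2
  rw [← h1, ← h2, ← card_union_of_disjoint h4, ← card_union_of_disjoint h5]
  refine card_le_card ?_
  intro z hz
  rw [mem_union, mem_union, mem_filter, mem_biUnion, mem_filter] at hz
  rw [mem_filter]
  refine ⟨mem_univ _, ?_⟩
  rcases hz with (⟨hz, hf⟩ | ⟨x, _, hz⟩) | ⟨hz, hf⟩
  · refine ⟨hf, hQ z hz u huQ ?_⟩
    rintro rfl
    exact hyu hf.symm
  · rw [mem_filter] at hz
    refine ⟨hcl x z hz.1 y (hy x) ?_, hz.2⟩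
    intro h
    rw [h] at hz
    exact hyu hz.2
  · refine ⟨hC z hz y hyC ?_, hf⟩
    intro h
    rw [h] at hf
    exact hyu hf

open Classical in
/-- the missed coordinates -/
theorem near_miss (hN : IsNet l) {d : ℕ} (hd : Fintype.card κ + d = Fintype.card F) {y u : P}
    (hne : y ≠ u) (hyu : ¬ Far l y u) {Q : Finset P}
    (hQ : ∀ z ∈ Q, ∀ w ∈ Q, z ≠ w → Far l z w) (hQc : Q.card = Fintype.card F)
    (huQ : u ∈ Q) (hyQ : y ∉ Q) {X : Type*} [Fintype X] {m : ℕ} (hm : Fintype.card X = m)
    (L : X → Finset P) (hy : ∀ x, y ∈ L x) (hc : ∀ x, (L x).card + 1 = Fintype.card F)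
    (hcl : ∀ x, ∀ z ∈ L x, ∀ w ∈ L x, z ≠ w → Far l z w)
    (hdis : ∀ x x', x ≠ x' → ∀ z, z ∈ L x → z ∈ L x' → z = y)
    (hLQ : ∀ x, ∀ z ∈ L x, z ∉ Q) {C : Finset P} (hyC : y ∈ C)
    (hC : ∀ z ∈ C, ∀ w ∈ C, z ≠ w → Far l z w) (hCL : ∀ x, ∀ z, z ∈ L x → z ∈ C → z = y)
    (hCQ : ∀ z ∈ C, z ∉ Q) {f : ℕ} (hf : (C.filter fun z => Far l z u).card = f) :
    m * d + f ≤ d ^ 2 + m ∧ ∀ x, (miss l (L x) u).card + m * d + f ≤ d ^ 2 + m := by
  have h1 := near_sum hN hd hne hyu hQ hQc huQ hyQ L hy hcl hdis hLQ hyC hC hCL hCQ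
  rw [hf] at h1
  have h2 : ∀ x, ((L x).filter fun z => Far l z u).card + 1 = d + (miss l (L x) u).card := by
    intro x
    have h3 := clique_count hN (hcl x) (fun h => hLQ x u h huQ)
    have h4 := hc x
    omega
  have h5 : ∑ x, (((L x).filter fun z => Far l z u).card + 1) =
      ∑ x, (d + (miss l (L x) u).card) := sum_congr rfl fun x _ => h2 x
  rw [sum_add_distrib, sum_add_distrib, sum_const, sum_const, card_univ, hm] at h5
  simp only [smul_eq_mul, mul_one] at h5
  obtain ⟨S, hS⟩ : ∃ S, S = ∑ x, ((L x).filter fun z => Far l z u).card := ⟨_, rfl⟩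
  obtain ⟨S', hS'⟩ : ∃ S', S' = ∑ x, (miss l (L x) u).card := ⟨_, rfl⟩
  rw [← hS] at h1 h5
  rw [← hS'] at h5
  refine ⟨by omega, fun x => ?_⟩
  have h6 : (miss l (L x) u).card ≤ S' := by
    rw [hS']
    exact single_le_sum (f := fun x => (miss l (L x) u).card) (fun _ _ => Nat.zero_le _)
      (mem_univ x)
  omega

end Net

open Net

variable {F : Type*} [Field F] {ι : Type*}
variable [Fintype F] [DecidableEq F] [Fintype ι] [DecidableEq ι]

/-- the points of a column of `M` -/
def colp (F : Type*) [Field F] [Fintype F] [DecidableEq F] {ι : Type*} [DecidableEq ι] (j : ι) :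
    Finset (Pt ι F) :=
  univ.image fun g : Fˣ => (some (some j, g) : Pt ι F)

omit [Fintype ι] in
theorem mem_colp {j : ι} {p : Pt ι F} : p ∈ colp F j ↔ ∃ g : Fˣ, p = some (some j, g) := by
  unfold colp
  rw [mem_image]
  constructor
  · rintro ⟨g, _, h⟩
    exact ⟨g, h.symm⟩
  · rintro ⟨g, h⟩
    exact ⟨g, mem_univ _, h.symm⟩

open Classical in
/-- `K` maximal: the lines of the other rows are missed by at most `d` lines of `K` through a point
of the new column; a clique of a row not completely far from it has at most `d` far points -/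
theorem near_main {M : Matrix ι ι F} (hM : TwoReg M) (h0 : ∀ i, M i i = 0)
    (hι : Fintype.card ι = Fintype.card F) (h2F : 2 < Fintype.card F) {v : ι → F} {K : Finset ι}
    (hE : Extends M K v) (hK : 2 ≤ K.card) (hv : ∀ a ∈ K, v a ≠ 0) {d : ℕ}
    (hd : K.card + d = Fintype.card F) {w : ι → F} (hw : ∀ j ∈ K, w j ≠ 0)
    (hcol : ∀ j ∈ K, ∀ k ∈ K, j ≠ k → ∀ i, M i j * w k ≠ M i k * w j) (k₀ : Fˣ) {j : ι} (hj : j ∈ K)
    (g : Fˣ) (hf : ¬ Far (lab M v K) (some (some j, g)) (some (none, k₀))) :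
    (∀ x, x ∉ K → (miss (lab M v K) (linh M x (M x j * g)) (some (none, k₀))).card ≤ d) ∧
      ((cliq K w (w j * g)).filter fun z => Far (lab M v K) z (some (none, k₀))).card ≤ d := by
  classical
  have h1 : 1 < Fintype.card ι := by omega
  have hN := isNet hM hι hE hK
  have hKc : Fintype.card K + d = Fintype.card F := by
    rw [Fintype.card_coe]
    exact hd
  have hXc : Fintype.card {x : ι // x ∉ K} = d := by
    rw [Fintype.card_subtype_compl, hι, Fintype.card_coe]
    omega
  have huQ : (some (none, k₀) : Pt ι F) ∈ newc ι F := mem_newc k₀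
  have hQf := newc_far (M := M) hv
  have hQc : (newc ι F).card = Fintype.card F := card_newc
  have hxj : ∀ x, x ∉ K → M x j * g ≠ 0 := by
    intro x hx
    refine mul_ne_zero ?_ g.ne_zero
    intro h
    have h3 : x = j := zero_unique_col hM h1 h (h0 j)
    exact hx (h3 ▸ hj)
  have hlQ : ∀ x h, ∀ z ∈ linh M x h, z ∉ newc ι F := by
    intro x h z hz
    rw [mem_linh] at hz
    obtain ⟨j, g, rfl, _⟩ := hz
    exact not_newc j g
  have hcQ : ∀ s, ∀ z ∈ cliq K w s, z ∉ newc ι F := by
    intro s z hz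
    rw [mem_cliq] at hz
    obtain ⟨j, _, g, rfl, _⟩ := hz
    exact not_newc j g
  have hcf : ∀ s, ∀ z ∈ cliq K w s, ∀ z' ∈ cliq K w s, z ≠ z' → Far (lab M v K) z z' := by
    intro s z hz z' hz' hne a e
    rw [mem_cliq] at hz hz'
    obtain ⟨j, hj, g, rfl, hg⟩ := hz
    obtain ⟨j', hj', g', rfl, hg'⟩ := hz'
    rw [lab_some, lab_some] at e
    exact hne (cliq_row hw hcol hj hj' hg hg' e)
  have hyl : ∀ x : ι, (some (some j, g) : Pt ι F) ∈ linh M x (M x j * g) := by
    intro x
    rw [mem_linh]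
    exact ⟨j, g, rfl, rfl⟩
  have hyc : (some (some j, g) : Pt ι F) ∈ cliq K w (w j * g) := by
    rw [mem_cliq]
    exact ⟨j, hj, g, rfl, rfl⟩
  have hmeet : ∀ x : ι, ∀ z, z ∈ linh M x (M x j * g) → z ∈ cliq K w (w j * g) →
      z = (some (some j, g) : Pt ι F) := by
    intro x z hz hz'
    rw [mem_linh] at hz
    obtain ⟨i, f, rfl, hg⟩ := hz
    rw [mem_cliq] at hz'
    obtain ⟨i', hi', f', e, hg'⟩ := hz'
    rw [Option.some.injEq, Prod.mk.injEq, Option.some.injEq] at e
    obtain ⟨rfl, rfl⟩ := e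
    exact cliq_row hw hcol hi' hj hg' rfl hg
  have hsum := near_miss (y := (some (some j, g) : Pt ι F)) (u := some (none, k₀)) hN hKc
    (by simp) hf hQf hQc huQ (not_newc j g) hXc
    (fun x : {x : ι // x ∉ K} => linh M x.1 (M x.1 j * g)) (fun x => hyl x.1)
    (fun x => card_linh (x := x.1) hM h1 h0 hι (hxj x.1 x.2))
    (fun x z hz z' hz' hne => linh_far hM x.2 (hxj x.1 x.2) hz hz' hne)
    (fun x x' hxx z hz hz' => linh_meet hM (fun e => hxx (Subtype.ext e))
      (hxj x.1 x.2) hz hz' (hyl x.1) (hyl x'.1))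
    (fun x z hz => hlQ x.1 _ z hz) hyc (hcf (w j * g))
    (fun x z hz hz' => hmeet x.1 z hz hz') (hcQ _) rfl
  obtain ⟨h5, h6⟩ := hsum
  have hd2 : d ^ 2 = d * d := sq d
  refine ⟨fun x hx => ?_, ?_⟩
  · have h7 := h6 ⟨x, hx⟩
    rw [hd2] at h7
    exact Nat.le_of_add_le_add_right (b := d * d) (by
      refine le_trans (Nat.le_add_right _ _) (le_trans h7 ?_)
      rw [Nat.add_comm])
  · rw [hd2] at h5
    exact Nat.le_of_add_le_add_left (a := d * d) h5

open Classical in
/-- the same for a point of a column `j` with `j ∉ K` -/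
theorem near_other {M : Matrix ι ι F} (hM : TwoReg M) (h0 : ∀ i, M i i = 0)
    (hι : Fintype.card ι = Fintype.card F) (h2F : 2 < Fintype.card F) {v : ι → F} {K : Finset ι}
    (hE : Extends M K v) (hK : 2 ≤ K.card) (hv : ∀ a ∈ K, v a ≠ 0) {d : ℕ}
    (hd : K.card + d = Fintype.card F) (k₀ : Fˣ) {j : ι} (hj : j ∉ K)
    (g : Fˣ) (hf : ¬ Far (lab M v K) (some (some j, g)) (some (none, k₀))) :
    ∀ x, x ∉ K → x ≠ j →
      (miss (lab M v K) (linh M x (M x j * g)) (some (none, k₀))).card ≤ d := by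
  classical
  have h1 : 1 < Fintype.card ι := by omega
  have hN := isNet hM hι hE hK
  have hKc : Fintype.card K + d = Fintype.card F := by
    rw [Fintype.card_coe]
    exact hd
  have hXc : Fintype.card {x : ι // x ∉ K ∧ x ≠ j} + 1 = d := by
    have h3 : (univ.filter fun x => x ∉ K ∧ x ≠ j) = Kᶜ.erase j := by
      ext x
      rw [mem_filter, mem_erase, mem_compl]
      simp [and_comm]
    rw [Fintype.card_subtype, h3, card_erase_of_mem (mem_compl.2 hj), card_compl, hι]
    have h4 := card_lt_univ_of_notMem hj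
    rw [hι] at h4
    omega
  have huQ : (some (none, k₀) : Pt ι F) ∈ newc ι F := mem_newc k₀
  have hQf := newc_far (M := M) hv
  have hQc : (newc ι F).card = Fintype.card F := card_newc
  have hnz : ∀ x, x ≠ j → M x j ≠ 0 := fun x hx h => hx (zero_unique_col hM h1 h (h0 j))
  have hxj : ∀ x, x ≠ j → M x j * g ≠ 0 := fun x hx => mul_ne_zero (hnz x hx) g.ne_zero
  have hlQ : ∀ x h, ∀ z ∈ linh M x h, z ∉ newc ι F := by
    intro x h z hz
    rw [mem_linh] at hz
    obtain ⟨j, g, rfl, _⟩ := hz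
    exact not_newc j g
  have hcK : ∀ a : K, M a j ≠ 0 := fun a => hnz a (fun h => hj (h ▸ a.2))
  have hCQ : ∀ z ∈ colp F j, z ∉ newc ι F := by
    intro z hz
    rw [mem_colp] at hz
    obtain ⟨g, rfl⟩ := hz
    exact not_newc j g
  have hcolf : ∀ z ∈ insert none (colp F j), ∀ z' ∈ insert none (colp F j), z ≠ z' →
      Far (lab M v K) z z' := by
    intro z hz z' hz' hne a e
    rw [mem_insert, mem_colp] at hz hz'
    rcases hz with rfl | ⟨k, rfl⟩ <;> rcases hz' with rfl | ⟨k', rfl⟩
    · exact hne rfl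
    · rw [lab_none, lab_some] at e
      exact mul_ne_zero (hcK a) k'.ne_zero e.symm
    · rw [lab_none, lab_some] at e
      exact mul_ne_zero (hcK a) k.ne_zero e
    · rw [lab_some, lab_some] at e
      apply hne
      have h5 : (k : F) = k' := mul_left_cancel₀ (hcK a) e
      rw [Units.ext h5]
  have hnone : none ∉ colp F j := by
    rw [mem_colp]
    rintro ⟨g, h⟩
    exact absurd h (by simp)
  have hcc : (insert none (colp F j)).card = Fintype.card F := by
    have h0 : 0 < Fintype.card F := Fintype.card_pos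
    rw [card_insert_of_notMem hnone]
    unfold colp
    rw [card_image_of_injective, card_univ, Fintype.card_units]
    · omega
    · intro h h' e
      rw [Option.some.injEq, Prod.mk.injEq] at e
      exact e.2
  have hunc : (some (none, k₀) : Pt ι F) ∉ insert none (colp F j) := by
    rw [mem_insert, mem_colp]
    rintro (h | ⟨g, h⟩)
    · exact absurd h (by simp)
    · rw [Option.some.injEq, Prod.mk.injEq] at h
      exact absurd h.1 (by simp)
  have hfc := full_count hN hKc hcolf hcc hunc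
  have hcfar : ((colp F j).filter fun z => Far (lab M v K) z (some (none, k₀))).card + 1 = d := by
    rw [filter_insert, if_pos, card_insert_of_notMem] at hfc
    · exact hfc
    · intro h
      exact hnone (mem_filter.1 h).1
    · intro a e
      rw [lab_none, lab_some] at e
      exact mul_ne_zero (hv a a.2) k₀.ne_zero e.symm
  have hyl : ∀ x : ι, (some (some j, g) : Pt ι F) ∈ linh M x (M x j * g) := by
    intro x
    rw [mem_linh]
    exact ⟨j, g, rfl, rfl⟩
  have hmeet : ∀ x : ι, x ≠ j → ∀ z, z ∈ linh M x (M x j * g) → z ∈ colp F j →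
      z = (some (some j, g) : Pt ι F) := by
    intro x hx z hz hz'
    rw [mem_colp] at hz'
    obtain ⟨f, rfl⟩ := hz'
    rw [mem_linh] at hz
    obtain ⟨i, f', e, hg⟩ := hz
    rw [Option.some.injEq, Prod.mk.injEq, Option.some.injEq] at e
    obtain ⟨rfl, rfl⟩ := e
    have h5 : (f : F) = g := mul_left_cancel₀ (hnz x hx) hg
    rw [Units.ext h5]
  obtain ⟨e, he⟩ : ∃ e, e + 1 = d := ⟨_, hXc⟩
  have hXe : Fintype.card {x : ι // x ∉ K ∧ x ≠ j} = e := by omega
  have hcfe : ((colp F j).filter fun z => Far (lab M v K) z (some (none, k₀))).card = e := by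
    omega
  have hsum := near_miss (y := (some (some j, g) : Pt ι F)) (u := some (none, k₀)) hN hKc
    (by simp) hf hQf hQc huQ (not_newc j g) hXe
    (fun x : {x : ι // x ∉ K ∧ x ≠ j} => linh M x.1 (M x.1 j * g)) (fun x => hyl x.1)
    (fun x => card_linh (x := x.1) hM h1 h0 hι (hxj x.1 x.2.2))
    (fun x z hz z' hz' hne => linh_far hM x.2.1 (hxj x.1 x.2.2) hz hz' hne)
    (fun x x' hxx z hz hz' => linh_meet hM (fun e => hxx (Subtype.ext e))
      (hxj x.1 x.2.2) hz hz' (hyl x.1) (hyl x'.1))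
    (fun x z hz => hlQ x.1 _ z hz) (C := colp F j) (mem_colp.2 ⟨g, rfl⟩)
    (fun z hz z' hz' hne => hcolf z (mem_insert_of_mem hz) z' (mem_insert_of_mem hz') hne)
    (fun x z hz hz' => hmeet x.1 x.2.2 z hz hz') hCQ hcfe
  intro x hx hxne
  have h6 := hsum.2 ⟨x, hx, hxne⟩
  have h7 : d ^ 2 + e = d + (e * d + e) := by
    rw [← he]
    ring
  rw [h7, Nat.add_assoc] at h6
  exact Nat.le_of_add_le_add_right h6

end Pool.MP_0af767_co
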