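import Mathlib

/-!
# MP_0af767_co: nets with few missing parallel classes

`P` is a set of `q²` points, each with `n` coordinates in a set with `q` elements, two different
points agree in at most one coordinate (a net of order `q` with `n` parallel classes, `d = q - n`).
`Far z w`: the points agree in no coordinate. Every point is far from `(d + 1)(q - 1)` points, two
far points have `q - 2 + d (d - 1)` common far points, two other points `d (d + 1)`. If
`2 d³ + d² + 2 d < q`, and `d` cliques (for `Far`) of size `q - 1` with exactly the point `y` in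
common are given, then each of them is contained in a clique of size `q`, and the points far from
`y` outside these cliques form one more clique of size `q` with `y`.
-/

set_option autoImplicit false

namespace Pool.MP_0af767_co.Net

open Finset

variable {P κ F : Type*} [Fintype P] [DecidableEq P] [Fintype κ] [DecidableEq κ]
  [Fintype F] [DecidableEq F]

/-- two points agree in no coordinate -/
def Far (l : P → κ → F) (z w : P) : Prop := ∀ a, l z a ≠ l w a

/-- a net: `q²` points, two of them agree in at most one coordinate -/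
structure IsNet (l : P → κ → F) : Prop where
  card : Fintype.card P = Fintype.card F ^ 2
  two : 2 ≤ Fintype.card κ
  inj : ∀ z w, z ≠ w → ∀ a b, l z a = l w a → l z b = l w b → a = b

omit [Fintype P] [DecidableEq P] [Fintype κ] [DecidableEq κ] [Fintype F] [DecidableEq F] in
theorem Far.symm {l : P → κ → F} {z w : P} (h : Far l z w) : Far l w z :=
  fun a e => h a e.symm

variable {l : P → κ → F}

omit [DecidableEq P] [DecidableEq κ] [DecidableEq F] in
theorem IsNet.bij (h : IsNet l) {a b : κ} (hab : a ≠ b) :
    Function.Bijective (fun z => ((l z a, l z b) : F × F)) := by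
  rw [Fintype.bijective_iff_injective_and_card]
  refine ⟨?_, ?_⟩
  · intro z w hzw
    by_contra hne
    rw [Prod.mk.injEq] at hzw
    exact hab (h.inj z w hne a b hzw.1 hzw.2)
  · rw [h.card, Fintype.card_prod, sq]

/-- the number of common coordinates -/
def agr (l : P → κ → F) (z u : P) : ℤ := ∑ a, if l u a = l z a then 1 else 0

omit [Fintype P] [DecidableEq P] [DecidableEq κ] [Fintype F] in
theorem agr_comm (z u : P) : agr l z u = agr l u z := by
  unfold agr
  refine sum_congr rfl fun a _ => ?_
  simp only [eq_comm]

omit [Fintype P] [DecidableEq P] [DecidableEq κ] [Fintype F] in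
theorem agr_self (z : P) : agr l z z = Fintype.card κ := by
  unfold agr
  simp

omit [Fintype P] [DecidableEq P] [DecidableEq κ] [Fintype F] in
theorem agr_far {z u : P} (h : Far l u z) : agr l z u = 0 := by
  unfold agr
  refine sum_eq_zero fun a _ => ?_
  rw [if_neg (h a)]

omit [DecidableEq P] [DecidableEq κ] in
theorem agr_near (hN : IsNet l) {z u : P} (hne : u ≠ z) (h : ¬ Far l u z) : agr l z u = 1 := by
  classical
  unfold Far at h
  push Not at h
  obtain ⟨a, ha⟩ := h
  unfold agr
  rw [sum_eq_single a]
  · rw [if_pos ha]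
  · intro b _ hb
    rw [if_neg]
    intro hb'
    exact hb (hN.inj u z hne b a hb' ha)
  · intro h
    exact absurd (mem_univ a) h

omit [DecidableEq κ] in
open Classical in
theorem ind_far (hN : IsNet l) (z u : P) : (if Far l u z then (1 : ℤ) else 0) =
    1 - agr l z u + ((Fintype.card κ : ℤ) - 1) * (if u = z then 1 else 0) := by
  by_cases hz : u = z
  · subst hz
    have h1 : ¬ Far l u u := by
      intro h
      have h2 := hN.two
      have h3 : 0 < Fintype.card κ := by omega
      obtain ⟨a⟩ := Fintype.card_pos_iff.1 h3
      exact h a rfl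
    rw [if_neg h1, agr_self, if_pos rfl]
    ring
  · rw [if_neg hz]
    by_cases hf : Far l u z
    · rw [if_pos hf, agr_far hf]
      ring
    · rw [if_neg hf, agr_near hN hz hf]
      ring

omit [DecidableEq P] [DecidableEq κ] in
theorem sum_fiber (hN : IsNet l) (a : κ) (s : F) :
    ∑ u, (if l u a = s then (1 : ℤ) else 0) = Fintype.card F := by
  have h1 := hN.two
  obtain ⟨b, hb⟩ := Fintype.exists_ne_of_one_lt_card (by omega : 1 < Fintype.card κ) a
  have h2 := (hN.bij hb.symm).sum_comp (fun x : F × F => if x.1 = s then (1 : ℤ) else 0)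
  rw [h2, Fintype.sum_prod_type]
  have h3 : ∀ x : F, ∑ y : F, (if (x, y).1 = s then (1 : ℤ) else 0) =
      if x = s then (Fintype.card F : ℤ) else 0 := by
    intro x
    by_cases hx : x = s <;> simp [hx]
  rw [sum_congr rfl fun x _ => h3 x, sum_ite_eq' univ s]
  simp

omit [DecidableEq P] [DecidableEq κ] in
theorem sum_fiber2 (hN : IsNet l) {a b : κ} (hab : a ≠ b) (s t : F) :
    ∑ u, (if l u a = s then (1 : ℤ) else 0) * (if l u b = t then 1 else 0) = 1 := by
  have h2 := (hN.bij hab).sum_comp
    (fun x : F × F => (if x.1 = s then (1 : ℤ) else 0) * (if x.2 = t then 1 else 0))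
  rw [h2, Fintype.sum_prod_type]
  simp

omit [DecidableEq P] [DecidableEq κ] in
theorem sum_agr (hN : IsNet l) (z : P) :
    ∑ u, agr l z u = Fintype.card κ * Fintype.card F := by
  unfold agr
  rw [sum_comm, sum_congr rfl fun a _ => sum_fiber hN a (l z a)]
  simp

omit [DecidableEq P] in
theorem sum_agr2 (hN : IsNet l) (z w : P) :
    ∑ u, agr l z u * agr l w u =
      (Fintype.card κ : ℤ) * (Fintype.card κ - 1) + Fintype.card F * agr l w z := by
  have h1 : ∀ u, agr l z u * agr l w u = ∑ a, ∑ b, (if l u a = l z a then (1 : ℤ) else 0) *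
      (if l u b = l w b then 1 else 0) := by
    intro u
    unfold agr
    rw [sum_mul_sum]
  rw [sum_congr rfl fun u _ => h1 u, sum_comm]
  have h2 : ∀ a, ∑ u, ∑ b, (if l u a = l z a then (1 : ℤ) else 0) *
      (if l u b = l w b then 1 else 0) =
      ((Fintype.card κ : ℤ) - 1) + Fintype.card F * (if l z a = l w a then 1 else 0) := by
    intro a
    rw [sum_comm]
    have h3 : ∀ b, ∑ u, (if l u a = l z a then (1 : ℤ) else 0) *
        (if l u b = l w b then 1 else 0) =
        1 + (if b = a then (Fintype.card F * (if l z a = l w a then 1 else 0) - 1 : ℤ) else 0) := by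
      intro b
      by_cases hb : b = a
      · subst hb
        rw [if_pos rfl]
        by_cases he : l z b = l w b
        · rw [if_pos he, he]
          have h4 : ∀ u, (if l u b = l w b then (1 : ℤ) else 0) *
              (if l u b = l w b then 1 else 0) = if l u b = l w b then 1 else 0 := by
            intro u
            split_ifs <;> simp
          rw [sum_congr rfl fun u _ => h4 u, sum_fiber hN]
          ring
        · rw [if_neg he]
          have h4 : ∀ u, (if l u b = l z b then (1 : ℤ) else 0) *
              (if l u b = l w b then 1 else 0) = 0 := by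
            intro u
            split_ifs with h5 h6
            · exact absurd (h5.symm.trans h6) he
            · simp
            · simp
            · simp
          rw [sum_congr rfl fun u _ => h4 u, sum_const_zero]
          ring
      · rw [if_neg hb, add_zero]
        exact sum_fiber2 hN (Ne.symm hb) _ _
    rw [sum_congr rfl fun b _ => h3 b, sum_add_distrib, sum_ite_eq' univ a]
    simp
    ring
  rw [sum_congr rfl fun a _ => h2 a, sum_add_distrib, ← mul_sum]
  have h5 : agr l w z = ∑ a, if l z a = l w a then (1 : ℤ) else 0 := rfl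
  rw [h5]
  simp
  ring

omit [DecidableEq κ] in
open Classical in
theorem card_far (hN : IsNet l) (z : P) :
    ((univ.filter fun u => Far l u z).card : ℤ) =
      (Fintype.card F : ℤ) ^ 2 - Fintype.card κ * Fintype.card F + (Fintype.card κ - 1) := by
  rw [card_filter]
  push_cast
  rw [sum_congr rfl fun u _ => ind_far hN z u, sum_add_distrib, sum_sub_distrib, sum_agr hN,
    ← mul_sum]
  have h1 : (Fintype.card P : ℤ) = (Fintype.card F : ℤ) ^ 2 := by
    rw [hN.card]
    push_cast
    ring
  simp [h1]

open Classical in
theorem card_com (hN : IsNet l) {z w : P} (hzw : z ≠ w) :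
    ((univ.filter fun u => Far l u z ∧ Far l u w).card : ℤ) =
      (Fintype.card F : ℤ) ^ 2 - 2 * Fintype.card κ * Fintype.card F +
        Fintype.card κ * (Fintype.card κ - 1) + Fintype.card F * agr l w z +
        2 * (Fintype.card κ - 1) * (1 - agr l w z) := by
  rw [card_filter]
  push_cast
  have h1 : (Fintype.card P : ℤ) = (Fintype.card F : ℤ) ^ 2 := by
    rw [hN.card]
    push_cast
    ring
  have h2 : ∀ u, (if Far l u z ∧ Far l u w then (1 : ℤ) else 0) =
      1 - agr l z u - agr l w u + agr l z u * agr l w u +
      ((Fintype.card κ : ℤ) - 1) * ((if u = z then (1 - agr l w z) else 0) +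
        (if u = w then (1 - agr l z w) else 0)) := by
    intro u
    have h3 : (if Far l u z ∧ Far l u w then (1 : ℤ) else 0) =
        (if Far l u z then (1 : ℤ) else 0) * (if Far l u w then (1 : ℤ) else 0) := by
      by_cases ha : Far l u z <;> by_cases hb : Far l u w <;> simp [ha, hb]
    rw [h3, ind_far hN z u, ind_far hN w u]
    by_cases hz : u = z
    · subst hz
      rw [if_pos rfl, if_neg hzw, if_pos rfl, if_neg hzw, agr_self]
      ring
    · by_cases hw : u = w
      · subst hw
        rw [if_neg hz, if_pos rfl, if_neg hz, if_pos rfl, agr_self]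
        ring
      · rw [if_neg hz, if_neg hw, if_neg hz, if_neg hw]
        ring
  rw [sum_congr rfl fun u _ => h2 u]
  rw [sum_add_distrib, sum_add_distrib, sum_sub_distrib, sum_sub_distrib, ← mul_sum,
    sum_add_distrib, sum_agr hN, sum_agr hN, sum_agr2 hN, sum_ite_eq' univ z, sum_ite_eq' univ w,
    agr_comm z w]
  simp only [mem_univ, if_true, sum_const, card_univ, nsmul_eq_mul, mul_one, h1]
  ring

open Classical in
theorem com_far (hN : IsNet l) {d : ℕ} (hd : Fintype.card κ + d = Fintype.card F) {z w : P}
    (hzw : Far l z w) : (univ.filter fun u => Far l u z ∧ Far l u w).card + d + 2 =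
      d ^ 2 + Fintype.card F := by
  have hne : z ≠ w := by
    intro h
    subst h
    have h2 := hN.two
    have h3 : 0 < Fintype.card κ := by omega
    obtain ⟨a⟩ := Fintype.card_pos_iff.1 h3
    exact hzw a rfl
  have h1 := card_com hN hne
  rw [agr_far hzw] at h1
  have h2 : (Fintype.card κ : ℤ) = Fintype.card F - d := by
    rw [← hd]
    push_cast
    ring
  rw [h2] at h1
  zify
  rw [h1]
  ring

open Classical in
theorem com_near (hN : IsNet l) {d : ℕ} (hd : Fintype.card κ + d = Fintype.card F) {z w : P}
    (hne : z ≠ w) (hzw : ¬ Far l z w) : (univ.filter fun u => Far l u z ∧ Far l u w).card =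
      d ^ 2 + d := by
  have h1 := card_com hN hne
  rw [agr_near hN hne hzw] at h1
  have h2 : (Fintype.card κ : ℤ) = Fintype.card F - d := by
    rw [← hd]
    push_cast
    ring
  rw [h2] at h1
  zify
  rw [h1]
  ring

omit [DecidableEq κ] in
open Classical in
theorem deg_far (hN : IsNet l) {d : ℕ} (hd : Fintype.card κ + d = Fintype.card F) (z : P) :
    (univ.filter fun u => Far l u z).card + d + 1 = d * Fintype.card F + Fintype.card F := by
  have h1 := card_far hN z
  have h2 : (Fintype.card κ : ℤ) = Fintype.card F - d := by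
    rw [← hd]
    push_cast
    ring
  rw [h2] at h1
  zify
  rw [h1]
  ring

omit [Fintype P] [DecidableEq P] [Fintype κ] [DecidableEq κ] [DecidableEq F] in
/-- a clique has at most `q` points -/
theorem clique_le [Nonempty κ] {C : Finset P} (hC : ∀ u ∈ C, ∀ v ∈ C, u ≠ v → Far l u v) :
    C.card ≤ Fintype.card F := by
  classical
  obtain ⟨a⟩ := ‹Nonempty κ›
  have h1 : Set.InjOn (fun u => l u a) (C : Set P) := by
    intro u hu v hv huv
    by_contra hne
    exact hC u hu v hv hne a huv
  rw [← card_image_of_injOn h1, ← card_univ]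
  exact card_le_card (subset_univ _)

open Classical in
/-- a point outside a clique `C` of size `q - 1` is far from all of it or from at most
`d² + d` of its points -/
theorem dicho (hN : IsNet l) {d : ℕ} (hd : Fintype.card κ + d = Fintype.card F)
    {C : Finset P} (hC : ∀ u ∈ C, ∀ v ∈ C, u ≠ v → Far l u v) {w : P} (hw : w ∉ C)
    (hn : ¬ ∀ u ∈ C, Far l u w) : (C.filter fun u => Far l u w).card ≤ d ^ 2 + d := by
  push Not at hn
  obtain ⟨z, hz, hzw⟩ := hn
  have hne : z ≠ w := by
    rintro rfl
    exact hw hz
  rw [← com_near hN hd hne hzw]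
  refine card_le_card ?_
  intro u hu
  rw [mem_filter] at hu
  rw [mem_filter]
  refine ⟨mem_univ _, ?_, hu.2⟩
  refine hC u hu.1 z hz ?_
  rintro rfl
  exact hzw hu.2

open Classical in
/-- at most one point completes a clique of size `q - 1` -/
theorem compl_le (hN : IsNet l) {d : ℕ} (hd : Fintype.card κ + d = Fintype.card F)
    (hq : d ^ 2 + d + 1 < Fintype.card F)
    {C : Finset P} (hC : ∀ u ∈ C, ∀ v ∈ C, u ≠ v → Far l u v) (hc : C.card + 1 = Fintype.card F) :
    (univ.filter fun w => w ∉ C ∧ ∀ u ∈ C, Far l u w).card ≤ 1 := by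
  rw [card_le_one]
  intro w hw w' hw'
  rw [mem_filter] at hw hw'
  by_contra hne
  have hf : Far l w w' := by
    by_contra hf
    have h1 := com_near hN hd hne hf
    have h2 : C ⊆ univ.filter fun u => Far l u w ∧ Far l u w' := by
      intro u hu
      rw [mem_filter]
      exact ⟨mem_univ _, hw.2.2 u hu, hw'.2.2 u hu⟩
    have h3 := card_le_card h2
    omega
  have hκ : Nonempty κ := by
    have h2 := hN.two
    exact Fintype.card_pos_iff.1 (by omega)
  have h1 : (insert w (insert w' C)).card ≤ Fintype.card F := by
    refine clique_le (l := l) ?_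
    intro u hu v hv huv
    rw [mem_insert, mem_insert] at hu hv
    rcases hu with rfl | rfl | hu <;> rcases hv with rfl | rfl | hv
    · exact absurd rfl huv
    · exact hf
    · exact (hw.2.2 v hv).symm
    · exact hf.symm
    · exact absurd rfl huv
    · exact (hw'.2.2 v hv).symm
    · exact hw.2.2 u hu
    · exact hw'.2.2 u hu
    · exact hC u hu v hv huv
  rw [card_insert_of_notMem, card_insert_of_notMem hw'.2.1] at h1
  · omega
  · rw [mem_insert]
    rintro (h | h)
    · exact hne h
    · exact hw.2.1 h

open Classical in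
/-- completion of `d` cliques of size `q - 1` through a point -/
theorem complete (hN : IsNet l) {d : ℕ} (hd : Fintype.card κ + d = Fintype.card F)
    (hq : 2 * d ^ 3 + d ^ 2 + 2 * d < Fintype.card F) (y : P) {X : Type*} [Fintype X]
    (hX : Fintype.card X = d) (L : X → Finset P) (hy : ∀ x, y ∈ L x)
    (hc : ∀ x, (L x).card + 1 = Fintype.card F)
    (hcl : ∀ x, ∀ u ∈ L x, ∀ v ∈ L x, u ≠ v → Far l u v)
    (hdis : ∀ x x', x ≠ x' → ∀ u, u ∈ L x → u ∈ L x' → u = y) :
    (∀ x, ∃ w, w ∉ L x ∧ ∀ u ∈ L x, Far l u w) ∧
    ∃ R : Finset P, y ∈ R ∧ R.card = Fintype.card F ∧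
      (∀ u ∈ R, ∀ v ∈ R, u ≠ v → Far l u v) ∧
      ∀ u, Far l u y → u ∈ R ∨ ∃ x, u ∈ L x ∨ ∀ v ∈ L x, Far l v u := by
  have hκ : Nonempty κ := by
    have h2 := hN.two
    exact Fintype.card_pos_iff.1 (by omega)
  have hself : ∀ u, ¬ Far l u u := by
    intro u hu
    obtain ⟨a⟩ := hκ
    exact hu a rfl
  have hd3 : d ^ 2 ≤ d ^ 3 := by
    rcases Nat.eq_zero_or_pos d with h | h
    · simp [h]
    · exact Nat.pow_le_pow_right h (by norm_num)
  have hd1 : d ≤ d ^ 2 := by
    rcases Nat.eq_zero_or_pos d with h | h
    · simp [h]
    · calc d = d ^ 1 := (pow_one d).symm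
        _ ≤ d ^ 2 := Nat.pow_le_pow_right h (by norm_num)
  have hq2 : 2 ≤ Fintype.card F := by
    have := hN.two
    omega
  set G := univ.filter fun u => Far l u y with hG
  have hGc := deg_far hN hd y
  rw [← hG] at hGc
  set U := univ.biUnion fun x => (L x).erase y with hU
  have hUc : U.card = d * (Fintype.card F - 2) := by
    rw [hU, card_biUnion]
    · rw [sum_congr rfl fun x _ => (?_ : ((L x).erase y).card = Fintype.card F - 2)]
      · rw [sum_const, card_univ, hX, smul_eq_mul]
      · rw [card_erase_of_mem (hy x)]
        have := hc x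
        omega
    · intro x _ x' _ hxx
      rw [Function.onFun, disjoint_left]
      intro u hu hu'
      rw [mem_erase] at hu hu'
      exact hu.1 (hdis x x' hxx u hu.2 hu'.2)
  have hUG : U ⊆ G := by
    intro u hu
    rw [hU, mem_biUnion] at hu
    obtain ⟨x, _, hu⟩ := hu
    rw [mem_erase] at hu
    rw [hG, mem_filter]
    exact ⟨mem_univ _, hcl x u hu.2 y (hy x) hu.1⟩
  set R := G \ U with hR
  have hRc : R.card + 1 = Fintype.card F + d := by
    have h1 : R.card + U.card = G.card := by
      rw [hR, card_sdiff_of_subset hUG]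
      have := card_le_card hUG
      omega
    rw [hUc] at h1
    obtain ⟨Q, hQ⟩ : ∃ Q, Fintype.card F = Q + 2 := ⟨Fintype.card F - 2, by omega⟩
    rw [hQ] at h1 hGc ⊢
    rw [Nat.add_sub_cancel] at h1
    have h2 : d * (Q + 2) = d * Q + 2 * d := by ring
    rw [h2] at hGc
    omega
  set A : X → Finset P := fun x => univ.filter fun w => w ∉ L x ∧ ∀ u ∈ L x, Far l u w with hA
  have hAc : ∀ x, (A x).card ≤ 1 := fun x =>
    compl_le hN hd (by omega) (hcl x) (hc x)
  set AA := univ.biUnion A with hAA
  have hAAc : AA.card ≤ ∑ x, (A x).card := card_biUnion_le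
  have hAs : ∑ x, (A x).card ≤ d := by
    calc ∑ x, (A x).card ≤ ∑ _x : X, 1 := sum_le_sum fun x _ => hAc x
      _ = d := by simp [hX]
  set R' := R \ AA with hR'
  have hR'c : R.card ≤ R'.card + AA.card := by
    rw [hR']
    have h1 := card_sdiff_add_card_inter R AA
    have h2 : (R ∩ AA).card ≤ AA.card := card_le_card inter_subset_right
    omega
  -- points of `R'` are far from most points of `R`
  have hN1 : ∀ z ∈ R', Fintype.card F + d ^ 2 ≤
      (R.filter fun u => Far l u z).card + d * (d ^ 2 + d - 1) + d + 2 := by
    intro z hz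
    rw [hR', mem_sdiff, hR, mem_sdiff, hG, mem_filter] at hz
    obtain ⟨⟨⟨_, hzy⟩, hzU⟩, hzA⟩ := hz
    have hzne : z ≠ y := by
      rintro rfl
      exact hself _ hzy
    have h1 := com_far hN hd hzy
    have h2 : (univ.filter fun u => Far l u z ∧ Far l u y) ⊆
        (R.filter fun u => Far l u z) ∪
          univ.biUnion fun x => ((L x).erase y).filter fun u => Far l u z := by
      intro u hu
      rw [mem_filter] at hu
      rw [mem_union, mem_filter, mem_biUnion]
      by_cases huU : u ∈ U
      · right
        rw [hU, mem_biUnion] at huU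
        obtain ⟨x, hx, hu'⟩ := huU
        exact ⟨x, hx, mem_filter.2 ⟨hu', hu.2.1⟩⟩
      · left
        refine ⟨?_, hu.2.1⟩
        rw [hR, mem_sdiff, hG, mem_filter]
        exact ⟨⟨mem_univ _, hu.2.2⟩, huU⟩
    have h3 := (card_le_card h2).trans (card_union_le _ _)
    have h4 : (univ.biUnion fun x => ((L x).erase y).filter fun u => Far l u z).card ≤
        d * (d ^ 2 + d - 1) := by
      refine card_biUnion_le.trans ?_
      calc ∑ x, (((L x).erase y).filter fun u => Far l u z).card
          ≤ ∑ _x : X, (d ^ 2 + d - 1) := by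
            refine sum_le_sum fun x _ => ?_
            have h5 : z ∉ L x := by
              intro h
              apply hzU
              rw [hU, mem_biUnion]
              exact ⟨x, mem_univ _, mem_erase.2 ⟨hzne, h⟩⟩
            have h6 : ¬ ∀ u ∈ L x, Far l u z := by
              intro h
              apply hzA
              rw [hAA, mem_biUnion]
              exact ⟨x, mem_univ _, mem_filter.2 ⟨mem_univ _, h5, h⟩⟩
            have h7 := dicho hN hd (hcl x) h5 h6
            have h8 : ((L x).filter fun u => Far l u z).card =
                (((L x).erase y).filter fun u => Far l u z).card + 1 := by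
              rw [filter_erase, card_erase_of_mem]
              · have : 0 < ((L x).filter fun u => Far l u z).card :=
                  card_pos.2 ⟨y, mem_filter.2 ⟨hy x, hzy.symm⟩⟩
                omega
              · exact mem_filter.2 ⟨hy x, hzy.symm⟩
            omega
        _ = d * (d ^ 2 + d - 1) := by
            rw [sum_const, card_univ, hX, smul_eq_mul]
    omega
  -- `R'` is a clique
  have hcl' : ∀ z ∈ R', ∀ z' ∈ R', z ≠ z' → Far l z z' := by
    intro z hz z' hz' hne
    by_contra hnf
    have h1 := hN1 z hz
    have h2 := hN1 z' hz'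
    have h3 := com_near hN hd hne hnf
    have hzR : z ∈ R := (mem_sdiff.1 hz).1
    have hzR' : z' ∈ R := (mem_sdiff.1 hz').1
    have hzy : Far l z y := by
      have := (mem_sdiff.1 hzR).1
      rw [hG, mem_filter] at this
      exact this.2
    have hzy' : Far l z' y := by
      have := (mem_sdiff.1 hzR').1
      rw [hG, mem_filter] at this
      exact this.2
    have h4 : insert y ((R.filter fun u => Far l u z) ∩ (R.filter fun u => Far l u z')) ⊆
        univ.filter fun u => Far l u z ∧ Far l u z' := by
      intro u hu
      rw [mem_insert, mem_inter, mem_filter, mem_filter] at hu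
      rw [mem_filter]
      rcases hu with rfl | hu
      · exact ⟨mem_univ _, hzy.symm, hzy'.symm⟩
      · exact ⟨mem_univ _, hu.1.2, hu.2.2⟩
    have h5 := card_le_card h4
    rw [card_insert_of_notMem, h3] at h5
    swap
    · intro hy'
      rw [mem_inter, mem_filter] at hy'
      have := (mem_sdiff.1 hy'.1.1).1
      rw [hG, mem_filter] at this
      exact hself _ this.2
    have h6 : (R.filter fun u => Far l u z) ∪ (R.filter fun u => Far l u z') ⊆
        (R.erase z).erase z' := by
      intro u hu
      rw [mem_union, mem_filter, mem_filter] at hu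
      rw [mem_erase, mem_erase]
      rcases hu with ⟨hu, hf⟩ | ⟨hu, hf⟩
      · refine ⟨?_, ?_, hu⟩
        · rintro rfl
          exact hnf hf.symm
        · rintro rfl
          exact hself _ hf
      · refine ⟨?_, ?_, hu⟩
        · rintro rfl
          exact hself _ hf
        · rintro rfl
          exact hnf hf
    have h7 := card_le_card h6
    rw [card_erase_of_mem (mem_erase.2 ⟨hne.symm, hzR'⟩), card_erase_of_mem hzR] at h7
    have h8 := card_union_add_card_inter (R.filter fun u => Far l u z)
      (R.filter fun u => Far l u z')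
    rcases Nat.eq_zero_or_pos d with h0 | h0
    · subst h0
      simp only [ne_eq, OfNat.ofNat_ne_zero, not_false_eq_true, zero_pow, add_zero] at h5
      omega
    · obtain ⟨e, he⟩ : ∃ e, d = e + 1 := ⟨d - 1, by omega⟩
      have h9 : d * (d ^ 2 + d - 1) + d = d ^ 3 + d ^ 2 := by
        obtain ⟨f, hf⟩ : ∃ f, d ^ 2 + d = f + 1 := ⟨d ^ 2 + d - 1, by omega⟩
        rw [hf, Nat.add_sub_cancel]
        have : d * (d ^ 2 + d) = d * (f + 1) := by rw [hf]
        nlinarith
      omega
  have hyR' : y ∉ R' := by
    intro h
    have := (mem_sdiff.1 (mem_sdiff.1 h).1).1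
    rw [hG, mem_filter] at this
    exact hself _ this.2
  have hfy : ∀ u ∈ R', Far l u y := by
    intro u h
    have := (mem_sdiff.1 (mem_sdiff.1 h).1).1
    rw [hG, mem_filter] at this
    exact this.2
  have hclique : ∀ u ∈ insert y R', ∀ v ∈ insert y R', u ≠ v → Far l u v := by
    intro u hu v hv huv
    rw [mem_insert] at hu hv
    rcases hu with rfl | hu <;> rcases hv with rfl | hv
    · exact absurd rfl huv
    · exact (hfy v hv).symm
    · exact hfy u hu
    · exact hcl' u hu v hv huv
  have hle := clique_le (l := l) hclique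
  have hcard : (insert y R').card = Fintype.card F := by
    rw [card_insert_of_notMem hyR'] at hle ⊢
    omega
  have hsum : ∑ x, (A x).card = d := by
    rw [card_insert_of_notMem hyR'] at hle
    omega
  refine ⟨?_, insert y R', mem_insert_self _ _, hcard, hclique, ?_⟩
  · intro x
    by_contra hno
    push Not at hno
    have h1 : (A x).card = 0 := by
      rw [card_eq_zero, hA]
      simp only
      rw [filter_eq_empty_iff]
      rintro w _ ⟨hw, hw'⟩
      obtain ⟨u, hu, hu'⟩ := hno w hw
      exact hu' (hw' u hu)
    have h2 : ∑ x, (A x).card < ∑ _x : X, 1 :=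
      sum_lt_sum (fun x _ => hAc x) ⟨x, mem_univ _, by omega⟩
    rw [hsum] at h2
    simp [hX] at h2
  · intro u hu
    by_cases huU : u ∈ U
    · right
      rw [hU, mem_biUnion] at huU
      obtain ⟨x, _, hu'⟩ := huU
      exact ⟨x, Or.inl (mem_erase.1 hu').2⟩
    · by_cases huA : u ∈ AA
      · right
        rw [hAA, mem_biUnion] at huA
        obtain ⟨x, _, hu'⟩ := huA
        rw [hA] at hu'
        simp only [mem_filter] at hu'
        exact ⟨x, Or.inr hu'.2.2⟩
      · left
        refine mem_insert_of_mem ?_
        rw [hR', mem_sdiff, hR, mem_sdiff, hG, mem_filter]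
        exact ⟨⟨⟨mem_univ _, hu⟩, huU⟩, huA⟩

end Pool.MP_0af767_co.Net
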