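import Pool.Agent.Results.MP_0af767_co.ExtensionBarrier

/-!
# MP_0af767_co: a stability lemma

`J` is a set of columns, `S` a set of rows, and for any two columns exactly one row of `S` joins them. If `J` is large compared
with `S` then one row joins all columns.
-/

namespace Pool.MP_0af767_co

open Finset Matrix

/-- Sets with few directions are lines. -/
theorem stab {α β F : Type*} [DecidableEq α] [DecidableEq β] [Zero F] [DecidableEq F] (J : Finset α) (S : Finset β)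
    (φ : β → α → F) (d : ℕ) (hS : S.card ≤ d + 1) (hJ : d ^ 2 < J.card) (hJ2 : 2 ≤ J.card)
    (hex : ∀ j ∈ J, ∀ j' ∈ J, j ≠ j' → ∃ s ∈ S, φ s j ≠ 0 ∧ φ s j = φ s j')
    (huniq : ∀ j ∈ J, ∀ j' ∈ J, j ≠ j' → ∀ s ∈ S, ∀ s' ∈ S, φ s j ≠ 0 → φ s j = φ s j' → φ s' j ≠ 0 → φ s' j = φ s' j' →
      s = s') :
    ∃ s ∈ S, ∃ v : F, v ≠ 0 ∧ ∀ j ∈ J, φ s j = v := by
  classical
  obtain ⟨j0, hj0⟩ : J.Nonempty := card_pos.1 (lt_of_le_of_lt (Nat.zero_le _) hJ)
  -- the class of `j0` with respect to `s`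
  by_cases hbig : ∃ s ∈ S, φ s j0 ≠ 0 ∧ d < (J.filter fun j => φ s j = φ s j0).card
  · obtain ⟨s, hs, hs0, hsc⟩ := hbig
    refine ⟨s, hs, φ s j0, hs0, ?_⟩
    by_contra hcon
    push Not at hcon
    obtain ⟨y, hy, hyne⟩ := hcon
    have hch : ∀ z ∈ J.filter (fun j => φ s j = φ s j0), ∃ s' ∈ S.erase s, φ s' y ≠ 0 ∧ φ s' y = φ s' z := by
      intro z hz
      obtain ⟨hzJ, hzv⟩ := mem_filter.1 hz
      have hyz : y ≠ z := by
        rintro rfl
        exact hyne hzv
      obtain ⟨s', hs', h1, h2⟩ := hex y hy z hzJ hyz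
      refine ⟨s', mem_erase.2 ⟨?_, hs'⟩, h1, h2⟩
      rintro rfl
      exact hyne (h2.trans hzv)
    have : Nonempty β := ⟨s⟩
    choose! σ hσ1 hσ2 hσ3 using hch
    have hinj : Set.InjOn σ ((J.filter fun j => φ s j = φ s j0 : Finset α) : Set α) := by
      intro z hz z' hz' hzz
      by_contra hne
      rw [mem_coe] at hz hz'
      obtain ⟨hzJ, hzv⟩ := mem_filter.1 hz
      obtain ⟨hzJ', hzv'⟩ := mem_filter.1 hz'
      have h1 := mem_erase.1 (hσ1 z hz)
      have h2 : φ (σ z) z ≠ 0 := by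
        rw [← hσ3 z hz]
        exact hσ2 z hz
      have h3 : φ (σ z) z = φ (σ z) z' := by
        rw [← hσ3 z hz]
        have := hσ3 z' hz'
        rw [← hzz] at this
        exact this
      exact h1.1 (huniq z hzJ z' hzJ' hne (σ z) h1.2 s hs h2 h3 (by rw [hzv]; exact hs0) (by rw [hzv, hzv']))
    have h4 : (J.filter fun j => φ s j = φ s j0).card ≤ (S.erase s).card :=
      card_le_card_of_injOn σ (fun z hz => hσ1 z hz) hinj
    rw [card_erase_of_mem hs] at h4
    omega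
  · exfalso
    push Not at hbig
    have hcov : J.erase j0 ⊆ (S.filter fun s => φ s j0 ≠ 0).biUnion fun s => (J.filter fun j => φ s j = φ s j0).erase j0 := by
      intro j hj
      obtain ⟨hne, hjJ⟩ := mem_erase.1 hj
      obtain ⟨s, hs, h1, h2⟩ := hex j0 hj0 j hjJ (Ne.symm hne)
      exact mem_biUnion.2 ⟨s, mem_filter.2 ⟨hs, h1⟩, mem_erase.2 ⟨hne, mem_filter.2 ⟨hjJ, h2.symm⟩⟩⟩
    have h1 : (J.erase j0).card ≤ (S.filter fun s => φ s j0 ≠ 0).card * (d - 1) := by
      refine (card_le_card hcov).trans (card_biUnion_le_card_mul _ _ _ fun s hs => ?_)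
      obtain ⟨hsS, hs0⟩ := mem_filter.1 hs
      have h2 := hbig s hsS hs0
      have h6 : j0 ∈ J.filter fun j => φ s j = φ s j0 := mem_filter.2 ⟨hj0, rfl⟩
      rw [card_erase_of_mem h6]
      omega
    rw [card_erase_of_mem hj0] at h1
    have h3 : (S.filter fun s => φ s j0 ≠ 0).card ≤ d + 1 := (card_filter_le _ _).trans hS
    have h4 : J.card - 1 ≤ (d + 1) * (d - 1) := h1.trans (Nat.mul_le_mul_right _ h3)
    rcases Nat.eq_zero_or_pos d with rfl | hd
    · simp only [zero_add, Nat.zero_sub, mul_zero] at h4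
      omega
    · obtain ⟨e, rfl⟩ : ∃ e, d = e + 1 := ⟨d - 1, by omega⟩
      simp only [Nat.add_sub_cancel] at h4
      have h5 : (e + 1 + 1) * e + 1 = (e + 1) ^ 2 := by ring
      omega

end Pool.MP_0af767_co
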